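import Mathlib
import Pool.Agent.H86.XP.Defs

set_option autoImplicit false

/-!
# THEOREM LPm (bounded depth formulas over gates, random 3-CNFs): definitions for abstract atoms

As `Pool/Agent/H86/LP/Defs.lean` with abstract atoms: an atom `a : V` has a set `vs a` of variables and a value `pv x a` at every
assignment `x`, which depends only on the values of `x` on `vs a`. `Cms`: worlds with commitments to the values of the long atoms.
-/

namespace Pool.H86.MG

open Finset Classical Pool.Agent.H3.Frg Pool.Agent.H3.Frg2 Pool.Agent.H3.Frg4 Pool.Agent.H55.QT Pool.H6.LD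

/-- Atoms: the variables `vs a` and the value `pv x a` of the atom `a`. -/
class Atm (n : outParam ℕ) (V : Type) where
  vs : V → Finset (Fin n)
  pv : (Fin n → Bool) → V → Bool
  cg : ∀ (x y : Fin n → Bool) (a : V), (∀ v ∈ vs a, x v = y v) → pv x a = pv y a

export Atm (vs pv)

variable {n : ℕ} {V : Type} [Atm n V]

/-- The length of a formula. -/
def sz : Fm V → ℕ
  | .var a => max 1 (vs a).card
  | .neg A => sz A
  | .imp A B => sz A + sz B

/-- The variables of a formula. -/
noncomputable def fs : Fm V → Finset (Fin n)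
  | .var a => vs a
  | .neg A => fs A
  | .imp A B => fs A ∪ fs B

section world

variable (W : Finset (Fin n) → (Fin n → Bool) → Prop)

/-- Locally true. -/
def Lt (D : Finset (Fin n)) (x : Fin n → Bool) (F : Fm V) (b : Bool) : Prop :=
  ∀ y, (∀ v ∈ D, y v = x v) → W (D ∪ fs F) y → F.eval (pv y) = b

/-- Truth at a state. -/
def Tr (c : V → Bool) (k0 : ℕ) (thr : ℕ → ℕ) (D : Finset (Fin n)) (x : Fin n → Bool) :
    Fm V → Bool → Bool → Prop
  | .var S, b, _ => if (vs S).card ≤ k0 then Lt W D x (.var S) b else c S = b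
  | .neg A, b, i => Tr c k0 thr D x A (!b) i
  | .imp A B, false, _ => Tr c k0 thr D x A true false ∧ Tr c k0 thr D x B false false
  | .imp A B, true, i =>
      if i = false ∧ sz (Fm.imp A B) < thr (alt (Fm.imp A B) true) then
        Lt W D x (.imp A B) true
      else Tr c k0 thr D x A false true ∨ Tr c k0 thr D x B true true

/-- All signed formulas of the list are true. -/
def TrL (c : V → Bool) (k0 : ℕ) (thr : ℕ → ℕ) (D : Finset (Fin n)) (x : Fin n → Bool)
    (l : List (Fm V × Bool)) : Prop :=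
  ∀ p ∈ l, Tr W c k0 thr D x p.1 p.2 false

end world

/-- The sum of the weights of the blocks of `F` (`b = true`) or `¬ F` (`b = false`), without the outermost
block if that is a conjunction. -/
def wq (k : ℕ) : Fm V → Bool → ℕ
  | .var _, _ => 0
  | .neg A, b => wq k A (!b)
  | .imp A B, false => wq k A true + wq k B false
  | .imp A B, true => wq k A true + wq k B false + om k (sz (Fm.imp A B))

/-- The sum of the weights of the signed formulas of a list. -/
def lq (k : ℕ) (l : List (Fm V × Bool)) : ℕ := (l.map fun p => wq k p.1 p.2).sum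

/-- `F` has at most `M` different pieces, of total weight at most `W`. -/
def Fewq (k M W : ℕ) (F : Fm V) : Prop :=
  (ps k F).card ≤ M ∧ ∑ P ∈ ps k F, max (wq k P true) (wq k P false) ≤ W

/-- The long atoms of `F`. -/
noncomputable def lg (k : ℕ) (F : Fm V) : Finset V :=
  (fv F).filter fun S => k < (vs S).card

/-- Truth of `F` (`b = true`) or `¬ F` (`b = false`) at a state: all values of the pieces which agree with the
pieces that are true or false at the state give `F` the value `b`. -/
def TT (W : Finset (Fin n) → (Fin n → Bool) → Prop) (c : V → Bool) (thr : ℕ → ℕ) (k : ℕ)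
    (D : Finset (Fin n)) (x : Fin n → Bool) (F : Fm V) (b : Bool) : Prop :=
  ∀ v : Fm V → Bool, (∀ P ∈ ps k F, ∀ d, Tr W c k thr D x P d false → v P = d) → evp k v F = b

section cert

variable (Con : Finset (Fin n) → (Fin n → Bool) → Prop)

/-- Certificates: if `l` is true (in the sense of a world `W` contained in `Con`, with commitments `c`) at a state `U' x'` of `W` above `U x` with at most
`K - k` variables then it is true in the sense of `Con` at a state `D y`, compatible with `U' x'` in `W`, with at most `k` variables. -/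
def Crt (k0 : ℕ) (thr : ℕ → ℕ) (K k : ℕ) (U : Finset (Fin n)) (x : Fin n → Bool)
    (l : List (Fm V × Bool)) : Prop :=
  ∀ (W : Finset (Fin n) → (Fin n → Bool) → Prop) (c : V → Bool), Wld W K → (∀ D x, W D x → Con D x) →
    ∀ U' x', U ⊆ U' → (∀ v ∈ U, x' v = x v) → W U' x' → U'.card + k ≤ K → TrL W c k0 thr U' x' l →
      ∃ D y, D.card ≤ k ∧ (∀ v ∈ U', y v = x' v) ∧ W (U' ∪ D) y ∧ TrL Con c k0 thr D y l

/-- `Kll q K k l w`: there are good tests of total weight at most `w` such that all states which hit them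
have certificates for `l`. -/
def Kll (k0 : ℕ) (thr : ℕ → ℕ) (q K k : ℕ) (w : ℝ) (l : List (Fm V × Bool)) : Prop :=
  ∃ T : Finset (Tst n), (∀ t ∈ T, GT Con t) ∧ ∑ t ∈ T, wt q t ≤ w ∧
    ∀ U x, (∀ t ∈ T, Hit U x t) → Crt Con k0 thr K k U x l

end cert

/-- Certificates for lists of weight at most `C n` with at most `d` alternations. -/
def KilQ (w0 : ℕ) (sub : ℕ → ℝ → ℝ) (thr : ℕ → ℕ) (C : ℝ) (q d : ℕ) (c η : ℝ) (n : ℕ) (V : Type) [Atm n V] : Prop :=
  ∀ (Con : Finset (Fin n) → (Fin n → Bool) → Prop) (K k : ℕ), Wld Con K →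
    (∀ A ν, 0 < ν → SubT Con A ν (sub A ν)) → c * n ≤ k →
    ∀ l : List (Fm V × Bool), (lq w0 l : ℝ) ≤ C * n → (∀ p ∈ l, alt p.1 p.2 ≤ d) →
      Kll Con w0 thr q K k (2 ^ (-η * n)) l

/-- Worlds with commitments: `Wc G c` is the world in which the atoms in `G` have the values `c`; `Gd G`: `G` is good. -/
structure Cms (Con : Finset (Fin n) → (Fin n → Bool) → Prop) (K : ℕ) (Gd : Finset V → Prop)
    (Wc : Finset V → (V → Bool) → Finset (Fin n) → (Fin n → Bool) → Prop) : Prop where
  wld : ∀ G c D y, Gd G → Wc G c D y → Wld (Wc G c) K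
  le : ∀ G c D y, Wc G c D y → Con D y
  emp : ∀ c D y, Con D y → Wc ∅ c D y
  res : ∀ G G' c c' D y, G' ⊆ G → (∀ S ∈ G', c' S = c S) → Wc G c D y → Wc G' c' D y
  cmt : ∀ G c, ∀ S ∈ G, ∀ D y, vs S ⊆ D → Wc G c D y → pv y S = c S
  ext : ∀ G G' c D y, Gd G' → G ⊆ G' → D.card ≤ K → Wc G c D y → ∃ c', (∀ S ∈ G, c' S = c S) ∧ Wc G' c' D y
  real : ∀ G c D y, Wc G c D y → ∃ z, (∀ v ∈ D, z v = y v) ∧ ∀ S ∈ G, pv z S = c S

/-- Derivations: elements of `Γ`, instances of schemes, modus ponens, resolution on an atom together with weakening (for formulas with at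
most `k` alternations, read as sets of disjuncts). -/
def DerX {V : Type} (k : ℕ) (Sch : Set (Fm ℕ)) (Γ : Set (Fm V)) {N : ℕ} (pf : Fin N → Fm V) : Prop :=
  ∀ i, pf i ∈ Γ ∨ (∃ ψ ∈ Sch, ∃ σ : ℕ → Fm V, pf i = ψ.bind σ) ∨
    (∃ j l, j < i ∧ l < i ∧ pf l = Fm.imp (pf j) (pf i)) ∨
    (∃ j l, j < i ∧ l < i ∧ Pc k (pf j) ∧ Pc k (pf l) ∧ Pc k (pf i) ∧ ∃ S : V,
      (∀ p ∈ dj (pf j) true, p = (Fm.var S, true) ∨ p ∈ dj (pf i) true) ∧
      (∀ p ∈ dj (pf l) true, p = (Fm.var S, false) ∨ p ∈ dj (pf i) true))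

end Pool.H86.MG
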