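import Mathlib
import Pool.Agent.H86.MG.Defs
import Pool.Agent.H6.LE.Wgt

set_option autoImplicit false
set_option linter.unusedSectionVars false

/-!
# Module BSC (THEOREM LP): basic facts on states and truth

`Cm W c k0 F`: the world `W` respects the commitment `c` to the long atoms of `F`. `Tr.le`: from the world `Con` to a smaller world.
-/

namespace Pool.H86.MG

open Finset Classical Pool.Agent.H3.Frg Pool.Agent.H3.Frg2 Pool.Agent.H3.Frg4 Pool.Agent.H55.QT Pool.H6.LD

variable {n K k0 : ℕ} {V : Type} [Atm n V] {Con W : Finset (Fin n) → (Fin n → Bool) → Prop} {c : V → Bool}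

theorem pv_congr {x y : Fin n → Bool} {S : V} (h : ∀ v ∈ vs S, x v = y v) : pv x S = pv y S :=
  Atm.cg x y S h

theorem atom_sub {F : Fm V} : ∀ S ∈ fv F, vs S ⊆ fs F := by
  induction F with
  | var S =>
    intro S' hS'
    have h1 : fv (Fm.var S) = {S} := rfl
    rw [h1, mem_singleton] at hS'
    rw [hS']
    exact subset_refl _
  | neg A ih => exact ih
  | imp A B ihA ihB =>
    intro S hS
    rcases mem_fv_imp.1 hS with hS | hS
    · exact (ihA S hS).trans subset_union_left
    · exact (ihB S hS).trans subset_union_right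

theorem ev_cg {F : Fm V} {x y : Fin n → Bool} (h : ∀ v ∈ fs F, x v = y v) :
    F.eval (pv x) = F.eval (pv y) :=
  ev_congr fun S hS => pv_congr fun v hv => h v (atom_sub S hS hv)

theorem sz_pos (F : Fm V) : 1 ≤ sz F := by
  induction F with
  | var v => exact le_max_left _ _
  | neg A ih => exact ih
  | imp A B ihA ihB => exact ihA.trans (Nat.le_add_right _ _)

theorem fs_card (F : Fm V) : (fs F).card ≤ sz F := by
  induction F with
  | var v => exact le_max_right _ _
  | neg A ih => exact ih
  | imp A B ihA ihB =>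
    simp only [fs, sz]
    exact (card_union_le _ _).trans (Nat.add_le_add ihA ihB)

theorem fs_l (A B : Fm V) : fs A ⊆ fs (.imp A B) := subset_union_left

theorem fs_r (A B : Fm V) : fs B ⊆ fs (.imp A B) := subset_union_right

theorem Lt.mono (h : Wld W K) {D D' : Finset (Fin n)} {x x' : Fin n → Bool} {F : Fm V} {b : Bool}
    (hD : D ⊆ D') (hx : ∀ v ∈ D, x' v = x v) (hl : Lt W D x F b) : Lt W D' x' F b := by
  intro y hy hc
  exact hl y (fun v hv => (hy v (hD hv)).trans (hx v hv))
    (h.mono _ _ _ (union_subset_union hD subset_rfl) hc)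

theorem Lt.le (h : ∀ D x, W D x → Con D x) {D : Finset (Fin n)} {x : Fin n → Bool} {F : Fm V} {b : Bool}
    (hl : Lt Con D x F b) : Lt W D x F b := fun y hy hc => hl y hy (h _ _ hc)

theorem tr_neg {thr : ℕ → ℕ} {D : Finset (Fin n)} {x : Fin n → Bool} {A : Fm V}
    {b i : Bool} : Tr W c k0 thr D x (.neg A) b i ↔ Tr W c k0 thr D x A (!b) i := Iff.rfl

theorem tr_vars {thr : ℕ → ℕ} {D : Finset (Fin n)} {x : Fin n → Bool} {S : V}
    {b i : Bool} (hS : (vs S).card ≤ k0) : Tr W c k0 thr D x (.var S) b i ↔ Lt W D x (.var S) b := by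
  simp only [Tr]
  rw [if_pos hS]

theorem tr_varl {thr : ℕ → ℕ} {D : Finset (Fin n)} {x : Fin n → Bool} {S : V}
    {b i : Bool} (hS : ¬ (vs S).card ≤ k0) : Tr W c k0 thr D x (.var S) b i ↔ c S = b := by
  simp only [Tr]
  rw [if_neg hS]

theorem tr_impf {thr : ℕ → ℕ} {D : Finset (Fin n)} {x : Fin n → Bool} {A B : Fm V}
    {i : Bool} : Tr W c k0 thr D x (.imp A B) false i ↔
      Tr W c k0 thr D x A true false ∧ Tr W c k0 thr D x B false false := Iff.rfl

theorem tr_impt {thr : ℕ → ℕ} {D : Finset (Fin n)} {x : Fin n → Bool} {A B : Fm V}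
    {i : Bool} (hi : i = false ∧ sz (Fm.imp A B) < thr (alt (Fm.imp A B) true)) :
    Tr W c k0 thr D x (.imp A B) true i ↔ Lt W D x (.imp A B) true := by
  simp only [Tr]
  rw [if_pos hi]

theorem tr_impn {thr : ℕ → ℕ} {D : Finset (Fin n)} {x : Fin n → Bool} {A B : Fm V}
    {i : Bool} (hi : ¬ (i = false ∧ sz (Fm.imp A B) < thr (alt (Fm.imp A B) true))) :
    Tr W c k0 thr D x (.imp A B) true i ↔
      Tr W c k0 thr D x A false true ∨ Tr W c k0 thr D x B true true := by
  simp only [Tr]
  rw [if_neg hi]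

theorem Tr.mono (h : Wld W K) {thr : ℕ → ℕ} {D D' : Finset (Fin n)} {x x' : Fin n → Bool}
    {F : Fm V} {b i : Bool} (hD : D ⊆ D') (hx : ∀ v ∈ D, x' v = x v)
    (hl : Tr W c k0 thr D x F b i) : Tr W c k0 thr D' x' F b i := by
  induction F generalizing b i with
  | var S =>
    by_cases hS : (vs S).card ≤ k0
    · exact (tr_vars hS).2 (Lt.mono h hD hx ((tr_vars hS).1 hl))
    · exact (tr_varl hS).2 ((tr_varl hS).1 hl)
  | neg A ih => exact ih (tr_neg.1 hl)
  | imp A B ihA ihB =>
    cases b with
    | false =>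
      obtain ⟨h1, h2⟩ := tr_impf.1 hl
      exact tr_impf.2 ⟨ihA h1, ihB h2⟩
    | true =>
      by_cases hi : i = false ∧ sz (Fm.imp A B) < thr (alt (Fm.imp A B) true)
      · exact (tr_impt hi).2 (Lt.mono h hD hx ((tr_impt hi).1 hl))
      · rcases (tr_impn hi).1 hl with h1 | h1
        · exact (tr_impn hi).2 (Or.inl (ihA h1))
        · exact (tr_impn hi).2 (Or.inr (ihB h1))

/-- From the world `Con` to a smaller world; the commitment has to be the same only on the long atoms of `F`. -/
theorem Tr.le {c' : V → Bool} (h : ∀ D x, W D x → Con D x) {thr : ℕ → ℕ} {D : Finset (Fin n)}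
    {x : Fin n → Bool} {F : Fm V} {b i : Bool} (hc : ∀ S ∈ fv F, k0 < (vs S).card → c' S = c S)
    (hl : Tr Con c k0 thr D x F b i) : Tr W c' k0 thr D x F b i := by
  induction F generalizing b i with
  | var S =>
    by_cases hS : (vs S).card ≤ k0
    · exact (tr_vars hS).2 (Lt.le h ((tr_vars hS).1 hl))
    · refine (tr_varl hS).2 ?_
      rw [hc S (mem_singleton_self S) (by omega)]
      exact (tr_varl hS).1 hl
  | neg A ih => exact ih hc (tr_neg.1 hl)
  | imp A B ihA ihB =>
    have hcA : ∀ S ∈ fv A, k0 < (vs S).card → c' S = c S := fun S hS => hc S (mem_fv_imp.2 (Or.inl hS))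
    have hcB : ∀ S ∈ fv B, k0 < (vs S).card → c' S = c S := fun S hS => hc S (mem_fv_imp.2 (Or.inr hS))
    cases b with
    | false =>
      obtain ⟨h1, h2⟩ := tr_impf.1 hl
      exact tr_impf.2 ⟨ihA hcA h1, ihB hcB h2⟩
    | true =>
      by_cases hi : i = false ∧ sz (Fm.imp A B) < thr (alt (Fm.imp A B) true)
      · exact (tr_impt hi).2 (Lt.le h ((tr_impt hi).1 hl))
      · rcases (tr_impn hi).1 hl with h1 | h1
        · exact (tr_impn hi).2 (Or.inl (ihA hcA h1))
        · exact (tr_impn hi).2 (Or.inr (ihB hcB h1))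

/-- `W` respects the commitment to the long atoms of `F`. -/
def Cm (W : Finset (Fin n) → (Fin n → Bool) → Prop) (c : V → Bool) (k0 : ℕ) (F : Fm V) : Prop :=
  ∀ S ∈ fv F, k0 < (vs S).card → ∀ D x, vs S ⊆ D → W D x → pv x S = c S

theorem Cm.l {A B : Fm V} (h : Cm W c k0 (.imp A B)) : Cm W c k0 A :=
  fun S hS => h S (mem_fv_imp.2 (Or.inl hS))

theorem Cm.r {A B : Fm V} (h : Cm W c k0 (.imp A B)) : Cm W c k0 B :=
  fun S hS => h S (mem_fv_imp.2 (Or.inr hS))

theorem Tr.lt (h : Wld W K) {thr : ℕ → ℕ} {D : Finset (Fin n)} {x : Fin n → Bool}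
    {F : Fm V} {b i : Bool} (hc : Cm W c k0 F) (hl : Tr W c k0 thr D x F b i) : Lt W D x F b := by
  induction F generalizing b i with
  | var S =>
    by_cases hS : (vs S).card ≤ k0
    · exact (tr_vars hS).1 hl
    · intro y hy hW
      have h1 : pv y S = c S := hc S (mem_singleton_self S) (by omega) _ y subset_union_right hW
      show pv y S = b
      rw [h1]
      exact (tr_varl hS).1 hl
  | neg A ih =>
    intro y hy hW
    have h1 : A.eval (pv y) = !b := ih hc (tr_neg.1 hl) y hy hW
    simp only [Fm.eval, h1, Bool.not_not]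
  | imp A B ihA ihB =>
    have hA : D ∪ fs A ⊆ D ∪ fs (Fm.imp A B) := union_subset_union subset_rfl (fs_l A B)
    have hB : D ∪ fs B ⊆ D ∪ fs (Fm.imp A B) := union_subset_union subset_rfl (fs_r A B)
    cases b with
    | false =>
      obtain ⟨h1, h2⟩ := tr_impf.1 hl
      intro y hy hW
      have h3 : A.eval (pv y) = true := ihA hc.l h1 y hy (h.mono _ _ _ hA hW)
      have h4 : B.eval (pv y) = false := ihB hc.r h2 y hy (h.mono _ _ _ hB hW)
      simp [Fm.eval, h3, h4]
    | true =>
      by_cases hi : i = false ∧ sz (Fm.imp A B) < thr (alt (Fm.imp A B) true)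
      · exact (tr_impt hi).1 hl
      · intro y hy hW
        rcases (tr_impn hi).1 hl with h1 | h1
        · have h3 : A.eval (pv y) = false := ihA hc.l h1 y hy (h.mono _ _ _ hA hW)
          simp [Fm.eval, h3]
        · have h3 : B.eval (pv y) = true := ihB hc.r h1 y hy (h.mono _ _ _ hB hW)
          simp [Fm.eval, h3]

theorem lt_full {D : Finset (Fin n)} {x : Fin n → Bool}
    {F : Fm V} {b : Bool} (hF : fs F ⊆ D) (he : F.eval (pv x) = b) : Lt W D x F b := by
  intro y hy _
  rw [← he]
  exact ev_cg fun v hv => hy v (hF hv)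

theorem tr_full {thr : ℕ → ℕ} {D : Finset (Fin n)} {x : Fin n → Bool}
    {F : Fm V} {b i : Bool} (hF : fs F ⊆ D) (hc : ∀ S ∈ fv F, k0 < (vs S).card → c S = pv x S)
    (he : F.eval (pv x) = b) : Tr W c k0 thr D x F b i := by
  induction F generalizing b i with
  | var S =>
    by_cases hS : (vs S).card ≤ k0
    · exact (tr_vars hS).2 (lt_full hF he)
    · refine (tr_varl hS).2 ?_
      rw [hc S (mem_singleton_self S) (by omega)]
      exact he
  | neg A ih =>
    refine tr_neg.2 (ih hF hc ?_)
    rw [← he]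
    simp [Fm.eval]
  | imp A B ihA ihB =>
    have hA : fs A ⊆ D := (fs_l A B).trans hF
    have hB : fs B ⊆ D := (fs_r A B).trans hF
    have hcA : ∀ S ∈ fv A, k0 < (vs S).card → c S = pv x S := fun S hS => hc S (mem_fv_imp.2 (Or.inl hS))
    have hcB : ∀ S ∈ fv B, k0 < (vs S).card → c S = pv x S := fun S hS => hc S (mem_fv_imp.2 (Or.inr hS))
    cases b with
    | false =>
      simp only [Fm.eval, Bool.or_eq_false_iff, Bool.not_eq_false'] at he
      exact tr_impf.2 ⟨ihA hA hcA he.1, ihB hB hcB he.2⟩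
    | true =>
      by_cases hi : i = false ∧ sz (Fm.imp A B) < thr (alt (Fm.imp A B) true)
      · exact (tr_impt hi).2 (lt_full hF he)
      · simp only [Fm.eval, Bool.or_eq_true, Bool.not_eq_true'] at he
        rcases he with h1 | h1
        · exact (tr_impn hi).2 (Or.inl (ihA hA hcA h1))
        · exact (tr_impn hi).2 (Or.inr (ihB hB hcB h1))

/-- The total length of a list. -/
def lsz (l : List (Fm V × Bool)) : ℕ := (l.map fun p => sz p.1).sum

theorem lsz_append (l l' : List (Fm V × Bool)) : lsz (l ++ l') = lsz l + lsz l' := by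
  simp [lsz]

theorem lsz_one (F : Fm V) (b : Bool) : lsz [(F, b)] = sz F := by
  simp [lsz]

theorem cj_lsz (F : Fm V) (b : Bool) : lsz (cj F b) = sz F := by
  induction F generalizing b with
  | var v => exact lsz_one _ _
  | neg A ih => exact ih _
  | imp A B ihA ihB =>
    cases b with
    | false =>
      simp only [cj, lsz_append, ihA, ihB]
      rfl
    | true => exact lsz_one _ _

theorem dj_lsz (F : Fm V) (b : Bool) : lsz (dj F b) = sz F := by
  induction F generalizing b with
  | var v => exact lsz_one _ _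
  | neg A ih => exact ih _
  | imp A B ihA ihB =>
    cases b with
    | true =>
      simp only [dj, lsz_append, ihA, ihB]
      rfl
    | false => exact lsz_one _ _

theorem tr_cj {thr : ℕ → ℕ} {D : Finset (Fin n)} {x : Fin n → Bool} {F : Fm V} {b : Bool} :
    Tr W c k0 thr D x F b false ↔ ∀ p ∈ cj F b, Tr W c k0 thr D x p.1 p.2 false := by
  induction F generalizing b with
  | var v => simp [cj]
  | neg A ih => exact tr_neg.trans ih
  | imp A B ihA ihB =>
    cases b with
    | false =>
      rw [tr_impf, ihA, ihB]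
      simp only [cj, List.forall_mem_append]
    | true => simp [cj]

theorem tr_dj {thr : ℕ → ℕ} {D : Finset (Fin n)} {x : Fin n → Bool} {F : Fm V} {b : Bool} :
    Tr W c k0 thr D x F b true ↔ ∃ p ∈ dj F b, Tr W c k0 thr D x p.1 p.2 false := by
  induction F generalizing b with
  | var v =>
    simp only [dj, List.mem_singleton, exists_eq_left]
    exact Iff.rfl
  | neg A ih => exact tr_neg.trans ih
  | imp A B ihA ihB =>
    cases b with
    | false =>
      simp only [dj, List.mem_singleton, exists_eq_left]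
      exact Iff.rfl
    | true =>
      rw [tr_impn (by simp), ihA, ihB]
      simp only [dj, List.mem_append, or_and_right, exists_or]

/-- the atoms of the conjuncts -/
theorem cj_sub {F : Fm V} {b : Bool} {p : Fm V × Bool} (h : p ∈ cj F b) :
    fv p.1 ⊆ fv F ∧ fs p.1 ⊆ fs F ∧ sz p.1 ≤ sz F := by
  have hl : ∀ A B : Fm V, fv A ⊆ fv (Fm.imp A B) := fun A B S hS => mem_fv_imp.2 (Or.inl hS)
  have hr : ∀ A B : Fm V, fv B ⊆ fv (Fm.imp A B) := fun A B S hS => mem_fv_imp.2 (Or.inr hS)
  induction F generalizing b with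
  | var v =>
    simp only [cj, List.mem_singleton] at h
    rw [h]
    exact ⟨subset_refl _, subset_refl _, le_rfl⟩
  | neg A ih => exact ih h
  | imp A B ihA ihB =>
    cases b with
    | false =>
      simp only [cj, List.mem_append] at h
      rcases h with h | h
      · obtain ⟨h1, h2, h3⟩ := ihA h
        exact ⟨h1.trans (hl A B), h2.trans (fs_l A B), h3.trans (Nat.le_add_right _ _)⟩
      · obtain ⟨h1, h2, h3⟩ := ihB h
        exact ⟨h1.trans (hr A B), h2.trans (fs_r A B), h3.trans (Nat.le_add_left _ _)⟩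
    | true =>
      simp only [cj, List.mem_singleton] at h
      rw [h]
      exact ⟨subset_refl _, subset_refl _, le_rfl⟩

/-- the atoms of the disjuncts -/
theorem dj_sub {F : Fm V} {b : Bool} {p : Fm V × Bool} (h : p ∈ dj F b) :
    fv p.1 ⊆ fv F ∧ fs p.1 ⊆ fs F ∧ sz p.1 ≤ sz F := by
  have h1 := cj_sub (cj_dj.1 h)
  exact h1

end Pool.H86.MG
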