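import Mathlib
import Pool.Agent.H86.MG.Defs

set_option autoImplicit false
set_option linter.unusedSectionVars false

/-!
# THEOREM LPm (bounded depth formulas over `MOD_q` gates, random 3-CNFs): gates, groups of forms, worlds

A gate `a : Ga q n` is a linear form `a.f : Fin n → ZMod q` together with a set `a.g` of accepted values: its value at `x` is
`a.g (∑ v, a.f v * x v)`. `sp f`: the variables of a form. `Sg H`: the finite set `H` of forms is a subgroup. `rs U H R`: the forms in `H`
whose variables in `U` are in `R`. `R` is closed (`Cd U lam H R`) if for all `R'` between `R` and `U`: `lam * log (|rs U H R'| / |rs U H R|)`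
is at most `|R' \ R|`. `Cl U lam H D`: the smallest closed set which contains `D ∩ U`. `Rg U lam H D`: `D`, its closure, and all
variables of the forms in `rs U H (Cl U lam H D)`. `Wm Con U lam G c`: the world with commitments `c` to the values of the gates in `G`.
-/

namespace Pool.H86.MG

open Finset Classical Pool.Agent.H3.Frg Pool.Agent.H3.Frg2 Pool.Agent.H3.Frg4 Pool.Agent.H55.QT Pool.H6.LD

section forms

variable {q n : ℕ}

/-- The value of the form `f` at the assignment `x`. -/
def lf (f : Fin n → ZMod q) (x : Fin n → Bool) : ZMod q := ∑ v, if x v = true then f v else 0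

/-- The variables of a form. -/
noncomputable def sp (f : Fin n → ZMod q) : Finset (Fin n) := univ.filter fun v => f v ≠ 0

/-- Gates: a linear form modulo `q` and the set of accepted values. -/
structure Ga (q n : ℕ) where
  /-- the linear form -/
  f : Fin n → ZMod q
  /-- the accepted values -/
  g : ZMod q → Bool

theorem lf_cg (f : Fin n → ZMod q) {x y : Fin n → Bool} (h : ∀ v ∈ sp f, x v = y v) : lf f x = lf f y := by
  unfold lf
  refine sum_congr rfl fun v _ => ?_
  by_cases hv : f v = 0
  · rw [hv, ite_self, ite_self]
  · rw [h v (by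
      unfold sp
      rw [mem_filter]
      exact ⟨mem_univ _, hv⟩)]

noncomputable instance atm (q n : ℕ) : Atm n (Ga q n) where
  vs a := sp a.f
  pv x a := a.g (lf a.f x)
  cg x y a h := by rw [lf_cg a.f h]

/-- Subgroups. -/
def Sg (H : Finset (Fin n → ZMod q)) : Prop := H.Nonempty ∧ ∀ a ∈ H, ∀ b ∈ H, a - b ∈ H

/-- The forms in `H` whose variables in `U` are in `R`. -/
noncomputable def rs (U : Finset (Fin n)) (H : Finset (Fin n → ZMod q)) (R : Finset (Fin n)) :
    Finset (Fin n → ZMod q) :=
  H.filter fun F => ∀ u ∈ U, u ∉ R → F u = 0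

/-- Closed sets. -/
def Cd (U : Finset (Fin n)) (lam : ℕ) (H : Finset (Fin n → ZMod q)) (R : Finset (Fin n)) : Prop :=
  ∀ R', R ⊆ R' → R' ⊆ U → (rs U H R').card ^ lam ≤ (rs U H R).card ^ lam * 2 ^ (R' \ R).card

/-- The closure: the intersection of all closed subsets of `U` which contain `D ∩ U`. -/
noncomputable def Cl (U : Finset (Fin n)) (lam : ℕ) (H : Finset (Fin n → ZMod q)) (D : Finset (Fin n)) :
    Finset (Fin n) :=
  U.filter fun u => ∀ R, R ⊆ U → D ∩ U ⊆ R → Cd U lam H R → u ∈ R

/-- The relevant variables. -/
noncomputable def Rg (U : Finset (Fin n)) (lam : ℕ) (H : Finset (Fin n → ZMod q)) (D : Finset (Fin n)) :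
    Finset (Fin n) :=
  D ∪ Cl U lam H D ∪ (rs U H (Cl U lam H D)).biUnion sp

/-- The forms in `H` which vanish on `I`. -/
noncomputable def zs (I : Finset (Fin n)) (H : Finset (Fin n → ZMod q)) : Finset (Fin n → ZMod q) :=
  H.filter fun F => ∀ u ∈ I, F u = 0

variable [NeZero q]

/-- The group generated by the forms of the gates in `G`. -/
noncomputable def spn (G : Finset (Ga q n)) : Finset (Fin n → ZMod q) :=
  univ.filter fun F => F ∈ AddSubgroup.closure ((fun a : Ga q n => a.f) '' (G : Set (Ga q n)))

/-- The world with commitments: the states which are restrictions of an assignment which gives all gates in `G` the committed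
values and whose restriction to the relevant variables is a state of `Con`. -/
def Wm (Con : Finset (Fin n) → (Fin n → Bool) → Prop) (U : Finset (Fin n)) (lam : ℕ) (G : Finset (Ga q n))
    (c : Ga q n → Bool) (D : Finset (Fin n)) (y : Fin n → Bool) : Prop :=
  ∃ z, (∀ v ∈ D, z v = y v) ∧ (∀ a ∈ G, pv z a = c a) ∧ Con (Rg U lam (spn G) D) z

/-- Good sets of gates: the generated group has at most `2 ^ s0` elements, and its elements with at most `K2` variables in `U`
have at most `δ` variables. -/
def GdM (U : Finset (Fin n)) (K2 δ s0 : ℕ) (G : Finset (Ga q n)) : Prop :=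
  (spn G).card ≤ 2 ^ s0 ∧ ∀ F ∈ spn G, (sp F ∩ U).card ≤ K2 → (sp F).card ≤ δ

end forms

end Pool.H86.MG
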