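import Mathlib
import Pool.Agent.H86.MG.Mdf

set_option autoImplicit false
set_option linter.unusedSectionVars false

/-!
# Module HLF (THEOREM LPm): a group of forms with few variables each has few variables; the generated group

PROOFS.
`hlf`: double counting. For `v` in `A.biUnion sp` there is `a ∈ A` with `a v ≠ 0`; the map `F ↦ F - a` sends the `F ∈ A` with `F v = 0` injectively to ones with `F v ≠ 0`, so at least half of the elements of `A` do not vanish at `v`:
`A.card ≤ 2 * (A.filter fun F => F v ≠ 0).card`. Sum over `v`: `|A| |supp| ≤ 2 ∑_{F ∈ A} |sp F| ≤ 2 |A| δ`; cancel `|A|`.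
`spn_*`: `spn G` is the set of elements of an `AddSubgroup`.
`spn_pv`: if all forms of the group take the same value at `x` and `y`, then so do the gates.
`spn_card`: induction on `G`: `spn (insert a G)` is contained in the image of `(F, c) ↦ F + c • a.f`, `c : ZMod q`.
`spn_union`: `spn (G ∪ G')` is contained in the set of sums of an element of `spn G` and an element of `spn G'` (`AddSubgroup.closure_union`, `AddSubgroup.mem_sup`).
-/

namespace Pool.H86.MG

open Finset Classical Pool.Agent.H3.Frg Pool.Agent.H3.Frg2 Pool.Agent.H3.Frg4 Pool.Agent.H55.QT Pool.H6.LD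

variable {q n : ℕ}

theorem hlf {A : Finset (Fin n → ZMod q)} (hA : Sg A) {δ : ℕ} (h : ∀ F ∈ A, (sp F).card ≤ δ) :
    (A.biUnion sp).card ≤ 2 * δ := by
  have hpos : 0 < A.card := hA.1.card_pos
  have h1 : ∀ v ∈ A.biUnion sp, A.card ≤ 2 * (A.filter fun F => F v ≠ 0).card := by
    intro v hv
    rw [mem_biUnion] at hv
    obtain ⟨a, haA, hav⟩ := hv
    have hav' : a v ≠ 0 := by
      unfold sp at hav
      exact (mem_filter.1 hav).2
    have h2 : (A.filter fun F => F v = 0).card ≤ (A.filter fun F => F v ≠ 0).card := by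
      refine card_le_card_of_injOn (fun F => F - a) ?_ ?_
      · intro F hF
        have hF' := mem_filter.1 (mem_coe.1 hF)
        refine mem_coe.2 (mem_filter.2 ⟨hA.2 F hF'.1 a haA, ?_⟩)
        show (F - a) v ≠ 0
        rw [Pi.sub_apply, hF'.2, zero_sub]
        exact neg_ne_zero.2 hav'
      · intro F _ G _ hFG
        exact sub_left_injective hFG
    have h3 : (A.filter fun F => F v = 0).card + (A.filter fun F => ¬ F v = 0).card = A.card :=
      card_filter_add_card_filter_not (s := A) (fun F => F v = 0)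
    have h4 : (A.filter fun F => ¬ F v = 0).card = (A.filter fun F => F v ≠ 0).card := rfl
    omega
  have h5 : (A.biUnion sp).card * A.card ≤ ∑ v ∈ A.biUnion sp, 2 * (A.filter fun F => F v ≠ 0).card := by
    rw [← smul_eq_mul]
    exact card_nsmul_le_sum _ _ _ h1
  have h6 : ∑ v ∈ A.biUnion sp, (A.filter fun F => F v ≠ 0).card ≤ A.card * δ := by
    have h7 : ∑ v ∈ A.biUnion sp, (A.filter fun F => F v ≠ 0).card
        = ∑ F ∈ A, ((A.biUnion sp).filter fun v => F v ≠ 0).card := by
      simp only [card_filter]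
      exact sum_comm
    rw [h7, ← smul_eq_mul]
    refine sum_le_card_nsmul _ _ _ fun F hF => le_trans (card_le_card ?_) (h F hF)
    intro v hv
    unfold sp
    exact mem_filter.2 ⟨mem_univ _, (mem_filter.1 hv).2⟩
  rw [← mul_sum] at h5
  have h8 : (A.biUnion sp).card * A.card ≤ 2 * δ * A.card := by
    calc (A.biUnion sp).card * A.card ≤ 2 * ∑ v ∈ A.biUnion sp, (A.filter fun F => F v ≠ 0).card := h5
      _ ≤ 2 * (A.card * δ) := Nat.mul_le_mul_left 2 h6
      _ = 2 * δ * A.card := by ring
  exact Nat.le_of_mul_le_mul_right h8 hpos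

theorem lf_add (f g : Fin n → ZMod q) (x : Fin n → Bool) : lf (f + g) x = lf f x + lf g x := by
  unfold lf
  rw [← sum_add_distrib]
  refine sum_congr rfl fun v _ => ?_
  by_cases h : x v = true
  · rw [if_pos h, if_pos h, if_pos h, Pi.add_apply]
  · rw [if_neg h, if_neg h, if_neg h, add_zero]

theorem lf_sub (f g : Fin n → ZMod q) (x : Fin n → Bool) : lf (f - g) x = lf f x - lf g x := by
  unfold lf
  rw [← sum_sub_distrib]
  refine sum_congr rfl fun v _ => ?_
  by_cases h : x v = true
  · rw [if_pos h, if_pos h, if_pos h, Pi.sub_apply]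
  · rw [if_neg h, if_neg h, if_neg h, sub_zero]

variable [NeZero q]

private theorem mem_spn {G : Finset (Ga q n)} {F : Fin n → ZMod q} :
    F ∈ spn G ↔ F ∈ AddSubgroup.closure ((fun a : Ga q n => a.f) '' (G : Set (Ga q n))) := by
  unfold spn
  rw [mem_filter]
  exact ⟨fun h => h.2, fun h => ⟨mem_univ _, h⟩⟩

theorem spn_sg (G : Finset (Ga q n)) : Sg (spn G) := by
  refine ⟨⟨0, mem_spn.2 (AddSubgroup.zero_mem _)⟩, fun a ha b hb => ?_⟩
  exact mem_spn.2 (AddSubgroup.sub_mem _ (mem_spn.1 ha) (mem_spn.1 hb))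

theorem spn_mem {G : Finset (Ga q n)} {a : Ga q n} (h : a ∈ G) : a.f ∈ spn G :=
  mem_spn.2 (AddSubgroup.subset_closure ⟨a, mem_coe.2 h, rfl⟩)

theorem spn_mono {G G' : Finset (Ga q n)} (h : G ⊆ G') : spn G ⊆ spn G' := fun _ hF =>
  mem_spn.2 (AddSubgroup.closure_mono (Set.image_mono (coe_subset.2 h)) (mem_spn.1 hF))

theorem spn_empty : spn (∅ : Finset (Ga q n)) = {0} := by
  ext F
  rw [mem_spn, coe_empty, Set.image_empty, AddSubgroup.closure_empty, AddSubgroup.mem_bot, mem_singleton]

theorem spn_pv {G : Finset (Ga q n)} {x y : Fin n → Bool} (h : ∀ F ∈ spn G, lf F x = lf F y) :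
    ∀ a ∈ G, pv x a = pv y a := by
  intro a ha
  show a.g (lf a.f x) = a.g (lf a.f y)
  rw [h a.f (spn_mem ha)]

theorem spn_card (G : Finset (Ga q n)) : (spn G).card ≤ q ^ G.card := by
  induction G using Finset.induction_on with
  | empty => rw [spn_empty, card_singleton, card_empty, pow_zero]
  | insert a G ha ih =>
    have h1 : spn (insert a G) ⊆ (spn G ×ˢ (univ : Finset (ZMod q))).image (fun p => p.1 + p.2 • a.f) := by
      intro F hF
      rw [mem_spn, coe_insert, Set.image_insert_eq, Set.insert_eq, AddSubgroup.closure_union,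
        AddSubgroup.mem_sup] at hF
      obtain ⟨y, hy, z, hz, hyz⟩ := hF
      rw [AddSubgroup.mem_closure_singleton] at hy
      obtain ⟨m, hm⟩ := hy
      refine mem_image.2 ⟨(z, (m : ZMod q)), mem_product.2 ⟨mem_spn.2 hz, mem_univ _⟩, ?_⟩
      show z + (m : ZMod q) • a.f = F
      rw [Int.cast_smul_eq_zsmul, hm, add_comm, hyz]
    calc (spn (insert a G)).card
        ≤ ((spn G ×ˢ (univ : Finset (ZMod q))).image (fun p => p.1 + p.2 • a.f)).card := card_le_card h1
      _ ≤ (spn G ×ˢ (univ : Finset (ZMod q))).card := card_image_le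
      _ = (spn G).card * q := by rw [card_product, card_univ, ZMod.card]
      _ ≤ q ^ G.card * q := Nat.mul_le_mul_right q ih
      _ = q ^ (insert a G).card := by rw [card_insert_of_notMem ha, pow_succ]

theorem spn_union {G G' : Finset (Ga q n)} {F : Fin n → ZMod q} (h : F ∈ spn (G ∪ G')) :
    ∃ A ∈ spn G, ∃ B ∈ spn G', F = A + B := by
  rw [mem_spn, coe_union, Set.image_union, AddSubgroup.closure_union, AddSubgroup.mem_sup] at h
  obtain ⟨A, hA, B, hB, hAB⟩ := h
  exact ⟨A, mem_spn.2 hA, B, mem_spn.2 hB, hAB.symm⟩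

end Pool.H86.MG
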