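import Mathlib
import Pool.Agent.H86.MG.Mdf

set_option autoImplicit false
set_option linter.unusedSectionVars false

/-!
# THEOREM LPg (parities and `MOD_q` gates together): definitions

`db H`: the doubles `F + F` of the forms `F ∈ H`. A set `R ⊆ U` is closed if `Cd U l1 H R` and `Cd U l2 (db H) R` (`Mdf.lean`). `Cl2`: the smallest closed set
which contains `D ∩ U`. `Rg2`, `Wm2`, `GdM2`: as `Rg`, `Wm`, `GdM` in `Mdf.lean` for this closure.
-/

namespace Pool.H86.MG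

open Finset Classical Pool.Agent.H3.Frg Pool.Agent.H3.Frg2 Pool.Agent.H3.Frg4 Pool.Agent.H55.QT Pool.H6.LD

variable {q n : ℕ}

/-- The doubles. -/
noncomputable def db (H : Finset (Fin n → ZMod q)) : Finset (Fin n → ZMod q) := H.image fun F => F + F

/-- Admissible forms: no values of order 2 on `I`. -/
def Adm (I : Finset (Fin n)) (F : Fin n → ZMod q) : Prop := ∀ u ∈ I, F u + F u = 0 → F u = 0

/-- The closure for two groups. -/
noncomputable def Cl2 (U : Finset (Fin n)) (l1 l2 : ℕ) (H : Finset (Fin n → ZMod q)) (D : Finset (Fin n)) :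
    Finset (Fin n) :=
  U.filter fun u => ∀ R, R ⊆ U → D ∩ U ⊆ R → Cd U l1 H R → Cd U l2 (db H) R → u ∈ R

/-- The relevant variables. -/
noncomputable def Rg2 (U : Finset (Fin n)) (l1 l2 : ℕ) (H : Finset (Fin n → ZMod q)) (D : Finset (Fin n)) :
    Finset (Fin n) :=
  D ∪ Cl2 U l1 l2 H D ∪ (rs U H (Cl2 U l1 l2 H D)).biUnion sp

variable [NeZero q]

/-- The world with commitments. -/
def Wm2 (Con : Finset (Fin n) → (Fin n → Bool) → Prop) (U : Finset (Fin n)) (l1 l2 : ℕ) (G : Finset (Ga q n))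
    (c : Ga q n → Bool) (D : Finset (Fin n)) (y : Fin n → Bool) : Prop :=
  ∃ z, (∀ v ∈ D, z v = y v) ∧ (∀ a ∈ G, pv z a = c a) ∧ Con (Rg2 U l1 l2 (spn G) D) z

/-- Good sets of gates. -/
def GdM2 (U : Finset (Fin n)) (K2 δ s1 s0 : ℕ) (G : Finset (Ga q n)) : Prop :=
  (spn G).card ≤ 2 ^ s1 ∧ (db (spn G)).card ≤ 2 ^ s0 ∧ ∀ F ∈ spn G, (sp F ∩ U).card ≤ K2 → (sp F).card ≤ δ

end Pool.H86.MG
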