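import Mathlib
import Pool.Agent.H86.MG.Mdf

set_option autoImplicit false
set_option linter.unusedSectionVars false

/-!
# Module PRD (THEOREM LPm): the closure

Definitions in `Mdf.lean`. All groups are finite sets `H` with `Sg H` (nonempty, closed under differences; so `0 ∈ H`, closed under sums and negation).
PROOFS.
`sg_rs`: clear.
`prd`: the map `A ×ˢ B → C`, `(a, b) ↦ a + b` has fibres with at most `|A ∩ B|` elements: if `a + b = a' + b'` then `a - a' = b' - b ∈ A ∩ B` and `(a, b)` is given by `a - a'`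
(`Finset.card_le_mul_card_image` or `card_eq_sum_card_fiberwise`).
`cd_inter`: let `A ∩ B ⊆ R' ⊆ U`. `prd` for `rs R'`, `rs A ⊆ rs (R' ∪ A)`, with `rs R' ∩ rs A = rs (R' ∩ A)`: `|rs R'| |rs A| ≤ |rs (R' ∪ A)| |rs (R' ∩ A)|`; with `Cd A`: `|rs R'|^lam ≤ |rs (R' ∩ A)|^lam 2^|R' \ A|`.
The same for `R'' = R' ∩ A` and `B`: `|rs R''|^lam ≤ |rs (R'' ∩ B)|^lam 2^|R'' \ B|`, and `R'' ∩ B = A ∩ B`. Multiply: `|R' \ A| + |(R' ∩ A) \ B| = |R' \ (A ∩ B)|`. (All cards are positive, `0 ∈ rs`.)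
`cl_cd`: `Cl` is the intersection of the finite nonempty family (`U` is closed: `R' = U`) of the closed sets which contain `D ∩ U`; use `cd_inter` by induction, e.g. take a closed set `R ⊆ U`, `D ∩ U ⊆ R` of minimal cardinality: for every other
one `R2` the set `R ∩ R2` is closed so `R ⊆ R2`; hence `Cl = R`.
`cl_mono`: if `H ⊆ H'` and `R` is closed for `H'` then `R` is closed for `H`: `prd` with `rs H R'`, `rs H' R ⊆ rs H' R'`, intersection `rs H R` (for `R ⊆ R'`): `|rs H R'| |rs H' R| ≤ |rs H' R'| |rs H R|`, so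
`|rs H R'|^lam |rs H' R|^lam ≤ |rs H' R'|^lam |rs H R|^lam ≤ |rs H' R|^lam 2^|R' \ R| |rs H R|^lam`; cancel.
`cl_card`: among the sets `R` with `D ∩ U ⊆ R ⊆ U` choose one with `|rs R|^lam / 2^|R \ D|` maximal (real or rational). It is closed (for `R ⊆ R' ⊆ U`: `(R' \ D).card = (R \ D).card + (R' \ R).card` since `R' ∩ D ⊆ U ∩ D ⊆ R`), and comparison with
`R = D ∩ U` (value at least 1) gives `2^|R \ D| ≤ |rs R|^lam ≤ 2^(s0 lam)`. And `Cl ⊆ R`.
-/

namespace Pool.H86.MG

open Finset Classical Pool.Agent.H3.Frg Pool.Agent.H3.Frg2 Pool.Agent.H3.Frg4 Pool.Agent.H55.QT Pool.H6.LD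

variable {q n : ℕ}

theorem sg_zero {H : Finset (Fin n → ZMod q)} (h : Sg H) : (0 : Fin n → ZMod q) ∈ H := by
  obtain ⟨⟨a, ha⟩, h2⟩ := h
  have := h2 a ha a ha
  rwa [sub_self] at this

theorem sg_neg {H : Finset (Fin n → ZMod q)} (h : Sg H) {a : Fin n → ZMod q} (ha : a ∈ H) : -a ∈ H := by
  have := h.2 0 (sg_zero h) a ha
  rwa [zero_sub] at this

theorem sg_add {H : Finset (Fin n → ZMod q)} (h : Sg H) {a b : Fin n → ZMod q} (ha : a ∈ H) (hb : b ∈ H) : a + b ∈ H := by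
  have := h.2 a ha (-b) (sg_neg h hb)
  rwa [sub_neg_eq_add] at this

theorem sg_rs (U R : Finset (Fin n)) {H : Finset (Fin n → ZMod q)} (h : Sg H) : Sg (rs U H R) := by
  refine ⟨⟨0, ?_⟩, fun a ha b hb => ?_⟩
  · unfold rs
    rw [mem_filter]
    exact ⟨sg_zero h, fun u _ _ => rfl⟩
  · unfold rs at ha hb ⊢
    rw [mem_filter] at ha hb ⊢
    refine ⟨h.2 a ha.1 b hb.1, fun u hu hR => ?_⟩
    rw [Pi.sub_apply, ha.2 u hu hR, hb.2 u hu hR, sub_zero]

theorem rs_mono {U R R' : Finset (Fin n)} {H H' : Finset (Fin n → ZMod q)} (hH : H ⊆ H') (hR : R ⊆ R') :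
    rs U H R ⊆ rs U H' R' := by
  intro a ha
  unfold rs at ha ⊢
  rw [mem_filter] at ha ⊢
  exact ⟨hH ha.1, fun u hu hR' => ha.2 u hu fun hc => hR' (hR hc)⟩

private theorem rs_pos {H : Finset (Fin n → ZMod q)} (h : Sg H) (U R : Finset (Fin n)) : 0 < (rs U H R).card :=
  card_pos.2 (sg_rs U R h).1

theorem prd {A B C : Finset (Fin n → ZMod q)} (hA : Sg A) (hB : Sg B) (hC : Sg C) (hAC : A ⊆ C) (hBC : B ⊆ C) :
    A.card * B.card ≤ C.card * (A ∩ B).card := by
  have h1 : (A ×ˢ B).card ≤ (A ∩ B).card * ((A ×ˢ B).image fun x => x.1 + x.2).card := by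
    refine card_le_mul_card_image (f := fun x : (Fin n → ZMod q) × (Fin n → ZMod q) => x.1 + x.2) (A ×ˢ B) _ ?_
    intro c hc
    rw [mem_image] at hc
    obtain ⟨⟨a0, b0⟩, h0, h0c⟩ := hc
    rw [mem_product] at h0
    refine card_le_card_of_injOn (fun x => x.1 - a0) ?_ ?_
    · intro x hx
      rw [mem_coe, mem_filter, mem_product] at hx
      rw [mem_coe, mem_inter]
      refine ⟨hA.2 _ hx.1.1 _ h0.1, ?_⟩
      have e : x.1 - a0 = b0 - x.2 := by
        have e1 : x.1 + x.2 = a0 + b0 := hx.2.trans h0c.symm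
        rw [sub_eq_sub_iff_add_eq_add, e1, add_comm]
      show x.1 - a0 ∈ B
      rw [e]
      exact hB.2 _ h0.2 _ hx.1.2
    · intro x hx y hy hxy
      rw [mem_coe, mem_filter] at hx hy
      have e1 : x.1 = y.1 := sub_left_injective hxy
      have e2 : x.1 + x.2 = y.1 + y.2 := hx.2.trans hy.2.symm
      refine Prod.ext e1 ?_
      rw [e1] at e2
      exact add_left_cancel e2
  rw [card_product] at h1
  have h2 : ((A ×ˢ B).image fun x => x.1 + x.2).card ≤ C.card := by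
    refine card_le_card fun c hc => ?_
    rw [mem_image] at hc
    obtain ⟨x, hx, rfl⟩ := hc
    rw [mem_product] at hx
    exact sg_add hC (hAC hx.1) (hBC hx.2)
  calc A.card * B.card ≤ (A ∩ B).card * ((A ×ˢ B).image fun x => x.1 + x.2).card := h1
    _ ≤ (A ∩ B).card * C.card := Nat.mul_le_mul_left _ h2
    _ = C.card * (A ∩ B).card := mul_comm _ _

private theorem pow_cancel {a b c d e lam : ℕ} (h1 : a * b ≤ c * d) (h2 : c ^ lam ≤ b ^ lam * e) (hb : 0 < b) :
    a ^ lam ≤ d ^ lam * e := by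
  have h3 : a ^ lam * b ^ lam ≤ d ^ lam * e * b ^ lam := by
    calc a ^ lam * b ^ lam = (a * b) ^ lam := (mul_pow _ _ _).symm
      _ ≤ (c * d) ^ lam := Nat.pow_le_pow_left h1 _
      _ = c ^ lam * d ^ lam := mul_pow _ _ _
      _ ≤ b ^ lam * e * d ^ lam := Nat.mul_le_mul_right _ h2
      _ = d ^ lam * e * b ^ lam := by ring
  exact Nat.le_of_mul_le_mul_right h3 (pow_pos hb _)

private theorem rs_inter (U R S : Finset (Fin n)) (H : Finset (Fin n → ZMod q)) :
    rs U H R ∩ rs U H S = rs U H (R ∩ S) := by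
  ext F
  unfold rs
  rw [mem_inter, mem_filter, mem_filter, mem_filter]
  constructor
  · rintro ⟨⟨h1, h2⟩, -, h3⟩
    refine ⟨h1, fun u hu hn => ?_⟩
    by_cases hR : u ∈ R
    · exact h3 u hu fun hS => hn (mem_inter.2 ⟨hR, hS⟩)
    · exact h2 u hu hR
  · rintro ⟨h1, h2⟩
    exact ⟨⟨h1, fun u hu hR => h2 u hu fun hc => hR (mem_inter.1 hc).1⟩, h1,
      fun u hu hS => h2 u hu fun hc => hS (mem_inter.1 hc).2⟩

private theorem cd_aux {U A R : Finset (Fin n)} {lam : ℕ} {H : Finset (Fin n → ZMod q)} (h : Sg H) (hAU : A ⊆ U)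
    (hA : Cd U lam H A) (hR : R ⊆ U) :
    (rs U H R).card ^ lam ≤ (rs U H (R ∩ A)).card ^ lam * 2 ^ (R \ A).card := by
  have h1 := prd (sg_rs U R h) (sg_rs U A h) (sg_rs U (R ∪ A) h) (rs_mono (Subset.refl H) subset_union_left)
    (rs_mono (Subset.refl H) subset_union_right)
  rw [rs_inter] at h1
  have h2 := hA (R ∪ A) subset_union_right (union_subset hR hAU)
  rw [union_sdiff_right] at h2
  exact pow_cancel h1 h2 (rs_pos h U A)

theorem cd_inter {U A B : Finset (Fin n)} {lam : ℕ} {H : Finset (Fin n → ZMod q)} (h : Sg H) (hAU : A ⊆ U) (hBU : B ⊆ U)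
    (hA : Cd U lam H A) (hB : Cd U lam H B) : Cd U lam H (A ∩ B) := by
  intro R' hR' hR'U
  have h1 := cd_aux h hAU hA hR'U
  have h2 := cd_aux h hBU hB (inter_subset_left.trans hR'U : R' ∩ A ⊆ U)
  have e1 : R' ∩ A ∩ B = A ∩ B := by
    rw [inter_assoc]
    exact inter_eq_right.2 hR'
  rw [e1] at h2
  have e2 : (R' \ (A ∩ B)).card = ((R' ∩ A) \ B).card + (R' \ A).card := by
    rw [← card_union_of_disjoint]
    · congr 1
      ext u
      rw [mem_sdiff, mem_inter, mem_union, mem_sdiff, mem_inter, mem_sdiff]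
      tauto
    · rw [disjoint_left]
      intro u hu hu'
      rw [mem_sdiff, mem_inter] at hu
      rw [mem_sdiff] at hu'
      exact hu'.2 hu.1.2
  rw [e2, pow_add]
  calc (rs U H R').card ^ lam ≤ (rs U H (R' ∩ A)).card ^ lam * 2 ^ (R' \ A).card := h1
    _ ≤ (rs U H (A ∩ B)).card ^ lam * 2 ^ ((R' ∩ A) \ B).card * 2 ^ (R' \ A).card := Nat.mul_le_mul_right _ h2
    _ = (rs U H (A ∩ B)).card ^ lam * (2 ^ ((R' ∩ A) \ B).card * 2 ^ (R' \ A).card) := mul_assoc _ _ _

theorem cl_cd (U : Finset (Fin n)) (lam : ℕ) {H : Finset (Fin n → ZMod q)} (h : Sg H) (D : Finset (Fin n)) :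
    Cd U lam H (Cl U lam H D) := by
  obtain ⟨R, hR, hmin⟩ := exists_min_image (U.powerset.filter fun R => D ∩ U ⊆ R ∧ Cd U lam H R) card
    ⟨U, by
      rw [mem_filter]
      refine ⟨mem_powerset.2 (Subset.refl U), inter_subset_right, fun R' h1 h2 => ?_⟩
      rw [Subset.antisymm h2 h1, Finset.sdiff_self, card_empty, pow_zero, mul_one]⟩
  rw [mem_filter, mem_powerset] at hR
  have e : Cl U lam H D = R := by
    ext u
    unfold Cl
    rw [mem_filter]
    constructor
    · rintro ⟨_, h2⟩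
      exact h2 R hR.1 hR.2.1 hR.2.2
    · intro hu
      refine ⟨hR.1 hu, fun R2 h2 h3 h4 => ?_⟩
      have h5 := hmin (R ∩ R2) (by
        rw [mem_filter, mem_powerset]
        exact ⟨inter_subset_left.trans hR.1, subset_inter hR.2.1 h3, cd_inter h hR.1 h2 hR.2.2 h4⟩)
      have h6 : R ∩ R2 = R := eq_of_subset_of_card_le inter_subset_left h5
      rw [← h6] at hu
      exact (mem_inter.1 hu).2
  rw [e]
  exact hR.2.2

theorem cl_sub (U : Finset (Fin n)) (lam : ℕ) (H : Finset (Fin n → ZMod q)) (D : Finset (Fin n)) :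
    Cl U lam H D ⊆ U :=
  filter_subset _ _

theorem cl_sup (U : Finset (Fin n)) (lam : ℕ) (H : Finset (Fin n → ZMod q)) (D : Finset (Fin n)) :
    D ∩ U ⊆ Cl U lam H D := by
  intro u hu
  unfold Cl
  rw [mem_filter]
  exact ⟨(mem_inter.1 hu).2, fun R _ h2 _ => h2 hu⟩

theorem cl_le {U : Finset (Fin n)} {lam : ℕ} {H : Finset (Fin n → ZMod q)} {D R : Finset (Fin n)} (hR : R ⊆ U)
    (hD : D ∩ U ⊆ R) (h : Cd U lam H R) : Cl U lam H D ⊆ R := by
  intro u hu
  unfold Cl at hu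
  rw [mem_filter] at hu
  exact hu.2 R hR hD h

theorem cl_mono {U : Finset (Fin n)} {lam : ℕ} {H H' : Finset (Fin n → ZMod q)} (h : Sg H) (h' : Sg H') (hH : H ⊆ H')
    {D D' : Finset (Fin n)} (hD : D ⊆ D') : Cl U lam H D ⊆ Cl U lam H' D' := by
  refine cl_le (cl_sub U lam H' D') ((inter_subset_inter_right hD).trans (cl_sup U lam H' D')) ?_
  have h1 := cl_cd U lam h' D'
  intro R' hR hR'U
  have h2 := prd (sg_rs U R' h) (sg_rs U (Cl U lam H' D') h') (sg_rs U R' h') (rs_mono hH (Subset.refl R'))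
    (rs_mono (Subset.refl H') hR)
  have e : rs U H R' ∩ rs U H' (Cl U lam H' D') = rs U H (Cl U lam H' D') := by
    ext F
    unfold rs
    rw [mem_inter, mem_filter, mem_filter, mem_filter]
    constructor
    · rintro ⟨⟨h3, _⟩, _, h4⟩
      exact ⟨h3, h4⟩
    · rintro ⟨h3, h4⟩
      exact ⟨⟨h3, fun u hu hn => h4 u hu fun hc => hn (hR hc)⟩, hH h3, h4⟩
  rw [e] at h2
  exact pow_cancel h2 (h1 R' hR hR'U) (rs_pos h' U _)

theorem cl_card {U : Finset (Fin n)} {lam s0 : ℕ} {H : Finset (Fin n → ZMod q)} (h : Sg H) (hc : H.card ≤ 2 ^ s0)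
    (D : Finset (Fin n)) : (Cl U lam H D \ D).card ≤ lam * s0 := by
  obtain ⟨R, hR, hmax⟩ := exists_max_image (U.powerset.filter fun R => D ∩ U ⊆ R)
    (fun R => (rs U H R).card ^ lam * 2 ^ (U.card - (R \ D).card))
    ⟨D ∩ U, by
      rw [mem_filter]
      exact ⟨mem_powerset.2 inter_subset_right, Subset.refl _⟩⟩
  rw [mem_filter, mem_powerset] at hR
  have hle : ∀ S : Finset (Fin n), S ⊆ U → (S \ D).card ≤ U.card := fun S hS =>
    card_le_card (sdiff_subset.trans hS)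
  have hcd : Cd U lam H R := by
    intro R' h1 h2
    have h3 := hmax R' (by
      rw [mem_filter, mem_powerset]
      exact ⟨h2, hR.2.trans h1⟩)
    have e1 : (R' \ D).card = (R \ D).card + (R' \ R).card := by
      rw [← card_union_of_disjoint]
      · congr 1
        ext u
        rw [mem_union, mem_sdiff, mem_sdiff, mem_sdiff]
        constructor
        · rintro ⟨h4, h5⟩
          by_cases h6 : u ∈ R
          · exact Or.inl ⟨h6, h5⟩
          · exact Or.inr ⟨h4, h6⟩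
        · rintro (⟨h4, h5⟩ | ⟨h4, h5⟩)
          · exact ⟨h1 h4, h5⟩
          · exact ⟨h4, fun h6 => h5 (hR.2 (mem_inter.2 ⟨h6, h2 h4⟩))⟩
      · rw [disjoint_left]
        intro u hu hu'
        rw [mem_sdiff] at hu hu'
        exact hu'.2 hu.1
    have h7 := hle R' h2
    have e2 : U.card - (R \ D).card = (U.card - (R' \ D).card) + (R' \ R).card := by omega
    rw [e2, pow_add] at h3
    have h8 : (rs U H R').card ^ lam * 2 ^ (U.card - (R' \ D).card) ≤
        (rs U H R).card ^ lam * 2 ^ (R' \ R).card * 2 ^ (U.card - (R' \ D).card) := by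
      calc (rs U H R').card ^ lam * 2 ^ (U.card - (R' \ D).card) ≤
          (rs U H R).card ^ lam * (2 ^ (U.card - (R' \ D).card) * 2 ^ (R' \ R).card) := h3
        _ = (rs U H R).card ^ lam * 2 ^ (R' \ R).card * 2 ^ (U.card - (R' \ D).card) := by ring
    exact Nat.le_of_mul_le_mul_right h8 (pow_pos (by norm_num) _)
  have h1 := hmax (D ∩ U) (by
    rw [mem_filter]
    exact ⟨mem_powerset.2 inter_subset_right, Subset.refl _⟩)
  have e0 : ((D ∩ U) \ D).card = 0 := by
    rw [card_eq_zero, sdiff_eq_empty_iff_subset]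
    exact inter_subset_left
  rw [e0, Nat.sub_zero] at h1
  have h2 : 2 ^ U.card ≤ (rs U H R).card ^ lam * 2 ^ (U.card - (R \ D).card) := by
    refine le_trans ?_ h1
    exact Nat.le_mul_of_pos_left _ (pow_pos (rs_pos h U _) _)
  have h3 : 2 ^ (R \ D).card * 2 ^ (U.card - (R \ D).card) ≤
      (rs U H R).card ^ lam * 2 ^ (U.card - (R \ D).card) := by
    rw [← pow_add, Nat.add_sub_cancel' (hle R hR.1)]
    exact h2
  have h4 : 2 ^ (R \ D).card ≤ (rs U H R).card ^ lam := Nat.le_of_mul_le_mul_right h3 (pow_pos (by norm_num) _)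
  have h5 : (rs U H R).card ^ lam ≤ 2 ^ (s0 * lam) := by
    rw [pow_mul]
    exact Nat.pow_le_pow_left ((card_le_card (filter_subset _ _)).trans hc) _
  have h6 : (R \ D).card ≤ s0 * lam := (Nat.pow_le_pow_iff_right (by norm_num)).1 (h4.trans h5)
  have h7 : (Cl U lam H D \ D).card ≤ (R \ D).card :=
    card_le_card (sdiff_subset_sdiff (cl_le hR.1 hR.2 hcd) (Subset.refl D))
  rw [mul_comm]
  exact h7.trans h6

end Pool.H86.MG
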