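import Mathlib
import Pool.Agent.H86.MG.Mdg
import Pool.Agent.H86.MG.Prd

set_option autoImplicit false
set_option linter.unusedSectionVars false

/-!
# Module CNT (THEOREM LPg): admissible forms are counted by their doubles

PROOF. Write `I = U \ R`, `w F = (sp F ∩ I).card`, `Z = zs I H`, `Z2 = zs I (db H)`; `zs (U \ R) H = rs U H R`. `w` of an admissible `F` is `w (F + F)` (for `u ∈ I`: `F u = 0` iff `F u + F u = 0`). If `F ∈ H \ Z` is admissible then `F + F ∉ Z2`.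
Consider the pairs `(F, E)`, `F ∈ (H \ Z).filter (Adm I)`, `E ∈ Z2`, and the map `(F, E) ↦ G = F + F + E ∈ db H` (`Sg (db H)`), `G ∉ Z2` (`G = F + F` on `I`), `w G = w (F + F) = w F`. The fibre of `G`: `E` is determined by `F`; all admissible `F` with
`F + F = G` on `I`: if `F, F'` are two of them then `F = F' = 0` on `I \ sp G` (there `F u + F u = G u = 0`, admissible), so `F - F' ∈ rs U H (R ∪ (sp G ∩ I))`; hence the fibre has at most `|rs U H (R ∪ (sp G ∩ I))|` elements (map `F ↦ F - F0` for a fixed element `F0` of the fibre), and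
`|rs U H (R ∪ S)|^l1 ≤ |rs U H R|^l1 * 2^|S|` by `Cd` (`S = sp G ∩ I`, `(R ∪ S) \ R = S`), so `|rs U H (R ∪ S)| ≤ |Z| exp (w G log 2 / l1)` (compare the `l1`-th powers: `pow_le_pow_iff_left₀`, `exp (w log 2 / l1) ^ l1 = 2 ^ w`). Sum over `G`:
`|Z2| ∑_F exp (-a w F) = ∑_(F, E) exp (-a w F) = ∑_G (number of pairs over G) exp (-a w G) ≤ |Z| ∑_G exp (-(a - log 2 / l1) w G)`.
-/

namespace Pool.H86.MG

open Finset Classical Pool.Agent.H3.Frg Pool.Agent.H3.Frg2 Pool.Agent.H3.Frg4 Pool.Agent.H55.QT Pool.H6.LD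

private theorem sg_db {q n : ℕ} {H : Finset (Fin n → ZMod q)} (h : Sg H) : Sg (db H) := by
  refine ⟨⟨0, ?_⟩, ?_⟩
  · unfold db
    rw [mem_image]
    exact ⟨0, sg_zero h, add_zero 0⟩
  · intro a ha b hb
    unfold db at ha hb ⊢
    rw [mem_image] at ha hb ⊢
    obtain ⟨x, hx, rfl⟩ := ha
    obtain ⟨y, hy, rfl⟩ := hb
    exact ⟨x - y, h.2 x hx y hy, by abel⟩

private theorem zs_eq_rs {q n : ℕ} (U R : Finset (Fin n)) (H : Finset (Fin n → ZMod q)) :
    zs (U \ R) H = rs U H R := by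
  ext F
  unfold zs rs
  rw [mem_filter, mem_filter]
  refine and_congr_right fun _ => ⟨fun h u hu hR => h u (mem_sdiff.2 ⟨hu, hR⟩), fun h u hu => ?_⟩
  rw [mem_sdiff] at hu
  exact h u hu.1 hu.2

private theorem mem_sp {q n : ℕ} {F : Fin n → ZMod q} {u : Fin n} : u ∈ sp F ↔ F u ≠ 0 := by
  unfold sp
  rw [mem_filter]
  exact ⟨fun h => h.2, fun h => ⟨mem_univ _, h⟩⟩

/-- the support in `I` of `F + F + E` -/
private theorem sp_dbl {q n : ℕ} {I : Finset (Fin n)} {F E : Fin n → ZMod q} (hF : Adm I F) (hE : ∀ u ∈ I, E u = 0) :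
    sp (F + F + E) ∩ I = sp F ∩ I := by
  ext u
  rw [mem_inter, mem_inter, mem_sp, mem_sp]
  refine ⟨fun h => ⟨fun h0 => h.1 ?_, h.2⟩, fun h => ⟨fun h0 => h.1 (hF u h.2 ?_), h.2⟩⟩
  · rw [Pi.add_apply, Pi.add_apply, h0, hE u h.2, add_zero, add_zero]
  · rwa [Pi.add_apply, Pi.add_apply, hE u h.2, add_zero] at h0

private theorem rs_bd {q n l1 : ℕ} (hl : 0 < l1) {U R : Finset (Fin n)} {H : Finset (Fin n → ZMod q)}
    (hR : R ⊆ U) (hcd : Cd U l1 H R) {S : Finset (Fin n)} (hS : S ⊆ U \ R) :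
    ((rs U H (R ∪ S)).card : ℝ) ≤ ((rs U H R).card : ℝ) * Real.exp (Real.log 2 / l1 * (S.card : ℝ)) := by
  have h1 := hcd (R ∪ S) subset_union_left (union_subset hR (hS.trans sdiff_subset))
  have e1 : (R ∪ S) \ R = S := by
    rw [union_sdiff_left]
    exact sdiff_eq_self_of_disjoint (disjoint_of_subset_left hS sdiff_disjoint)
  rw [e1] at h1
  have hl0 : (l1 : ℝ) ≠ 0 := Nat.cast_ne_zero.2 hl.ne'
  have e2 : Real.exp (Real.log 2 / l1 * (S.card : ℝ)) ^ l1 = 2 ^ S.card := by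
    rw [← Real.exp_nat_mul, ← Real.exp_log (by norm_num : (0 : ℝ) < 2), ← Real.exp_nat_mul, Real.exp_log (by norm_num : (0 : ℝ) < 2)]
    congr 1
    field_simp
  refine le_of_pow_le_pow_left₀ hl.ne' (mul_nonneg (Nat.cast_nonneg _) (Real.exp_pos _).le) ?_
  rw [mul_pow, e2]
  exact_mod_cast h1

theorem cnt {q n l1 : ℕ} (hl : 0 < l1) (a : ℝ) {U R : Finset (Fin n)} {H : Finset (Fin n → ZMod q)} (hH : Sg H)
    (hR : R ⊆ U) (hcd : Cd U l1 H R) :
    ((zs (U \ R) (db H)).card : ℝ) *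
        ∑ F ∈ (H \ zs (U \ R) H).filter (Adm (U \ R)), Real.exp (-a * ((sp F ∩ (U \ R)).card : ℝ)) ≤
      ((zs (U \ R) H).card : ℝ) *
        ∑ G ∈ db H \ zs (U \ R) (db H), Real.exp (-(a - Real.log 2 / l1) * ((sp G ∩ (U \ R)).card : ℝ)) := by
  have hD : Sg (db H) := sg_db hH
  have hZ2 : ∀ E ∈ zs (U \ R) (db H), E ∈ db H ∧ ∀ u ∈ U \ R, E u = 0 := by
    intro E hE
    unfold zs at hE
    rw [mem_filter] at hE
    exact hE
  have hA : ∀ F ∈ (H \ zs (U \ R) H).filter (Adm (U \ R)),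
      F ∈ H ∧ (¬ ∀ u ∈ U \ R, F u = 0) ∧ Adm (U \ R) F := by
    intro F hF
    rw [mem_filter, mem_sdiff] at hF
    refine ⟨hF.1.1, fun h => hF.1.2 ?_, hF.2⟩
    unfold zs
    rw [mem_filter]
    exact ⟨hF.1.1, h⟩
  set A := (H \ zs (U \ R) H).filter (Adm (U \ R)) with hAdef
  set Z2 := zs (U \ R) (db H) with hZdef
  -- the map
  have hmaps : ∀ p ∈ A ×ˢ Z2, p.1 + p.1 + p.2 ∈ db H \ Z2 := by
    intro p hp
    rw [mem_product] at hp
    obtain ⟨h1, h2, h3⟩ := hA _ hp.1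
    obtain ⟨h4, h5⟩ := hZ2 _ hp.2
    rw [mem_sdiff]
    constructor
    · refine sg_add hD ?_ h4
      unfold db
      exact mem_image_of_mem _ h1
    · intro hc
      refine h2 fun u hu => h3 u hu ?_
      have h6 := (hZ2 _ hc).2 u hu
      rwa [Pi.add_apply, Pi.add_apply, h5 u hu, add_zero] at h6
  have hL : (Z2.card : ℝ) * ∑ F ∈ A, Real.exp (-a * ((sp F ∩ (U \ R)).card : ℝ)) =
      ∑ p ∈ A ×ˢ Z2, Real.exp (-a * ((sp p.1 ∩ (U \ R)).card : ℝ)) := by
    rw [sum_product, mul_sum]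
    refine sum_congr rfl fun F _ => ?_
    show _ = ∑ _y ∈ Z2, Real.exp (-a * ((sp F ∩ (U \ R)).card : ℝ))
    rw [sum_const, nsmul_eq_mul]
  rw [hL, ← sum_fiberwise_of_maps_to hmaps, mul_sum]
  refine sum_le_sum fun G hG => ?_
  -- the fibre of G
  have h1 : ∑ p ∈ (A ×ˢ Z2).filter (fun p => p.1 + p.1 + p.2 = G), Real.exp (-a * ((sp p.1 ∩ (U \ R)).card : ℝ)) =
      (((A ×ˢ Z2).filter (fun p => p.1 + p.1 + p.2 = G)).card : ℝ) * Real.exp (-a * ((sp G ∩ (U \ R)).card : ℝ)) := by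
    rw [← nsmul_eq_mul, ← sum_const]
    refine sum_congr rfl fun p hp => ?_
    rw [mem_filter, mem_product] at hp
    rw [← hp.2, sp_dbl (hA _ hp.1.1).2.2 (hZ2 _ hp.1.2).2]
  have h2 : ((A ×ˢ Z2).filter (fun p => p.1 + p.1 + p.2 = G)).card ≤ (rs U H (R ∪ (sp G ∩ (U \ R)))).card := by
    rcases ((A ×ˢ Z2).filter (fun p => p.1 + p.1 + p.2 = G)).eq_empty_or_nonempty with h0 | ⟨p0, hp0⟩
    · rw [h0, card_empty]
      exact Nat.zero_le _
    · have key : ∀ p ∈ (A ×ˢ Z2).filter (fun p => p.1 + p.1 + p.2 = G), ∀ u ∈ U,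
          u ∉ R ∪ (sp G ∩ (U \ R)) → p.1 u = 0 := by
        intro p hp u hu hn
        rw [mem_filter, mem_product] at hp
        rw [mem_union, not_or] at hn
        have hI : u ∈ U \ R := mem_sdiff.2 ⟨hu, hn.1⟩
        have hG0 : G u = 0 := by
          by_contra hc
          exact hn.2 (mem_inter.2 ⟨mem_sp.2 hc, hI⟩)
        refine (hA _ hp.1.1).2.2 u hI ?_
        rw [← hp.2, Pi.add_apply, Pi.add_apply, (hZ2 _ hp.1.2).2 u hI, add_zero] at hG0
        exact hG0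
      refine card_le_card_of_injOn (fun p => p.1 - p0.1) ?_ ?_
      · intro p hp
        rw [mem_coe] at hp ⊢
        have hpH : p.1 ∈ H := (hA _ (mem_product.1 (mem_filter.1 hp).1).1).1
        have hp0H : p0.1 ∈ H := (hA _ (mem_product.1 (mem_filter.1 hp0).1).1).1
        unfold rs
        rw [mem_filter]
        refine ⟨hH.2 _ hpH _ hp0H, fun u hu hn => ?_⟩
        show p.1 u - p0.1 u = 0
        rw [key p hp u hu hn, key p0 hp0 u hu hn, sub_zero]
      · intro p hp p' hp' hpp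
        rw [mem_coe, mem_filter] at hp hp'
        have e1 : p.1 = p'.1 := sub_left_injective hpp
        have e2 : p.1 + p.1 + p.2 = p'.1 + p'.1 + p'.2 := hp.2.trans hp'.2.symm
        rw [e1] at e2
        exact Prod.ext e1 (add_left_cancel e2)
  have h3 := rs_bd hl hR hcd (S := sp G ∩ (U \ R)) inter_subset_right
  rw [h1, zs_eq_rs]
  calc (((A ×ˢ Z2).filter (fun p => p.1 + p.1 + p.2 = G)).card : ℝ) * Real.exp (-a * ((sp G ∩ (U \ R)).card : ℝ))
      ≤ (((rs U H R).card : ℝ) * Real.exp (Real.log 2 / l1 * ((sp G ∩ (U \ R)).card : ℝ))) *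
          Real.exp (-a * ((sp G ∩ (U \ R)).card : ℝ)) :=
        mul_le_mul_of_nonneg_right ((Nat.cast_le.2 h2).trans h3) (Real.exp_pos _).le
    _ = ((rs U H R).card : ℝ) * Real.exp (-(a - Real.log 2 / l1) * ((sp G ∩ (U \ R)).card : ℝ)) := by
        rw [mul_assoc, ← Real.exp_add]
        congr 2
        ring

end Pool.H86.MG
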