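import Mathlib
import Pool.Agent.H86.MG.Prd
import Pool.Agent.H86.MG.Hlf

set_option autoImplicit false
set_option linter.unusedSectionVars false

/-!
# Module FOU (THEOREM LPm): solutions by Fourier analysis

PROOF. Let `χ = ZMod.stdAddChar : AddChar (ZMod q) ℂ` (primitive / injective: `ZMod.injective_stdAddChar`; `‖χ a‖ = 1`; `χ 0 = 1`), and `ρ = max_{a ≠ 0} ‖1 + χ a‖ / 2 < 1` (finite maximum; `‖1 + z‖ < 2` for `‖z‖ = 1`, `z ≠ 1`;
for `q = 1` there is no `a ≠ 0`). Choose `a > 0` with `ρ ≤ exp (-a)`. For `y : Fin n → Bool` let `z_y v = if v ∈ I then y v else z1 v`. For every `y`: `E y = ∑_{F ∈ H} χ (lf F z_y - lf F z0)`; if `lf F z_y ≠ lf F z0` for some `F ∈ H` then `E y = 0` (`F ↦ χ (..)` is a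
nontrivial character of the group `H`: multiply by its value at `F0` and translate, `(χ F0) E = E`, so `E = 0`). Suppose that there is no solution: then `∑_y E y = 0`. On the other hand
`∑_y χ (lf F z_y) = ∏_v (∑_{b : Bool} χ (if (if v ∈ I then b else z1 v) then F v else 0))` (`Finset.prod_univ_sum` / `Fintype.piFinset`, `AddChar.map_sum_eq_prod`), the factor for `v ∉ I` is `2 χ (..)`, for `v ∈ I` it is `1 + χ (F v)`, of absolute value
`≤ 2` and `≤ 2 exp (-a)` if `F v ≠ 0`: so `‖∑_y χ (lf F z_y - lf F z0)‖ ≤ 2^n exp (-a |sp F ∩ I|)`. For `F ∈ zs I H` (zero on `I`): `lf F z_y = lf F z1 = lf F z0`, the sum is `2^n`. Hence `0 = ∑_y E y = 2^n |zs I H| + rest` with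
`‖rest‖ ≤ 2^n ∑_{F ∈ H \ zs I H} exp (-a |sp F ∩ I|) < 2^n |zs I H|`: contradiction. So there is a `y` with `lf F z_y = lf F z0` for all `F ∈ H`; `z = z_y`.
-/

namespace Pool.H86.MG

open Finset Classical Pool.Agent.H3.Frg Pool.Agent.H3.Frg2 Pool.Agent.H3.Frg4 Pool.Agent.H55.QT Pool.H6.LD

theorem fou_norm {z : ℂ} (hz : ‖z‖ = 1) (h1 : z ≠ 1) : ‖1 + z‖ < 2 := by
  have e1 : z.re * z.re + z.im * z.im = 1 := by
    have := Complex.sq_norm z
    rw [hz, Complex.normSq_apply] at this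
    linarith
  have e2 : ‖1 + z‖ ^ 2 = (1 + z.re) * (1 + z.re) + z.im * z.im := by
    rw [Complex.sq_norm, Complex.normSq_apply]
    simp
  have e3 : z.re < 1 := by
    have h2 : z.re ≤ 1 := by nlinarith [mul_self_nonneg z.im, mul_self_nonneg z.re]
    refine lt_of_le_of_ne h2 fun h3 => h1 ?_
    have h4 : z.im = 0 := by
      rw [h3] at e1
      have : z.im * z.im = 0 := by linarith
      exact mul_self_eq_zero.mp this
    exact Complex.ext (by rw [h3]; rfl) (by rw [h4]; rfl)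
  have e4 : ‖1 + z‖ ^ 2 < 4 := by rw [e2]; nlinarith
  nlinarith [norm_nonneg (1 + z)]

theorem fou_max {α : Type*} (s : Finset α) (g : α → ℝ) (h : ∀ c ∈ s, g c < 1) :
    ∃ r : ℝ, 0 < r ∧ r < 1 ∧ ∀ c ∈ s, g c ≤ r := by
  induction s using Finset.induction_on with
  | empty => exact ⟨1 / 2, by norm_num, by norm_num, fun c hc => absurd hc (Finset.notMem_empty c)⟩
  | insert a s ha ih =>
    obtain ⟨r, h0, h1, h2⟩ := ih fun c hc => h c (Finset.mem_insert_of_mem hc)
    refine ⟨max r (g a), lt_max_of_lt_left h0, max_lt h1 (h a (Finset.mem_insert_self a s)), fun c hc => ?_⟩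
    rcases Finset.mem_insert.mp hc with rfl | hc
    · exact le_max_right _ _
    · exact (h2 c hc).trans (le_max_left _ _)

theorem fou_rate (q : ℕ) [NeZero q] : ∃ a : ℝ, 0 < a ∧ ∀ c : ZMod q, c ≠ 0 →
    ‖1 + ZMod.stdAddChar c‖ ≤ 2 * Real.exp (-a) := by
  obtain ⟨r, h0, h1, h2⟩ := fou_max ((univ : Finset (ZMod q)).filter fun c => c ≠ 0)
    (fun c => ‖1 + ZMod.stdAddChar c‖ / 2) (fun c hc => by
      have hc0 : c ≠ 0 := (mem_filter.mp hc).2
      have h3 : ZMod.stdAddChar c ≠ (1 : ℂ) := fun h4 => hc0 (by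
        apply ZMod.injective_stdAddChar
        rw [h4, AddChar.map_zero_eq_one])
      have := fou_norm (AddChar.norm_apply ZMod.stdAddChar c) h3
      show ‖1 + ZMod.stdAddChar c‖ / 2 < 1
      linarith)
  refine ⟨-Real.log r, by have := Real.log_neg h0 h1; linarith, fun c hc => ?_⟩
  rw [neg_neg, Real.exp_log h0]
  have := h2 c (mem_filter.mpr ⟨mem_univ _, hc⟩)
  linarith

theorem fou_lf_add {q n : ℕ} (F G : Fin n → ZMod q) (x : Fin n → Bool) : lf (F + G) x = lf F x + lf G x := by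
  unfold lf
  rw [← Finset.sum_add_distrib]
  refine sum_congr rfl fun v _ => ?_
  by_cases h : x v = true
  · rw [if_pos h, if_pos h, if_pos h]; rfl
  · rw [if_neg h, if_neg h, if_neg h, add_zero]

/-- a nontrivial character of the group H has sum zero -/
theorem fou_zero {q n : ℕ} [NeZero q] {H : Finset (Fin n → ZMod q)} (hH : Sg H) (x z0 : Fin n → Bool)
    (F0 : Fin n → ZMod q) (hF0 : F0 ∈ H) (hne : lf F0 x ≠ lf F0 z0) :
    ∑ F ∈ H, (ZMod.stdAddChar (lf F x - lf F z0) : ℂ) = 0 := by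
  have key : (ZMod.stdAddChar (lf F0 x - lf F0 z0) : ℂ) * ∑ F ∈ H, (ZMod.stdAddChar (lf F x - lf F z0) : ℂ)
      = ∑ F ∈ H, (ZMod.stdAddChar (lf F x - lf F z0) : ℂ) := by
    rw [Finset.mul_sum]
    refine Finset.sum_nbij' (fun F => F0 + F) (fun F => F - F0) ?_ ?_ ?_ ?_ ?_
    · intro F hF; exact sg_add hH hF0 hF
    · intro F hF; exact hH.2 F hF F0 hF0
    · intro F _; exact add_sub_cancel_left F0 F
    · intro F _; exact add_sub_cancel F0 F
    · intro F _
      rw [← AddChar.map_add_eq_mul]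
      congr 1
      show _ = lf (F0 + F) x - lf (F0 + F) z0
      rw [fou_lf_add, fou_lf_add]
      ring
  have h1 : (ZMod.stdAddChar (lf F0 x - lf F0 z0) : ℂ) ≠ 1 := fun h4 => hne (by
    have : lf F0 x - lf F0 z0 = 0 := by
      apply ZMod.injective_stdAddChar
      rw [h4, AddChar.map_zero_eq_one]
    exact sub_eq_zero.mp this)
  have h2 : ((ZMod.stdAddChar (lf F0 x - lf F0 z0) : ℂ) - 1) *
      ∑ F ∈ H, (ZMod.stdAddChar (lf F x - lf F z0) : ℂ) = 0 := by
    rw [sub_mul, key, one_mul, sub_self]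
  rcases mul_eq_zero.mp h2 with h3 | h3
  · exact absurd (sub_eq_zero.mp h3) h1
  · exact h3

theorem fou_sum {q : ℕ} [NeZero q] {ι : Type*} (s : Finset ι) (f : ι → ZMod q) :
    (ZMod.stdAddChar (∑ i ∈ s, f i) : ℂ) = ∏ i ∈ s, (ZMod.stdAddChar (f i) : ℂ) := by
  induction s using Finset.induction_on with
  | empty => rw [Finset.sum_empty, Finset.prod_empty, AddChar.map_zero_eq_one]
  | insert a s ha ih => rw [Finset.sum_insert ha, Finset.prod_insert ha, AddChar.map_add_eq_mul, ih]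

/-- the sum over all assignments on I, as a product -/
theorem fou_prod {q n : ℕ} [NeZero q] (I : Finset (Fin n)) (z1 : Fin n → Bool) (F : Fin n → ZMod q) :
    ∑ y : Fin n → Bool, (ZMod.stdAddChar (lf F (fun v => if v ∈ I then y v else z1 v)) : ℂ)
      = ∏ v, ∑ b : Bool, (ZMod.stdAddChar (if (if v ∈ I then b else z1 v) = true then F v else 0) : ℂ) := by
  rw [Finset.prod_univ_sum, Fintype.piFinset_univ]
  refine sum_congr rfl fun y _ => ?_
  unfold lf
  rw [fou_sum]

theorem fou_bound {q n : ℕ} [NeZero q] {a : ℝ} (ha : ∀ c : ZMod q, c ≠ 0 → ‖1 + ZMod.stdAddChar c‖ ≤ 2 * Real.exp (-a))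
    (I : Finset (Fin n)) (z1 : Fin n → Bool) (F : Fin n → ZMod q) :
    ‖∑ y : Fin n → Bool, (ZMod.stdAddChar (lf F (fun v => if v ∈ I then y v else z1 v)) : ℂ)‖
      ≤ 2 ^ n * Real.exp (-a * ((sp F ∩ I).card : ℝ)) := by
  rw [fou_prod, norm_prod]
  have h1 : ∀ v ∈ (univ : Finset (Fin n)),
      ‖∑ b : Bool, (ZMod.stdAddChar (if (if v ∈ I then b else z1 v) = true then F v else 0) : ℂ)‖
        ≤ 2 * (if v ∈ sp F ∩ I then Real.exp (-a) else 1) := by
    intro v _
    by_cases hv : v ∈ I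
    · have e1 : ∑ b : Bool, (ZMod.stdAddChar (if (if v ∈ I then b else z1 v) = true then F v else 0) : ℂ)
          = 1 + ZMod.stdAddChar (F v) := by
        rw [Fintype.sum_bool]
        rw [if_pos hv, if_pos hv, if_pos rfl, if_neg Bool.false_ne_true, AddChar.map_zero_eq_one, add_comm]
      rw [e1]
      by_cases hF : F v = 0
      · rw [hF, AddChar.map_zero_eq_one, if_neg (fun h => by
          have := (mem_inter.mp h).1
          unfold sp at this
          exact (mem_filter.mp this).2 hF)]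
        norm_num
      · rw [if_pos (mem_inter.mpr ⟨by
          unfold sp
          exact mem_filter.mpr ⟨mem_univ _, hF⟩, hv⟩)]
        exact ha _ hF
    · have e1 : ∑ b : Bool, (ZMod.stdAddChar (if (if v ∈ I then b else z1 v) = true then F v else 0) : ℂ)
          = 2 * ZMod.stdAddChar (if z1 v = true then F v else 0) := by
        rw [Fintype.sum_bool]
        rw [if_neg hv, if_neg hv]
        ring
      rw [e1, norm_mul, AddChar.norm_apply, if_neg (fun h => hv (mem_inter.mp h).2)]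
      norm_num
  refine (Finset.prod_le_prod (fun v _ => norm_nonneg _) h1).trans (le_of_eq ?_)
  rw [Finset.prod_mul_distrib, Finset.prod_const, Finset.card_univ, Fintype.card_fin, Finset.prod_ite,
    Finset.prod_const, Finset.prod_const_one, mul_one]
  congr 1
  rw [← Real.exp_nat_mul]
  congr 1
  have e2 : (univ.filter fun v => v ∈ sp F ∩ I) = sp F ∩ I := by
    ext v
    rw [mem_filter]
    exact ⟨fun h => h.2, fun h => ⟨mem_univ _, h⟩⟩
  rw [e2]
  ring

theorem fou (q : ℕ) [NeZero q] : ∃ a : ℝ, 0 < a ∧ ∀ (n : ℕ) (I : Finset (Fin n)) (H : Finset (Fin n → ZMod q)), Sg H →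
    ∀ z0 z1 : Fin n → Bool, (∀ F ∈ zs I H, lf F z1 = lf F z0) →
    ∑ F ∈ H \ zs I H, Real.exp (-a * ((sp F ∩ I).card : ℝ)) < ((zs I H).card : ℝ) →
    ∃ z : Fin n → Bool, (∀ v, v ∉ I → z v = z1 v) ∧ ∀ F ∈ H, lf F z = lf F z0 := by
  obtain ⟨a, ha0, ha⟩ := fou_rate q
  refine ⟨a, ha0, ?_⟩
  intro n I H hH z0 z1 hz hlt
  by_contra hno
  have hzy : ∀ y : Fin n → Bool, ∑ F ∈ H,
      (ZMod.stdAddChar (lf F (fun v => if v ∈ I then y v else z1 v) - lf F z0) : ℂ) = 0 := by
    intro y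
    by_contra hne
    apply hno
    refine ⟨fun v => if v ∈ I then y v else z1 v, fun v hv => if_neg hv, fun F hF => ?_⟩
    by_contra hF1
    exact hne (fou_zero hH _ _ F hF hF1)
  have hsum : ∑ F ∈ H, ∑ y : Fin n → Bool,
      (ZMod.stdAddChar (lf F (fun v => if v ∈ I then y v else z1 v) - lf F z0) : ℂ) = 0 := by
    rw [Finset.sum_comm]
    exact Finset.sum_eq_zero fun y _ => hzy y
  have hsub : zs I H ⊆ H := by
    unfold zs
    exact filter_subset _ _
  rw [← Finset.sum_sdiff hsub] at hsum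
  have hz1 : ∑ F ∈ zs I H, ∑ y : Fin n → Bool,
      (ZMod.stdAddChar (lf F (fun v => if v ∈ I then y v else z1 v) - lf F z0) : ℂ)
        = ((zs I H).card : ℂ) * 2 ^ n := by
    have : ∀ F ∈ zs I H, ∑ y : Fin n → Bool,
        (ZMod.stdAddChar (lf F (fun v => if v ∈ I then y v else z1 v) - lf F z0) : ℂ) = 2 ^ n := by
      intro F hF
      have hFI : ∀ u ∈ I, F u = 0 := by
        unfold zs at hF
        exact (mem_filter.mp hF).2
      have e1 : ∀ y : Fin n → Bool, lf F (fun v => if v ∈ I then y v else z1 v) - lf F z0 = 0 := by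
        intro y
        have e2 : lf F (fun v => if v ∈ I then y v else z1 v) = lf F z1 := by
          refine lf_cg F fun v hv => ?_
          unfold sp at hv
          exact if_neg fun h => (mem_filter.mp hv).2 (hFI v h)
        rw [e2, hz F hF, sub_self]
      rw [Finset.sum_congr rfl fun y _ => by rw [e1 y, AddChar.map_zero_eq_one]]
      rw [Finset.sum_const, Finset.card_univ, Fintype.card_fun, Fintype.card_bool, Fintype.card_fin]
      simp
    rw [Finset.sum_congr rfl this, Finset.sum_const, nsmul_eq_mul]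
  rw [hz1] at hsum
  have hb : ‖∑ F ∈ H \ zs I H, ∑ y : Fin n → Bool,
      (ZMod.stdAddChar (lf F (fun v => if v ∈ I then y v else z1 v) - lf F z0) : ℂ)‖
        ≤ ∑ F ∈ H \ zs I H, 2 ^ n * Real.exp (-a * ((sp F ∩ I).card : ℝ)) := by
    refine norm_sum_le_of_le _ fun F _ => ?_
    have e1 : ∑ y : Fin n → Bool,
        (ZMod.stdAddChar (lf F (fun v => if v ∈ I then y v else z1 v) - lf F z0) : ℂ)
          = ZMod.stdAddChar (-lf F z0) * ∑ y : Fin n → Bool,
            (ZMod.stdAddChar (lf F (fun v => if v ∈ I then y v else z1 v)) : ℂ) := by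
      rw [Finset.mul_sum]
      refine sum_congr rfl fun y _ => ?_
      rw [← AddChar.map_add_eq_mul, neg_add_eq_sub]
    rw [e1, norm_mul, AddChar.norm_apply, one_mul]
    exact fou_bound ha I z1 F
  have hc : (∑ F ∈ H \ zs I H, ∑ y : Fin n → Bool,
      (ZMod.stdAddChar (lf F (fun v => if v ∈ I then y v else z1 v) - lf F z0) : ℂ))
        = -(((zs I H).card : ℂ) * 2 ^ n) := eq_neg_of_add_eq_zero_left hsum
  rw [hc, norm_neg, norm_mul, Complex.norm_natCast, norm_pow, Complex.norm_ofNat, ← Finset.mul_sum] at hb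
  have h2 : (0 : ℝ) < 2 ^ n := by positivity
  have h3 : (2 : ℝ) ^ n * ((zs I H).card : ℝ) ≤ 2 ^ n * ∑ F ∈ H \ zs I H, Real.exp (-a * ((sp F ∩ I).card : ℝ)) := by
    rw [mul_comm]
    exact hb
  have h4 := le_of_mul_le_mul_left h3 h2
  exact absurd hlt (not_lt.mpr h4)

end Pool.H86.MG
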