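import Mathlib
import Pool.Agent.H86.MG.Mdg
import Pool.Agent.H86.MG.Fou

set_option autoImplicit false
set_option linter.unusedSectionVars false

/-!
# Module FOG (THEOREM LPg): Fourier analysis, admissible forms only

As `fou` in `Fou.lean` (proved, with public lemmas `fou_zero`, `fou_prod`, `fou_bound`, `fou_rate`, ...), but the sum of the hypothesis runs only over the forms `F ∈ H \ zs I H` which are admissible (`Adm I F`: `F u + F u = 0` implies `F u = 0` for `u ∈ I`).
PROOF: the proof of `fou`; the only new point: if `F` is not admissible there is `u ∈ I` with `F u ≠ 0`, `F u + F u = 0`, so `χ (F u) ^ 2 = χ (F u + F u) = 1`, `χ (F u) ≠ 1` (`ZMod.injective_stdAddChar`), hence `χ (F u) = -1` and the factor `1 + χ (F u)`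
of the product (`fou_prod`) is zero: the contribution of `F` is `0`.
-/

namespace Pool.H86.MG

open Finset Classical Pool.Agent.H3.Frg Pool.Agent.H3.Frg2 Pool.Agent.H3.Frg4 Pool.Agent.H55.QT Pool.H6.LD

/-- forms which are not admissible contribute nothing -/
theorem fog_zero {q n : ℕ} [NeZero q] {I : Finset (Fin n)} (z1 : Fin n → Bool) {F : Fin n → ZMod q}
    (hF : ¬ Adm I F) :
    ∑ y : Fin n → Bool, (ZMod.stdAddChar (lf F (fun v => if v ∈ I then y v else z1 v)) : ℂ) = 0 := by
  unfold Adm at hF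
  push Not at hF
  obtain ⟨u, hu, h2, h0⟩ := hF
  have h3 : (ZMod.stdAddChar (F u) : ℂ) * ZMod.stdAddChar (F u) = 1 := by
    rw [← AddChar.map_add_eq_mul, h2, AddChar.map_zero_eq_one]
  have h4 : (ZMod.stdAddChar (F u) : ℂ) ≠ 1 := fun h => h0 (by
    apply ZMod.injective_stdAddChar
    rw [h, AddChar.map_zero_eq_one])
  have h5 : (ZMod.stdAddChar (F u) : ℂ) = -1 := by
    rcases mul_self_eq_one_iff.mp h3 with h | h
    · exact absurd h h4
    · exact h
  rw [fou_prod]
  refine Finset.prod_eq_zero (mem_univ u) ?_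
  rw [Fintype.sum_bool, if_pos hu, if_pos hu, if_pos rfl, if_neg Bool.false_ne_true, AddChar.map_zero_eq_one, h5]
  norm_num

theorem fog (q : ℕ) [NeZero q] : ∃ a : ℝ, 0 < a ∧ ∀ (n : ℕ) (I : Finset (Fin n)) (H : Finset (Fin n → ZMod q)), Sg H →
    ∀ z0 z1 : Fin n → Bool, (∀ F ∈ zs I H, lf F z1 = lf F z0) →
    ∑ F ∈ (H \ zs I H).filter (Adm I), Real.exp (-a * ((sp F ∩ I).card : ℝ)) < ((zs I H).card : ℝ) →
    ∃ z : Fin n → Bool, (∀ v, v ∉ I → z v = z1 v) ∧ ∀ F ∈ H, lf F z = lf F z0 := by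
  obtain ⟨a, ha0, ha⟩ := fou_rate q
  refine ⟨a, ha0, ?_⟩
  intro n I H hH z0 z1 hz hlt
  by_contra hno
  have hzy : ∀ y : Fin n → Bool, ∑ F ∈ H,
      (ZMod.stdAddChar (lf F (fun v => if v ∈ I then y v else z1 v) - lf F z0) : ℂ) = 0 := by
    intro y
    by_contra hne
    apply hno
    refine ⟨fun v => if v ∈ I then y v else z1 v, fun v hv => if_neg hv, fun F hF => ?_⟩
    by_contra hF1
    exact hne (fou_zero hH _ _ F hF hF1)
  have hsum : ∑ F ∈ H, ∑ y : Fin n → Bool,
      (ZMod.stdAddChar (lf F (fun v => if v ∈ I then y v else z1 v) - lf F z0) : ℂ) = 0 := by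
    rw [Finset.sum_comm]
    exact Finset.sum_eq_zero fun y _ => hzy y
  have hsub : zs I H ⊆ H := by
    unfold zs
    exact filter_subset _ _
  rw [← Finset.sum_sdiff hsub] at hsum
  have hz1 : ∑ F ∈ zs I H, ∑ y : Fin n → Bool,
      (ZMod.stdAddChar (lf F (fun v => if v ∈ I then y v else z1 v) - lf F z0) : ℂ)
        = ((zs I H).card : ℂ) * 2 ^ n := by
    have : ∀ F ∈ zs I H, ∑ y : Fin n → Bool,
        (ZMod.stdAddChar (lf F (fun v => if v ∈ I then y v else z1 v) - lf F z0) : ℂ) = 2 ^ n := by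
      intro F hF
      have hFI : ∀ u ∈ I, F u = 0 := by
        unfold zs at hF
        exact (mem_filter.mp hF).2
      have e1 : ∀ y : Fin n → Bool, lf F (fun v => if v ∈ I then y v else z1 v) - lf F z0 = 0 := by
        intro y
        have e2 : lf F (fun v => if v ∈ I then y v else z1 v) = lf F z1 := by
          refine lf_cg F fun v hv => ?_
          unfold sp at hv
          exact if_neg fun h => (mem_filter.mp hv).2 (hFI v h)
        rw [e2, hz F hF, sub_self]
      rw [Finset.sum_congr rfl fun y _ => by rw [e1 y, AddChar.map_zero_eq_one]]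
      rw [Finset.sum_const, Finset.card_univ, Fintype.card_fun, Fintype.card_bool, Fintype.card_fin]
      simp
    rw [Finset.sum_congr rfl this, Finset.sum_const, nsmul_eq_mul]
  rw [hz1] at hsum
  have hb : ‖∑ F ∈ H \ zs I H, ∑ y : Fin n → Bool,
      (ZMod.stdAddChar (lf F (fun v => if v ∈ I then y v else z1 v) - lf F z0) : ℂ)‖
        ≤ ∑ F ∈ H \ zs I H, (if Adm I F then 2 ^ n * Real.exp (-a * ((sp F ∩ I).card : ℝ)) else 0) := by
    refine norm_sum_le_of_le _ fun F _ => ?_
    have e1 : ∑ y : Fin n → Bool,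
        (ZMod.stdAddChar (lf F (fun v => if v ∈ I then y v else z1 v) - lf F z0) : ℂ)
          = ZMod.stdAddChar (-lf F z0) * ∑ y : Fin n → Bool,
            (ZMod.stdAddChar (lf F (fun v => if v ∈ I then y v else z1 v)) : ℂ) := by
      rw [Finset.mul_sum]
      refine sum_congr rfl fun y _ => ?_
      rw [← AddChar.map_add_eq_mul, neg_add_eq_sub]
    rw [e1, norm_mul, AddChar.norm_apply, one_mul]
    by_cases hA : Adm I F
    · rw [if_pos hA]
      exact fou_bound ha I z1 F
    · rw [if_neg hA, fog_zero z1 hA, norm_zero]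
  have hc : (∑ F ∈ H \ zs I H, ∑ y : Fin n → Bool,
      (ZMod.stdAddChar (lf F (fun v => if v ∈ I then y v else z1 v) - lf F z0) : ℂ))
        = -(((zs I H).card : ℂ) * 2 ^ n) := eq_neg_of_add_eq_zero_left hsum
  rw [hc, norm_neg, norm_mul, Complex.norm_natCast, norm_pow, Complex.norm_ofNat, ← Finset.sum_filter,
    ← Finset.mul_sum] at hb
  have h2 : (0 : ℝ) < 2 ^ n := by positivity
  have h3 : (2 : ℝ) ^ n * ((zs I H).card : ℝ)
      ≤ 2 ^ n * ∑ F ∈ (H \ zs I H).filter (Adm I), Real.exp (-a * ((sp F ∩ I).card : ℝ)) := by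
    rw [mul_comm]
    exact hb
  have h4 := le_of_mul_le_mul_left h3 h2
  exact absurd hlt (not_lt.mpr h4)

end Pool.H86.MG
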