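import Mathlib
import Pool.Agent.H86.MG.Mdg
import Pool.Agent.H86.MG.Prd

set_option autoImplicit false
set_option linter.unusedSectionVars false

/-!
# Module PRG (THEOREM LPg): the closure for two groups

Definitions in `Mdg.lean`, `Mdf.lean`; compare `Prd.lean` (proved: `cd_inter`, `prd`, `rs_mono`, `sg_rs`, ...).
PROOFS. `sg_db`: `(F + F) - (G + G) = (F - G) + (F - G)`. `cl2_cd`: as `cl_cd` in `Prd.lean`: the sets `R ⊆ U` which contain `D ∩ U` and are closed for both groups are stable under intersection (`cd_inter` for `H` and for `db H`) and `U` is one of them; take one of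
minimal cardinality, it is `Cl2`. `cl2_mono`: a set which is closed for `H'`, `db H'` is closed for `H`, `db H` (this is in the proof of `cl_mono` in `Prd.lean`: product lemma; state it as a lemma `cd_anti`), and contains `D ∩ U ⊆ D' ∩ U`.
`cl2_card`: choose among the `R` with `D ∩ U ⊆ R ⊆ U` one with `|rs U H R|^l1 |rs U (db H) R|^l2 / 2^|R \ D|` maximal. It is closed for both groups: for `R ⊆ R' ⊆ U`: `|rs H R'|^l1 |rs (db H) R'|^l2 ≤ |rs H R|^l1 |rs (db H) R|^l2 2^|R' \ R|` (since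
`(R' \ D).card = (R \ D).card + (R' \ R).card`), and `|rs (db H) R'| ≥ |rs (db H) R| > 0` (`rs_mono`), `|rs H R'| ≥ |rs H R| > 0`: cancel. Comparison with `R = D ∩ U`: `2^|R \ D| ≤ |rs H R|^l1 |rs (db H) R|^l2 ≤ 2^(l1 s1 + l2 s0)`. And `Cl2 ⊆ R`.
-/

namespace Pool.H86.MG

open Finset Classical Pool.Agent.H3.Frg Pool.Agent.H3.Frg2 Pool.Agent.H3.Frg4 Pool.Agent.H55.QT Pool.H6.LD

variable {q n : ℕ}

theorem sg_db {H : Finset (Fin n → ZMod q)} (h : Sg H) : Sg (db H) := by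
  refine ⟨⟨0, ?_⟩, fun a ha b hb => ?_⟩
  · unfold db
    rw [mem_image]
    exact ⟨0, sg_zero h, add_zero 0⟩
  · unfold db at ha hb ⊢
    rw [mem_image] at ha hb ⊢
    obtain ⟨F, hF, rfl⟩ := ha
    obtain ⟨G, hG, rfl⟩ := hb
    exact ⟨F - G, h.2 F hF G hG, (add_sub_add_comm F F G G).symm⟩

theorem db_mono {H H' : Finset (Fin n → ZMod q)} (h : H ⊆ H') : db H ⊆ db H' :=
  image_subset_image h

private theorem rs_ps {H : Finset (Fin n → ZMod q)} (h : Sg H) (U R : Finset (Fin n)) : 0 < (rs U H R).card :=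
  card_pos.2 (sg_rs U R h).1

private theorem cd_univ (U : Finset (Fin n)) (lam : ℕ) (H : Finset (Fin n → ZMod q)) : Cd U lam H U := by
  intro R' h1 h2
  rw [Subset.antisymm h2 h1, Finset.sdiff_self, card_empty, pow_zero, mul_one]

/-- Closed sets of the bigger group are closed for the smaller one. -/
theorem cd_anti {U R : Finset (Fin n)} {lam : ℕ} {H H' : Finset (Fin n → ZMod q)} (h : Sg H) (h' : Sg H') (hH : H ⊆ H')
    (h1 : Cd U lam H' R) : Cd U lam H R := by
  intro R' hR hR'U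
  have h2 := prd (sg_rs U R' h) (sg_rs U R h') (sg_rs U R' h') (rs_mono hH (Subset.refl R'))
    (rs_mono (Subset.refl H') hR)
  have e : rs U H R' ∩ rs U H' R = rs U H R := by
    ext F
    unfold rs
    rw [mem_inter, mem_filter, mem_filter, mem_filter]
    constructor
    · rintro ⟨⟨h3, _⟩, _, h4⟩
      exact ⟨h3, h4⟩
    · rintro ⟨h3, h4⟩
      exact ⟨⟨h3, fun u hu hn => h4 u hu fun hc => hn (hR hc)⟩, hH h3, h4⟩
  rw [e] at h2
  have h3 := h1 R' hR hR'U
  have h4 : (rs U H R').card ^ lam * (rs U H' R).card ^ lam ≤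
      (rs U H R).card ^ lam * 2 ^ (R' \ R).card * (rs U H' R).card ^ lam := by
    calc (rs U H R').card ^ lam * (rs U H' R).card ^ lam = ((rs U H R').card * (rs U H' R).card) ^ lam :=
          (mul_pow _ _ _).symm
      _ ≤ ((rs U H' R').card * (rs U H R).card) ^ lam := Nat.pow_le_pow_left h2 _
      _ = (rs U H' R').card ^ lam * (rs U H R).card ^ lam := mul_pow _ _ _
      _ ≤ (rs U H' R).card ^ lam * 2 ^ (R' \ R).card * (rs U H R).card ^ lam := Nat.mul_le_mul_right _ h3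
      _ = (rs U H R).card ^ lam * 2 ^ (R' \ R).card * (rs U H' R).card ^ lam := by ring
  exact Nat.le_of_mul_le_mul_right h4 (pow_pos (rs_ps h' U R) _)

theorem cl2_cd (U : Finset (Fin n)) (l1 l2 : ℕ) {H : Finset (Fin n → ZMod q)} (h : Sg H) (D : Finset (Fin n)) :
    Cd U l1 H (Cl2 U l1 l2 H D) ∧ Cd U l2 (db H) (Cl2 U l1 l2 H D) := by
  obtain ⟨R, hR, hmin⟩ := exists_min_image
    (U.powerset.filter fun R => D ∩ U ⊆ R ∧ Cd U l1 H R ∧ Cd U l2 (db H) R) card
    ⟨U, by
      rw [mem_filter]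
      exact ⟨mem_powerset.2 (Subset.refl U), inter_subset_right, cd_univ U l1 H, cd_univ U l2 (db H)⟩⟩
  rw [mem_filter, mem_powerset] at hR
  have e : Cl2 U l1 l2 H D = R := by
    ext u
    unfold Cl2
    rw [mem_filter]
    constructor
    · rintro ⟨_, h2⟩
      exact h2 R hR.1 hR.2.1 hR.2.2.1 hR.2.2.2
    · intro hu
      refine ⟨hR.1 hu, fun R2 h2 h3 h4 h4' => ?_⟩
      have h5 := hmin (R ∩ R2) (by
        rw [mem_filter, mem_powerset]
        exact ⟨inter_subset_left.trans hR.1, subset_inter hR.2.1 h3, cd_inter h hR.1 h2 hR.2.2.1 h4,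
          cd_inter (sg_db h) hR.1 h2 hR.2.2.2 h4'⟩)
      have h6 : R ∩ R2 = R := eq_of_subset_of_card_le inter_subset_left h5
      rw [← h6] at hu
      exact (mem_inter.1 hu).2
  rw [e]
  exact hR.2.2

theorem cl2_sub (U : Finset (Fin n)) (l1 l2 : ℕ) (H : Finset (Fin n → ZMod q)) (D : Finset (Fin n)) :
    Cl2 U l1 l2 H D ⊆ U :=
  filter_subset _ _

theorem cl2_sup (U : Finset (Fin n)) (l1 l2 : ℕ) (H : Finset (Fin n → ZMod q)) (D : Finset (Fin n)) :
    D ∩ U ⊆ Cl2 U l1 l2 H D := by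
  intro u hu
  unfold Cl2
  rw [mem_filter]
  exact ⟨(mem_inter.1 hu).2, fun R _ h2 _ _ => h2 hu⟩

theorem cl2_le {U : Finset (Fin n)} {l1 l2 : ℕ} {H : Finset (Fin n → ZMod q)} {D R : Finset (Fin n)} (hR : R ⊆ U)
    (hD : D ∩ U ⊆ R) (h1 : Cd U l1 H R) (h2 : Cd U l2 (db H) R) : Cl2 U l1 l2 H D ⊆ R := by
  intro u hu
  unfold Cl2 at hu
  rw [mem_filter] at hu
  exact hu.2 R hR hD h1 h2

theorem cl2_mono {U : Finset (Fin n)} {l1 l2 : ℕ} {H H' : Finset (Fin n → ZMod q)} (h : Sg H) (h' : Sg H')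
    (hH : H ⊆ H') {D D' : Finset (Fin n)} (hD : D ⊆ D') : Cl2 U l1 l2 H D ⊆ Cl2 U l1 l2 H' D' := by
  have h1 := cl2_cd U l1 l2 h' D'
  exact cl2_le (cl2_sub U l1 l2 H' D') ((inter_subset_inter_right hD).trans (cl2_sup U l1 l2 H' D'))
    (cd_anti h h' hH h1.1) (cd_anti (sg_db h) (sg_db h') (db_mono hH) h1.2)

theorem cl2_card {U : Finset (Fin n)} {l1 l2 s1 s0 : ℕ} {H : Finset (Fin n → ZMod q)} (h : Sg H)
    (hc : H.card ≤ 2 ^ s1) (hc2 : (db H).card ≤ 2 ^ s0) (D : Finset (Fin n)) :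
    (Cl2 U l1 l2 H D \ D).card ≤ l1 * s1 + l2 * s0 := by
  have hd := sg_db h
  obtain ⟨R, hR, hmax⟩ := exists_max_image (U.powerset.filter fun R => D ∩ U ⊆ R)
    (fun R => (rs U H R).card ^ l1 * (rs U (db H) R).card ^ l2 * 2 ^ (U.card - (R \ D).card))
    ⟨D ∩ U, by
      rw [mem_filter]
      exact ⟨mem_powerset.2 inter_subset_right, Subset.refl _⟩⟩
  rw [mem_filter, mem_powerset] at hR
  have hle : ∀ S : Finset (Fin n), S ⊆ U → (S \ D).card ≤ U.card := fun S hS =>
    card_le_card (sdiff_subset.trans hS)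
  have hcd : ∀ R', R ⊆ R' → R' ⊆ U → (rs U H R').card ^ l1 * (rs U (db H) R').card ^ l2 ≤
      (rs U H R).card ^ l1 * (rs U (db H) R).card ^ l2 * 2 ^ (R' \ R).card := by
    intro R' h1 h2
    have h3 := hmax R' (by
      rw [mem_filter, mem_powerset]
      exact ⟨h2, hR.2.trans h1⟩)
    have e1 : (R' \ D).card = (R \ D).card + (R' \ R).card := by
      rw [← card_union_of_disjoint]
      · congr 1
        ext u
        rw [mem_union, mem_sdiff, mem_sdiff, mem_sdiff]
        constructor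
        · rintro ⟨h4, h5⟩
          by_cases h6 : u ∈ R
          · exact Or.inl ⟨h6, h5⟩
          · exact Or.inr ⟨h4, h6⟩
        · rintro (⟨h4, h5⟩ | ⟨h4, h5⟩)
          · exact ⟨h1 h4, h5⟩
          · exact ⟨h4, fun h6 => h5 (hR.2 (mem_inter.2 ⟨h6, h2 h4⟩))⟩
      · rw [disjoint_left]
        intro u hu hu'
        rw [mem_sdiff] at hu hu'
        exact hu'.2 hu.1
    have h7 := hle R' h2
    have e2 : U.card - (R \ D).card = (U.card - (R' \ D).card) + (R' \ R).card := by omega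
    rw [e2, pow_add] at h3
    have h8 : (rs U H R').card ^ l1 * (rs U (db H) R').card ^ l2 * 2 ^ (U.card - (R' \ D).card) ≤
        (rs U H R).card ^ l1 * (rs U (db H) R).card ^ l2 * 2 ^ (R' \ R).card * 2 ^ (U.card - (R' \ D).card) := by
      calc (rs U H R').card ^ l1 * (rs U (db H) R').card ^ l2 * 2 ^ (U.card - (R' \ D).card) ≤
          (rs U H R).card ^ l1 * (rs U (db H) R).card ^ l2 * (2 ^ (U.card - (R' \ D).card) * 2 ^ (R' \ R).card) := h3
        _ = (rs U H R).card ^ l1 * (rs U (db H) R).card ^ l2 * 2 ^ (R' \ R).card *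
            2 ^ (U.card - (R' \ D).card) := by ring
    exact Nat.le_of_mul_le_mul_right h8 (pow_pos (by norm_num) _)
  have hcd1 : Cd U l1 H R := by
    intro R' h1 h2
    have h3 := hcd R' h1 h2
    have h4 : (rs U (db H) R).card ^ l2 ≤ (rs U (db H) R').card ^ l2 :=
      Nat.pow_le_pow_left (card_le_card (rs_mono (Subset.refl _) h1)) _
    have h5 : (rs U H R').card ^ l1 * (rs U (db H) R).card ^ l2 ≤
        (rs U H R).card ^ l1 * 2 ^ (R' \ R).card * (rs U (db H) R).card ^ l2 := by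
      calc (rs U H R').card ^ l1 * (rs U (db H) R).card ^ l2 ≤
          (rs U H R').card ^ l1 * (rs U (db H) R').card ^ l2 := Nat.mul_le_mul_left _ h4
        _ ≤ (rs U H R).card ^ l1 * (rs U (db H) R).card ^ l2 * 2 ^ (R' \ R).card := h3
        _ = (rs U H R).card ^ l1 * 2 ^ (R' \ R).card * (rs U (db H) R).card ^ l2 := by ring
    exact Nat.le_of_mul_le_mul_right h5 (pow_pos (rs_ps hd U R) _)
  have hcd2 : Cd U l2 (db H) R := by
    intro R' h1 h2
    have h3 := hcd R' h1 h2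
    have h4 : (rs U H R).card ^ l1 ≤ (rs U H R').card ^ l1 :=
      Nat.pow_le_pow_left (card_le_card (rs_mono (Subset.refl _) h1)) _
    have h5 : (rs U (db H) R').card ^ l2 * (rs U H R).card ^ l1 ≤
        (rs U (db H) R).card ^ l2 * 2 ^ (R' \ R).card * (rs U H R).card ^ l1 := by
      calc (rs U (db H) R').card ^ l2 * (rs U H R).card ^ l1 ≤
          (rs U (db H) R').card ^ l2 * (rs U H R').card ^ l1 := Nat.mul_le_mul_left _ h4
        _ = (rs U H R').card ^ l1 * (rs U (db H) R').card ^ l2 := mul_comm _ _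
        _ ≤ (rs U H R).card ^ l1 * (rs U (db H) R).card ^ l2 * 2 ^ (R' \ R).card := h3
        _ = (rs U (db H) R).card ^ l2 * 2 ^ (R' \ R).card * (rs U H R).card ^ l1 := by ring
    exact Nat.le_of_mul_le_mul_right h5 (pow_pos (rs_ps h U R) _)
  have h1 := hmax (D ∩ U) (by
    rw [mem_filter]
    exact ⟨mem_powerset.2 inter_subset_right, Subset.refl _⟩)
  have e0 : ((D ∩ U) \ D).card = 0 := by
    rw [card_eq_zero, sdiff_eq_empty_iff_subset]
    exact inter_subset_left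
  rw [e0, Nat.sub_zero] at h1
  have h2 : 2 ^ U.card ≤ (rs U H R).card ^ l1 * (rs U (db H) R).card ^ l2 * 2 ^ (U.card - (R \ D).card) := by
    refine le_trans ?_ h1
    exact Nat.le_mul_of_pos_left _ (Nat.mul_pos (pow_pos (rs_ps h U _) _) (pow_pos (rs_ps hd U _) _))
  have h3 : 2 ^ (R \ D).card * 2 ^ (U.card - (R \ D).card) ≤
      (rs U H R).card ^ l1 * (rs U (db H) R).card ^ l2 * 2 ^ (U.card - (R \ D).card) := by
    rw [← pow_add, Nat.add_sub_cancel' (hle R hR.1)]
    exact h2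
  have h4 : 2 ^ (R \ D).card ≤ (rs U H R).card ^ l1 * (rs U (db H) R).card ^ l2 :=
    Nat.le_of_mul_le_mul_right h3 (pow_pos (by norm_num) _)
  have h5 : (rs U H R).card ^ l1 ≤ 2 ^ (s1 * l1) := by
    rw [pow_mul]
    exact Nat.pow_le_pow_left ((card_le_card (filter_subset _ _)).trans hc) _
  have h5' : (rs U (db H) R).card ^ l2 ≤ 2 ^ (s0 * l2) := by
    rw [pow_mul]
    exact Nat.pow_le_pow_left ((card_le_card (filter_subset _ _)).trans hc2) _
  have h55 : 2 ^ (R \ D).card ≤ 2 ^ (s1 * l1 + s0 * l2) := by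
    rw [pow_add]
    exact h4.trans (Nat.mul_le_mul h5 h5')
  have h6 : (R \ D).card ≤ s1 * l1 + s0 * l2 := (Nat.pow_le_pow_iff_right (by norm_num)).1 h55
  have h7 : (Cl2 U l1 l2 H D \ D).card ≤ (R \ D).card :=
    card_le_card (sdiff_subset_sdiff (cl2_le hR.1 hR.2 hcd1 hcd2) (Subset.refl D))
  rw [mul_comm l1, mul_comm l2]
  exact h7.trans h6

end Pool.H86.MG
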