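import Mathlib
import Pool.Agent.H86.MG.Prd

set_option autoImplicit false
set_option linter.unusedSectionVars false

/-!
# Module ZLM (THEOREM LPm): the weight enumerator of a group whose subgroups have large supports

PROOF. Write `Z = zs I H`, `w F = (sp F ∩ I).card`, `H_s = ∑_{j=1..s} 1/j`, `x_s = (12 log 2 + 2 H_s) / lam` (so `lam > 0`; `C ≥ 1`). CLAIM, by induction on `s`: for every `N` with `Sg N`, `Z ⊆ N ⊆ H`, `|N| < 2^(s+1) |Z|` and all real `x ≥ x_s`:
`∑_{F ∈ N \ Z} exp (-x w F) ≤ |Z| ∑_{j=1..s} 16^(-j)`.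
`s = 0`: `|N| < 2 |Z|`, so `N = Z` (if `a ∈ N \ Z` then `Z` and `a + Z` are disjoint subsets of `N`), the sum is empty.
Step `s ≥ 1`: if `|N| < 2^s |Z|` use the claim for `s - 1` (`x_s ≥ x_(s-1)`). Otherwise let `S = N.biUnion (fun F => sp F ∩ I)`, `W = |S|`; by hypothesis `(2^s |Z|)^lam ≤ |N|^lam ≤ |Z|^lam 2^W`, so `W ≥ lam s` (in particular `W > 0`).
HEAVY `F` (`2 w F ≥ W`): there are at most `|N| < 2^(s+1) |Z|` of them, each has `exp (-x w F) ≤ exp (-x W / 2) ≤ exp (-6 s log 2) = 2^(-6 s)` (as `x W ≥ 12 log 2 * s`): together at most `|Z| 2^(1 - 5 s) ≤ |Z| 16^(-s)`.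
LIGHT `F ∈ N \ Z` (`2 w F < W`): `1 ≤ (1 - t) exp (2 t)` for `t = w F / W ∈ [0, 1/2]` (from `exp (2 t) ≥ 1 + 2 t` only `(1 - t)(1 + 2 t) = 1 + t - 2 t^2 ≥ 1` for `t ≤ 1/2`: this is enough). So
`exp (-x w F) ≤ (1 - w F / W) exp (-(x - 2/W) w F)`, and `W - w F` is the number of `u ∈ S` with `F u = 0`. Hence the sum over the light ones is at most
`(1/W) ∑_{u ∈ S} ∑_{F ∈ N_u \ Z} exp (-(x - 2/W) w F)`, `N_u = N.filter (F u = 0)`. `N_u` is a group, `Z ⊆ N_u` (as `u ∈ I`), `2 |N_u| ≤ |N|` (some `a ∈ N` has `a u ≠ 0`, translate) so `|N_u| < 2^s |Z|`, and `x - 2/W ≥ x_s - 2/(lam s) = x_(s-1)`: by induction the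
inner sum is at most `|Z| ∑_{j ≤ s-1} 16^(-j)`, and there are `W` values of `u`. Together `|Z| ∑_{j ≤ s} 16^(-j)`. QED.
`∑_{j=1..s} 16^(-j) < 1` (indeed `≤ 1/15`; simplest: prove by induction the bound `|Z| (1 - 16^(-s)) / 15`). Apply the claim with `N = H`, `s = s0` (`|H| ≤ 2^s0 < 2^(s0+1) |Z|`), `x = a`: needed `a lam ≥ 12 log 2 + 2 H_(s0)`; `H_s ≤ Nat.log 2 s + 1` (Mathlib: `harmonic_le_one_add_log`, or prove
`H_s ≤ Nat.log 2 s + 1` directly) and `12 log 2 < 9`, so `C = ⌈11 / a⌉₊ + 1` is enough if `H_s ≤ Nat.log 2 s + 1` is used (with `harmonic_le_one_add_log`: `H_s ≤ 1 + log s ≤ 1 + (Nat.log 2 s + 1) log 2`; take a larger `C`). Any `C > 0` depending on `a` only is fine.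
-/

namespace Pool.H86.MG

open Finset Classical Pool.Agent.H3.Frg Pool.Agent.H3.Frg2 Pool.Agent.H3.Frg4 Pool.Agent.H55.QT Pool.H6.LD

private theorem zgrp_zero {q n : ℕ} {H : Finset (Fin n → ZMod q)} (h : Sg H) : (0 : Fin n → ZMod q) ∈ H := by
  obtain ⟨a, ha⟩ := h.1
  have := h.2 a ha a ha
  rwa [sub_self] at this

private theorem zgrp_neg {q n : ℕ} {H : Finset (Fin n → ZMod q)} (h : Sg H) {a : Fin n → ZMod q} (ha : a ∈ H) : -a ∈ H := by
  have := h.2 0 (zgrp_zero h) a ha
  rwa [zero_sub] at this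

private theorem zgrp_add {q n : ℕ} {H : Finset (Fin n → ZMod q)} (h : Sg H) {a b : Fin n → ZMod q} (ha : a ∈ H)
    (hb : b ∈ H) : a + b ∈ H := by
  have := h.2 a ha (-b) (zgrp_neg h hb)
  rwa [sub_neg_eq_add] at this

private theorem zgrp_filter {q n : ℕ} {H : Finset (Fin n → ZMod q)} (h : Sg H) (u : Fin n) :
    Sg (H.filter fun F => F u = 0) := by
  refine ⟨⟨0, mem_filter.2 ⟨zgrp_zero h, rfl⟩⟩, ?_⟩
  intro a ha b hb
  rw [mem_filter] at ha hb ⊢
  refine ⟨h.2 a ha.1 b hb.1, ?_⟩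
  rw [Pi.sub_apply, ha.2, hb.2, sub_self]

private theorem half {q n : ℕ} {H Z : Finset (Fin n → ZMod q)} (h : Sg H) (hZ : Sg Z) (hZH : Z ⊆ H)
    {a : Fin n → ZMod q} (ha : a ∈ H) (haZ : a ∉ Z) : 2 * Z.card ≤ H.card := by
  have hd : Disjoint Z (Z.image fun F => F + a) := by
    rw [Finset.disjoint_left]
    intro F hF hF2
    obtain ⟨G, hG, rfl⟩ := mem_image.1 hF2
    apply haZ
    have := hZ.2 _ hF _ hG
    rwa [add_sub_cancel_left] at this
  have hc : (Z.image fun F => F + a).card = Z.card := card_image_of_injective _ (add_left_injective a)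
  calc 2 * Z.card = Z.card + (Z.image fun F => F + a).card := by rw [hc]; ring
    _ = (Z ∪ Z.image fun F => F + a).card := (card_union_of_disjoint hd).symm
    _ ≤ H.card := by
        apply card_le_card
        apply union_subset hZH
        intro F hF
        obtain ⟨G, hG, rfl⟩ := mem_image.1 hF
        exact zgrp_add h (hZH hG) ha

/-- harmonic numbers -/
private noncomputable def hs (s : ℕ) : ℝ := ∑ j ∈ range s, 1 / ((j : ℝ) + 1)

private theorem hs_le (s : ℕ) : hs s ≤ (Nat.log 2 s : ℝ) + 2 := by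
  rcases Nat.eq_zero_or_pos s with rfl | hs0
  · simp [hs]
  · have h1 : hs s = ((harmonic s : ℚ) : ℝ) := by
      unfold hs harmonic
      push_cast
      refine sum_congr rfl fun j _ => ?_
      rw [one_div]
    have h2 := harmonic_le_one_add_log s
    have h3 : Real.log s ≤ (Nat.log 2 s : ℝ) + 1 := by
      have h4 : (s : ℝ) < 2 ^ (Nat.log 2 s + 1) := by
        exact_mod_cast Nat.lt_pow_succ_log_self (by norm_num) s
      have h5 : Real.log s ≤ Real.log (2 ^ (Nat.log 2 s + 1)) :=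
        Real.log_le_log (by exact_mod_cast hs0) h4.le
      rw [Real.log_pow] at h5
      have h6 := Real.log_two_lt_d9
      have h7 : (0 : ℝ) ≤ ((Nat.log 2 s + 1 : ℕ) : ℝ) := Nat.cast_nonneg _
      have h8 : ((Nat.log 2 s + 1 : ℕ) : ℝ) = (Nat.log 2 s : ℝ) + 1 := by push_cast; ring
      nlinarith
    rw [h1]
    linarith

private theorem claim {q n lam : ℕ} (hlam : 0 < lam) (I : Finset (Fin n)) (H : Finset (Fin n → ZMod q)) (hH : Sg H)
    (hyp : ∀ N : Finset (Fin n → ZMod q), Sg N → zs I H ⊆ N → N ⊆ H →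
      N.card ^ lam ≤ (zs I H).card ^ lam * 2 ^ (N.biUnion fun F => sp F ∩ I).card) (s : ℕ) :
    ∀ N : Finset (Fin n → ZMod q), Sg N → zs I H ⊆ N → N ⊆ H → N.card < 2 ^ (s + 1) * (zs I H).card →
    ∀ x : ℝ, (12 * Real.log 2 + 2 * hs s) / lam ≤ x →
    ∑ F ∈ N \ zs I H, Real.exp (-x * ((sp F ∩ I).card : ℝ)) ≤ ((zs I H).card : ℝ) * ((1 - (1 / 16) ^ s) / 15) := by
  have hl0 : (0 : ℝ) < lam := by exact_mod_cast hlam
  have hZ0 : Sg (zs I H) := by
    refine ⟨⟨0, mem_filter.2 ⟨zgrp_zero hH, fun u _ => rfl⟩⟩, ?_⟩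
    intro a ha b hb
    unfold zs at *
    rw [mem_filter] at ha hb ⊢
    refine ⟨hH.2 a ha.1 b hb.1, fun u hu => ?_⟩
    rw [Pi.sub_apply, ha.2 u hu, hb.2 u hu, sub_self]
  have hZc : 0 < (zs I H).card := card_pos.2 hZ0.1
  have hZr : (0 : ℝ) < ((zs I H).card : ℝ) := by exact_mod_cast hZc
  have hl2 := Real.log_two_gt_d9
  induction s with
  | zero =>
    intro N hN hZN hNH hc x hx
    have hNZ : N \ zs I H = ∅ := by
      rw [sdiff_eq_empty_iff_subset]
      intro a ha
      by_contra haZ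
      have := half hN hZ0 hZN ha haZ
      omega
    rw [hNZ, sum_empty]
    simp
  | succ s ih =>
    intro N hN hZN hNH hc x hx
    have hss : hs (s + 1) = hs s + 1 / ((s : ℝ) + 1) := by
      unfold hs
      rw [sum_range_succ]
    have hs0 : (0 : ℝ) < (s : ℝ) + 1 := by positivity
    have hhs : 0 ≤ hs s := by
      unfold hs
      exact sum_nonneg fun j _ => by positivity
    have hxs : (12 * Real.log 2 + 2 * hs s) / lam ≤ x := by
      refine le_trans ?_ hx
      apply div_le_div_of_nonneg_right _ hl0.le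
      rw [hss]
      have : 0 ≤ 1 / ((s : ℝ) + 1) := by positivity
      linarith
    have hpow : ((1 : ℝ) / 16) ^ (s + 1) = (1 / 16) ^ s / 16 := by
      rw [pow_succ]
      ring
    have hp0 : (0 : ℝ) < (1 / 16) ^ s := by positivity
    by_cases hcase : N.card < 2 ^ (s + 1) * (zs I H).card
    · refine (ih N hN hZN hNH hcase x hxs).trans ?_
      apply mul_le_mul_of_nonneg_left _ hZr.le
      rw [hpow]
      linarith
    rw [not_lt] at hcase
    obtain ⟨S, hS⟩ : ∃ S, S = N.biUnion fun F => sp F ∩ I := ⟨_, rfl⟩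
    have hSI : S ⊆ I := by
      rw [hS]
      intro u hu
      obtain ⟨F, _, hF⟩ := mem_biUnion.1 hu
      exact (mem_inter.1 hF).2
    have hW1 : (s + 1) * lam ≤ S.card := by
      have h1 := hyp N hN hZN hNH
      rw [← hS] at h1
      have h2 : (2 ^ (s + 1) * (zs I H).card) ^ lam ≤ N.card ^ lam := Nat.pow_le_pow_left hcase lam
      rw [mul_pow, ← pow_mul, mul_comm] at h2
      have h3 := Nat.le_of_mul_le_mul_left (h2.trans h1) (pow_pos hZc lam)
      exact (Nat.pow_le_pow_iff_right (by norm_num)).1 h3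
    have hWr : ((s : ℝ) + 1) * lam ≤ (S.card : ℝ) := by exact_mod_cast hW1
    have hW0 : (0 : ℝ) < (S.card : ℝ) := lt_of_lt_of_le (mul_pos hs0 hl0) hWr
    have hx0 : 0 < x := lt_of_lt_of_le (by positivity) hxs
    have hxW : 12 * Real.log 2 * ((s : ℝ) + 1) ≤ x * S.card := by
      have h1 : 12 * Real.log 2 ≤ x * lam := by
        have h2 : 12 * Real.log 2 / lam ≤ x := by
          refine le_trans ?_ hxs
          apply div_le_div_of_nonneg_right _ hl0.le
          linarith
        rwa [div_le_iff₀ hl0] at h2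
      calc 12 * Real.log 2 * ((s : ℝ) + 1) ≤ x * lam * ((s : ℝ) + 1) :=
            mul_le_mul_of_nonneg_right h1 hs0.le
        _ = x * (((s : ℝ) + 1) * lam) := by ring
        _ ≤ x * S.card := mul_le_mul_of_nonneg_left hWr hx0.le
    obtain ⟨w, hw⟩ : ∃ w : (Fin n → ZMod q) → ℕ, w = fun F => (sp F ∩ I).card := ⟨_, rfl⟩
    have hwe : ∀ F, (sp F ∩ I).card = w F := fun F => by rw [hw]
    simp only [hwe] at ih ⊢
    -- heavy part
    have heavy : ∑ F ∈ (N \ zs I H).filter (fun F => S.card ≤ 2 * w F), Real.exp (-x * (w F : ℝ)) ≤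
        ((zs I H).card : ℝ) * (1 / 16) ^ (s + 1) := by
      have h1 : ∀ F ∈ (N \ zs I H).filter (fun F => S.card ≤ 2 * w F),
          Real.exp (-x * (w F : ℝ)) ≤ (1 / 64) ^ (s + 1) := by
        intro F hF
        have h2 : (S.card : ℝ) ≤ 2 * w F := by exact_mod_cast (mem_filter.1 hF).2
        have h3 : -x * (w F : ℝ) ≤ ((s + 1 : ℕ) : ℝ) * (-(6 * Real.log 2)) := by
          push_cast
          nlinarith
        calc Real.exp (-x * (w F : ℝ)) ≤ Real.exp (((s + 1 : ℕ) : ℝ) * (-(6 * Real.log 2))) :=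
              Real.exp_le_exp.2 h3
          _ = Real.exp (-(6 * Real.log 2)) ^ (s + 1) := by rw [Real.exp_nat_mul]
          _ = (1 / 64) ^ (s + 1) := by
              congr 1
              rw [Real.exp_neg, show (6 : ℝ) * Real.log 2 = Real.log (2 ^ 6) by
                rw [Real.log_pow]; norm_num, Real.exp_log (by positivity)]
              norm_num
      have h4 : (((N \ zs I H).filter (fun F => S.card ≤ 2 * w F)).card : ℝ) ≤
          2 ^ (s + 2) * (zs I H).card := by
        have h5 : ((N \ zs I H).filter (fun F => S.card ≤ 2 * w F)).card ≤ 2 ^ (s + 1 + 1) * (zs I H).card :=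
          ((card_le_card ((filter_subset _ _).trans sdiff_subset)).trans hc.le)
        exact_mod_cast h5
      calc ∑ F ∈ (N \ zs I H).filter (fun F => S.card ≤ 2 * w F), Real.exp (-x * (w F : ℝ))
          ≤ (((N \ zs I H).filter (fun F => S.card ≤ 2 * w F)).card : ℝ) * (1 / 64) ^ (s + 1) := by
            rw [← nsmul_eq_mul]
            exact sum_le_card_nsmul _ _ _ h1
        _ ≤ 2 ^ (s + 2) * (zs I H).card * (1 / 64) ^ (s + 1) := mul_le_mul_of_nonneg_right h4 (by positivity)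
        _ = (zs I H).card * (2 * (1 / 32) ^ (s + 1)) := by
            rw [show (2 : ℝ) ^ (s + 2) = 2 * 2 ^ (s + 1) by ring,
              show (2 : ℝ) * 2 ^ (s + 1) * (zs I H).card * (1 / 64) ^ (s + 1) =
                (zs I H).card * (2 * (2 ^ (s + 1) * (1 / 64) ^ (s + 1))) by ring, ← mul_pow]
            norm_num
        _ ≤ (zs I H).card * (1 / 16) ^ (s + 1) := by
            apply mul_le_mul_of_nonneg_left _ hZr.le
            rw [show (1 : ℝ) / 16 = 2 * (1 / 32) by norm_num, mul_pow]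
            apply mul_le_mul_of_nonneg_right _ (by positivity)
            calc (2 : ℝ) = 2 ^ 1 := by norm_num
              _ ≤ 2 ^ (s + 1) := pow_le_pow_right₀ (by norm_num) (by omega)
    -- light part
    have light : ∑ F ∈ (N \ zs I H).filter (fun F => ¬ S.card ≤ 2 * w F), Real.exp (-x * (w F : ℝ)) ≤
        ((zs I H).card : ℝ) * ((1 - (1 / 16) ^ s) / 15) := by
      obtain ⟨y, hy⟩ : ∃ y : ℝ, y = x - 2 / S.card := ⟨_, rfl⟩
      have hy1 : (12 * Real.log 2 + 2 * hs s) / lam ≤ y := by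
        have h1 : 2 / (S.card : ℝ) ≤ 2 / (((s : ℝ) + 1) * lam) :=
          div_le_div_of_nonneg_left (by norm_num) (mul_pos hs0 hl0) hWr
        have h2 : (12 * Real.log 2 + 2 * hs (s + 1)) / lam =
            (12 * Real.log 2 + 2 * hs s) / lam + 2 / (((s : ℝ) + 1) * lam) := by
          rw [hss]
          field_simp
          ring
        rw [hy]
        rw [h2] at hx
        linarith
      have h1 : ∀ F ∈ (N \ zs I H).filter (fun F => ¬ S.card ≤ 2 * w F),
          Real.exp (-x * (w F : ℝ)) ≤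
            (S.card : ℝ)⁻¹ * ∑ u ∈ S, if F u = 0 then Real.exp (-y * (w F : ℝ)) else 0 := by
        intro F hF
        obtain ⟨hF1, hF2⟩ := mem_filter.1 hF
        have hFN : F ∈ N := (mem_sdiff.1 hF1).1
        rw [not_le] at hF2
        have h2 : (2 : ℝ) * w F < S.card := by exact_mod_cast hF2
        have h3 : ∑ u ∈ S, (if F u = 0 then Real.exp (-y * (w F : ℝ)) else 0) =
            ((S.card : ℝ) - w F) * Real.exp (-y * (w F : ℝ)) := by
          rw [← sum_filter, sum_const, nsmul_eq_mul]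
          congr 1
          have h4 : S.filter (fun u => F u = 0) = S \ (sp F ∩ I) := by
            ext u
            simp only [mem_filter, mem_sdiff, mem_inter, sp, mem_univ, true_and]
            constructor
            · rintro ⟨a1, a2⟩
              exact ⟨a1, fun h => h.1 a2⟩
            · rintro ⟨a1, a2⟩
              refine ⟨a1, ?_⟩
              by_contra h
              exact a2 ⟨h, hSI a1⟩
          have h5 : sp F ∩ I ⊆ S := by
            rw [hS]
            exact subset_biUnion_of_mem (fun F => sp F ∩ I) hFN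
          rw [h4, card_sdiff_of_subset h5, Nat.cast_sub (card_le_card h5), hwe]
        rw [h3]
        have h6 : Real.exp (-x * (w F : ℝ)) = Real.exp (-y * (w F : ℝ)) * Real.exp (-(2 * ((w F : ℝ) / S.card))) := by
          rw [← Real.exp_add]
          congr 1
          rw [hy]
          field_simp
          ring
        have h7 : Real.exp (-(2 * ((w F : ℝ) / S.card))) ≤ 1 - (w F : ℝ) / S.card := by
          obtain ⟨t, ht⟩ : ∃ t : ℝ, t = (w F : ℝ) / S.card := ⟨_, rfl⟩
          have t0 : 0 ≤ t := by rw [ht]; positivity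
          have t1 : t ≤ 1 / 2 := by
            rw [ht, div_le_iff₀ hW0]
            linarith
          rw [← ht, Real.exp_neg]
          have h8 : 1 + 2 * t ≤ Real.exp (2 * t) := by
            have := Real.add_one_le_exp (2 * t)
            linarith
          rw [inv_le_comm₀ (Real.exp_pos _) (by linarith)]
          refine le_trans ?_ h8
          rw [inv_le_iff_one_le_mul₀ (by linarith)]
          nlinarith
        rw [h6]
        calc Real.exp (-y * (w F : ℝ)) * Real.exp (-(2 * ((w F : ℝ) / S.card)))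
            ≤ Real.exp (-y * (w F : ℝ)) * (1 - (w F : ℝ) / S.card) :=
              mul_le_mul_of_nonneg_left h7 (Real.exp_pos _).le
          _ = (S.card : ℝ)⁻¹ * (((S.card : ℝ) - w F) * Real.exp (-y * (w F : ℝ))) := by
              field_simp
      have h9 : ∀ u ∈ S, ∑ F ∈ (N \ zs I H).filter (fun F => ¬ S.card ≤ 2 * w F),
          (if F u = 0 then Real.exp (-y * (w F : ℝ)) else 0) ≤
          ((zs I H).card : ℝ) * ((1 - (1 / 16) ^ s) / 15) := by
        intro u hu
        have hZu : zs I H ⊆ N.filter fun F => F u = 0 := by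
          intro F hF
          refine mem_filter.2 ⟨hZN hF, ?_⟩
          exact (mem_filter.1 hF).2 u (hSI hu)
        have hcu : (N.filter fun F => F u = 0).card < 2 ^ (s + 1) * (zs I H).card := by
          rw [hS] at hu
          obtain ⟨a, ha, hau⟩ := mem_biUnion.1 hu
          have hau2 : a u ≠ 0 := (mem_filter.1 (mem_inter.1 hau).1).2
          have h10 := half hN (zgrp_filter hN u) (filter_subset _ _) ha (fun h => hau2 (mem_filter.1 h).2)
          have h11 : 2 ^ (s + 1 + 1) * (zs I H).card = 2 * (2 ^ (s + 1) * (zs I H).card) := by ring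
          rw [h11] at hc
          omega
        refine le_trans ?_ (ih (N.filter fun F => F u = 0) (zgrp_filter hN u) hZu
          ((filter_subset _ _).trans hNH) hcu y hy1)
        rw [← sum_filter]
        apply sum_le_sum_of_subset_of_nonneg
        · intro F hF
          obtain ⟨hF1, hF2⟩ := mem_filter.1 hF
          obtain ⟨hF3, _⟩ := mem_filter.1 hF1
          obtain ⟨hF4, hF5⟩ := mem_sdiff.1 hF3
          exact mem_sdiff.2 ⟨mem_filter.2 ⟨hF4, hF2⟩, hF5⟩
        · intro F _ _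
          exact (Real.exp_pos _).le
      calc ∑ F ∈ (N \ zs I H).filter (fun F => ¬ S.card ≤ 2 * w F), Real.exp (-x * (w F : ℝ))
          ≤ ∑ F ∈ (N \ zs I H).filter (fun F => ¬ S.card ≤ 2 * w F),
            (S.card : ℝ)⁻¹ * ∑ u ∈ S, (if F u = 0 then Real.exp (-y * (w F : ℝ)) else 0) := sum_le_sum h1
        _ = (S.card : ℝ)⁻¹ * ∑ u ∈ S, ∑ F ∈ (N \ zs I H).filter (fun F => ¬ S.card ≤ 2 * w F),
            (if F u = 0 then Real.exp (-y * (w F : ℝ)) else 0) := by
            rw [← mul_sum, sum_comm]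
        _ ≤ (S.card : ℝ)⁻¹ * ∑ _u ∈ S, ((zs I H).card : ℝ) * ((1 - (1 / 16) ^ s) / 15) :=
            mul_le_mul_of_nonneg_left (sum_le_sum h9) (by positivity)
        _ = ((zs I H).card : ℝ) * ((1 - (1 / 16) ^ s) / 15) := by
            rw [sum_const, nsmul_eq_mul, ← mul_assoc, inv_mul_cancel₀ hW0.ne', one_mul]
    rw [← sum_filter_add_sum_filter_not (N \ zs I H) (fun F => S.card ≤ 2 * w F)]
    refine (add_le_add heavy light).trans (le_of_eq ?_)
    rw [hpow]
    ring

theorem zlm {a : ℝ} (ha : 0 < a) : ∃ C : ℕ, 0 < C ∧ ∀ (q n lam s0 : ℕ) (I : Finset (Fin n)) (H : Finset (Fin n → ZMod q)),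
    C * (Nat.log 2 s0 + 1) ≤ lam → Sg H → H.card ≤ 2 ^ s0 →
    (∀ N : Finset (Fin n → ZMod q), Sg N → zs I H ⊆ N → N ⊆ H →
      N.card ^ lam ≤ (zs I H).card ^ lam * 2 ^ (N.biUnion fun F => sp F ∩ I).card) →
    ∑ F ∈ H \ zs I H, Real.exp (-a * ((sp F ∩ I).card : ℝ)) < ((zs I H).card : ℝ) := by
  refine ⟨⌈13 / a⌉₊ + 1, by omega, ?_⟩
  intro q n lam s0 I H hC hH hHc hyp
  have hlam : 0 < lam := lt_of_lt_of_le (by positivity) hC
  have hl0 : (0 : ℝ) < lam := by exact_mod_cast hlam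
  have hZc : 0 < (zs I H).card := card_pos.2 ⟨0, mem_filter.2 ⟨zgrp_zero hH, fun u _ => rfl⟩⟩
  have hZr : (0 : ℝ) < ((zs I H).card : ℝ) := by exact_mod_cast hZc
  have h1 : (12 * Real.log 2 + 2 * hs s0) / lam ≤ a := by
    rw [div_le_iff₀ hl0]
    have h2 := hs_le s0
    have h3 := Real.log_two_lt_d9
    have h4 : (13 : ℝ) ≤ a * ((⌈13 / a⌉₊ + 1 : ℕ) : ℝ) := by
      have h5 : 13 / a ≤ (⌈13 / a⌉₊ : ℝ) := Nat.le_ceil _
      rw [div_le_iff₀ ha] at h5
      push_cast
      nlinarith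
    have h6 : (((⌈13 / a⌉₊ + 1 : ℕ) : ℝ)) * ((Nat.log 2 s0 : ℝ) + 1) ≤ lam := by exact_mod_cast hC
    have h7 : (0 : ℝ) ≤ (Nat.log 2 s0 : ℝ) := Nat.cast_nonneg _
    calc 12 * Real.log 2 + 2 * hs s0 ≤ 13 * ((Nat.log 2 s0 : ℝ) + 1) := by linarith
      _ ≤ a * ((⌈13 / a⌉₊ + 1 : ℕ) : ℝ) * ((Nat.log 2 s0 : ℝ) + 1) :=
          mul_le_mul_of_nonneg_right h4 (by linarith)
      _ = a * (((⌈13 / a⌉₊ + 1 : ℕ) : ℝ) * ((Nat.log 2 s0 : ℝ) + 1)) := by ring
      _ ≤ a * lam := mul_le_mul_of_nonneg_left h6 ha.le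
  have h2 := claim hlam I H hH hyp s0 H hH (filter_subset _ _) le_rfl
    (by
      calc H.card ≤ 2 ^ s0 := hHc
        _ < 2 ^ (s0 + 1) := Nat.pow_lt_pow_right (by norm_num) (by omega)
        _ ≤ 2 ^ (s0 + 1) * (zs I H).card := Nat.le_mul_of_pos_right _ hZc) a h1
  refine lt_of_le_of_lt h2 ?_
  have h3 : (0 : ℝ) < (1 / 16) ^ s0 := by positivity
  calc ((zs I H).card : ℝ) * ((1 - (1 / 16) ^ s0) / 15) < ((zs I H).card : ℝ) * 1 := by
        apply mul_lt_mul_of_pos_left _ hZr
        linarith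
    _ = _ := mul_one _

end Pool.H86.MG
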