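import Mathlib
import Pool.Agent.H86.MG.Zlm
import Pool.Agent.H86.MG.Fog
import Pool.Agent.H86.MG.Cnt
import Pool.Agent.H86.MG.Prg

set_option autoImplicit false
set_option linter.unusedSectionVars false

/-!
# Module KEG (THEOREM LPg): the key lemma
-/

namespace Pool.H86.MG

open Finset Classical Pool.Agent.H3.Frg Pool.Agent.H3.Frg2 Pool.Agent.H3.Frg4 Pool.Agent.H55.QT Pool.H6.LD

theorem zs_rs {q n : ℕ} (U R : Finset (Fin n)) (H : Finset (Fin n → ZMod q)) : zs (U \ R) H = rs U H R := by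
  unfold zs rs
  refine filter_congr fun F _ => ?_
  constructor
  · intro h u hu hR
    exact h u (mem_sdiff.2 ⟨hu, hR⟩)
  · intro h u hu
    rw [mem_sdiff] at hu
    exact h u hu.1 hu.2

/-- closed sets satisfy the hypothesis of `zlm` -/
theorem cd_sup {q n lam : ℕ} {U R : Finset (Fin n)} {H : Finset (Fin n → ZMod q)} (hR : R ⊆ U) (hcd : Cd U lam H R)
    {N : Finset (Fin n → ZMod q)} (hNH : N ⊆ H) :
    N.card ^ lam ≤ (zs (U \ R) H).card ^ lam * 2 ^ (N.biUnion fun F => sp F ∩ (U \ R)).card := by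
  rw [zs_rs]
  obtain ⟨S, hS⟩ : ∃ S : Finset (Fin n), S = N.biUnion fun F => sp F ∩ (U \ R) := ⟨_, rfl⟩
  rw [← hS]
  have hSU : S ⊆ U \ R := by
    rw [hS]
    intro v hv
    rw [mem_biUnion] at hv
    obtain ⟨F, _, hF⟩ := hv
    exact (mem_inter.1 hF).2
  have h1 := hcd (R ∪ S) subset_union_left (union_subset hR (hSU.trans sdiff_subset))
  have h2 : (R ∪ S) \ R = S := by
    ext v
    rw [mem_sdiff, mem_union]
    constructor
    · rintro ⟨h, h'⟩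
      exact h.resolve_left h'
    · intro h
      exact ⟨Or.inr h, (mem_sdiff.1 (hSU h)).2⟩
  rw [h2] at h1
  refine le_trans (Nat.pow_le_pow_left (card_le_card ?_) lam) h1
  intro F hF
  unfold rs
  rw [mem_filter]
  refine ⟨hNH hF, fun u hu hR => ?_⟩
  rw [mem_union, not_or] at hR
  by_contra h3
  refine hR.2 ?_
  rw [hS, mem_biUnion]
  refine ⟨F, hF, mem_inter.2 ⟨?_, mem_sdiff.2 ⟨hu, hR.1⟩⟩⟩
  unfold sp
  rw [mem_filter]
  exact ⟨mem_univ _, h3⟩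

theorem keg (q : ℕ) [NeZero q] : ∃ C : ℕ, ∀ (n l1 l2 s0 : ℕ) (U R : Finset (Fin n)) (H : Finset (Fin n → ZMod q)),
    C ≤ l1 → C * (Nat.log 2 s0 + 1) ≤ l2 → Sg H → (db H).card ≤ 2 ^ s0 → R ⊆ U → Cd U l1 H R → Cd U l2 (db H) R →
    ∀ z0 z1 : Fin n → Bool, (∀ F ∈ rs U H R, lf F z1 = lf F z0) →
    ∃ z : Fin n → Bool, (∀ v, v ∉ U \ R → z v = z1 v) ∧ ∀ F ∈ H, lf F z = lf F z0 := by
  obtain ⟨a, ha, hfog⟩ := fog q
  obtain ⟨C1, hC1, hz⟩ := zlm (half_pos ha)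
  obtain ⟨C2, hC2⟩ := exists_nat_ge (2 / a)
  refine ⟨C1 + C2, fun n l1 l2 s0 U R H hl1 hl2 hH hcard hR hcd1 hcd2 z0 z1 h0 => ?_⟩
  have hl0 : 0 < l1 := by omega
  have hlr : (0 : ℝ) < l1 := by exact_mod_cast hl0
  have hla : Real.log 2 / l1 ≤ a / 2 := by
    have h1 : 2 / a ≤ l1 := hC2.trans (by exact_mod_cast (by omega : C2 ≤ l1))
    rw [div_le_iff₀ ha] at h1
    have h2 : Real.log 2 ≤ 1 := by
      have := Real.log_two_lt_d9
      linarith
    rw [div_le_div_iff₀ hlr (by norm_num)]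
    linarith
  refine hfog n (U \ R) H hH z0 z1 (by rw [zs_rs]; exact h0) ?_
  have h1 := cnt hl0 a hH hR hcd1
  have h2 := hz q n l2 s0 (U \ R) (db H) (le_trans (Nat.mul_le_mul_right _ (by omega)) hl2) (sg_db hH) hcard
    fun N _ _ hN => cd_sup hR hcd2 hN
  have h3 : ∑ G ∈ db H \ zs (U \ R) (db H), Real.exp (-(a - Real.log 2 / l1) * ((sp G ∩ (U \ R)).card : ℝ)) ≤
      ∑ G ∈ db H \ zs (U \ R) (db H), Real.exp (-(a / 2) * ((sp G ∩ (U \ R)).card : ℝ)) := by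
    refine sum_le_sum fun G _ => Real.exp_le_exp.2 ?_
    refine mul_le_mul_of_nonneg_right ?_ (Nat.cast_nonneg _)
    linarith
  have h4 : (0 : ℝ) < ((zs (U \ R) H).card : ℝ) := by
    rw [zs_rs]
    exact_mod_cast card_pos.2 (sg_rs U R hH).1
  have h5 : (0 : ℝ) < ((zs (U \ R) (db H)).card : ℝ) := by
    rw [zs_rs]
    exact_mod_cast card_pos.2 (sg_rs U R (sg_db hH)).1
  have h6 := h1.trans_lt (mul_lt_mul_of_pos_left (h3.trans_lt h2) h4)
  rw [mul_comm (((zs (U \ R) H).card : ℝ))] at h6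
  exact lt_of_mul_lt_mul_left h6 h5.le

end Pool.H86.MG
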