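import Mathlib
import Pool.Agent.H86.MG.Keg
import Pool.Agent.H86.MG.Prg
import Pool.Agent.H86.MG.Hlf

set_option autoImplicit false
set_option linter.unusedSectionVars false

/-!
# Module CMG (THEOREM LPg): worlds with commitments to the values of parities and `MOD_q` gates
-/

namespace Pool.H86.MG

open Finset Classical Pool.Agent.H3.Frg Pool.Agent.H3.Frg2 Pool.Agent.H3.Frg4 Pool.Agent.H55.QT Pool.H6.LD

variable {q n : ℕ}

theorem rg2_sub (U : Finset (Fin n)) (l1 l2 : ℕ) (H : Finset (Fin n → ZMod q)) (D : Finset (Fin n)) :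
    D ⊆ Rg2 U l1 l2 H D := fun v hv => by
  unfold Rg2
  rw [mem_union, mem_union]
  exact Or.inl (Or.inl hv)

theorem rg2_mono {U : Finset (Fin n)} {l1 l2 : ℕ} {H H' : Finset (Fin n → ZMod q)} (h : Sg H) (h' : Sg H') (hH : H ⊆ H')
    {D D' : Finset (Fin n)} (hD : D ⊆ D') : Rg2 U l1 l2 H D ⊆ Rg2 U l1 l2 H' D' := by
  unfold Rg2
  have h1 := cl2_mono (U := U) (l1 := l1) (l2 := l2) h h' hH hD
  refine union_subset_union (union_subset_union hD h1) ?_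
  exact biUnion_subset_biUnion_of_subset_left _ (rs_mono hH h1)

theorem sp_mem2 {f : Fin n → ZMod q} {v : Fin n} : v ∈ sp f ↔ f v ≠ 0 := by
  unfold sp
  rw [mem_filter]
  exact ⟨fun h => h.2, fun h => ⟨mem_univ _, h⟩⟩

theorem rg2_inter (U : Finset (Fin n)) (l1 l2 : ℕ) (H : Finset (Fin n → ZMod q)) (D : Finset (Fin n)) :
    Rg2 U l1 l2 H D ∩ U ⊆ Cl2 U l1 l2 H D := by
  intro v hv
  unfold Rg2 at hv
  rw [mem_inter, mem_union, mem_union, mem_biUnion] at hv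
  obtain ⟨(h | h) | ⟨F, hF, h⟩, hU⟩ := hv
  · exact cl2_sup U l1 l2 H D (mem_inter.2 ⟨h, hU⟩)
  · exact h
  · by_contra h1
    unfold rs at hF
    rw [mem_filter] at hF
    exact sp_mem2.1 h (hF.2 v hU h1)

theorem rg2_card {U : Finset (Fin n)} {l1 l2 s1 s0 K K2 δ : ℕ} {H : Finset (Fin n → ZMod q)} (h : Sg H) (hc : H.card ≤ 2 ^ s1)
    (hc2 : (db H).card ≤ 2 ^ s0)
    (hδ : ∀ F ∈ H, (sp F ∩ U).card ≤ K2 → (sp F).card ≤ δ) {D : Finset (Fin n)} (hD : D.card ≤ K)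
    (hK : K + (l1 * s1 + l2 * s0) ≤ K2) : (Rg2 U l1 l2 H D).card ≤ K + (l1 * s1 + l2 * s0) + 2 * δ := by
  have h1 := cl2_card (U := U) (l1 := l1) (l2 := l2) h hc hc2 D
  have h2 : (D ∪ Cl2 U l1 l2 H D).card ≤ K + (l1 * s1 + l2 * s0) := by
    have h3 : D ∪ Cl2 U l1 l2 H D = D ∪ (Cl2 U l1 l2 H D \ D) := by
      rw [union_sdiff_self_eq_union]
    rw [h3]
    exact (card_union_le _ _).trans (Nat.add_le_add hD h1)
  have h4 : ((rs U H (Cl2 U l1 l2 H D)).biUnion sp).card ≤ 2 * δ := by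
    refine hlf (sg_rs U _ h) fun F hF => ?_
    unfold rs at hF
    rw [mem_filter] at hF
    refine hδ F hF.1 ?_
    refine le_trans (card_le_card ?_) (h2.trans hK)
    intro v hv
    rw [mem_inter] at hv
    rw [mem_union]
    right
    by_contra h5
    exact sp_mem2.1 hv.1 (hF.2 v hv.2 h5)
  unfold Rg2
  exact (card_union_le _ _).trans (Nat.add_le_add h2 h4)

/-- The key lemma for two groups. -/
def KeyP2 (q C : ℕ) : Prop := ∀ (n l1 l2 s0 : ℕ) (U R : Finset (Fin n)) (H : Finset (Fin n → ZMod q)),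
    C ≤ l1 → C * (Nat.log 2 s0 + 1) ≤ l2 → Sg H → (db H).card ≤ 2 ^ s0 → R ⊆ U → Cd U l1 H R → Cd U l2 (db H) R →
    ∀ z0 z1 : Fin n → Bool, (∀ F ∈ rs U H R, lf F z1 = lf F z0) →
    ∃ z : Fin n → Bool, (∀ v, v ∉ U \ R → z v = z1 v) ∧ ∀ F ∈ H, lf F z = lf F z0

/-- The extension of a state with commitments to a larger set of relevant variables. -/
theorem exw2 {q C : ℕ} [NeZero q] (hkey : KeyP2 q C) : ∀ (n l1 l2 s0 Kc : ℕ) (U : Finset (Fin n))
    (Con : Finset (Fin n) → (Fin n → Bool) → Prop), Wld Con Kc →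
    (∀ D (y y' : Fin n → Bool), (∀ v, v ∉ U → y v = y' v) → Con D y → Con D y') →
    C ≤ l1 → C * (Nat.log 2 s0 + 1) ≤ l2 → ∀ H : Finset (Fin n → ZMod q), Sg H → (db H).card ≤ 2 ^ s0 →
    ∀ (D A : Finset (Fin n)) (z : Fin n → Bool), Con (Rg2 U l1 l2 H D) z → Rg2 U l1 l2 H D ⊆ A → A.card ≤ Kc →
    ∃ z' : Fin n → Bool, (∀ v ∈ Rg2 U l1 l2 H D, z' v = z v) ∧ Con A z' ∧ ∀ F ∈ H, lf F z' = lf F z := by
  intro n l1 l2 s0 Kc U Con hW hins hl1 hl2 H hH hcard D A z hz hA hAK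
  obtain ⟨u, hu, hAu⟩ := hW.extS (D := Rg2 U l1 l2 H D) (S := A) (x := z) (by rw [union_eq_right.2 hA]; exact hAK) hz
  rw [union_eq_right.2 hA] at hAu
  obtain ⟨z1, hz1⟩ : ∃ z1 : Fin n → Bool, z1 = fun v => if v ∈ A ∧ v ∉ U then u v else z v := ⟨_, rfl⟩
  have hz1a : ∀ v ∈ Rg2 U l1 l2 H D, z1 v = z v := by
    intro v hv
    rw [hz1]
    dsimp only
    split_ifs
    · exact hu v hv
    · rfl
  obtain ⟨hc1, hc2⟩ := cl2_cd U l1 l2 hH D
  obtain ⟨z', hz', hF⟩ := hkey n l1 l2 s0 U (Cl2 U l1 l2 H D) H hl1 hl2 hH hcard (cl2_sub U l1 l2 H D) hc1 hc2 z z1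
    (fun F hF => lf_cg F fun v hv => hz1a v (by
      unfold Rg2
      rw [mem_union, mem_biUnion]
      exact Or.inr ⟨F, hF, hv⟩))
  refine ⟨z', fun v hv => ?_, ?_, hF⟩
  · rw [hz' v fun h => ?_]
    · exact hz1a v hv
    · rw [mem_sdiff] at h
      exact h.2 (rg2_inter U l1 l2 H D (mem_inter.2 ⟨hv, h.1⟩))
  · have h1 : Con A fun v => if v ∈ U then u v else z' v := by
      refine hW.cong A u _ (fun v hv => ?_) hAu
      split_ifs with h2
      · rfl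
      · rw [hz' v fun h => h2 (mem_sdiff.1 h).1, hz1]
        dsimp only
        rw [if_pos ⟨hv, h2⟩]
    exact hins A _ z' (fun v hv => if_neg hv) h1

theorem cl2_zero (U : Finset (Fin n)) (l1 l2 : ℕ) (D : Finset (Fin n)) : Rg2 U l1 l2 ({0} : Finset (Fin n → ZMod q)) D = D := by
  have h0 : ∀ R : Finset (Fin n), rs U ({0} : Finset (Fin n → ZMod q)) R = {0} := by
    intro R
    unfold rs
    rw [filter_singleton]
    exact if_pos fun _ _ _ => rfl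
  have h1 : ∀ lam, Cd U lam ({0} : Finset (Fin n → ZMod q)) (D ∩ U) := by
    intro lam R' _ _
    rw [h0, h0]
    exact Nat.le_mul_of_pos_right _ (by positivity)
  have hdb : db ({0} : Finset (Fin n → ZMod q)) = {0} := by
    unfold db
    rw [image_singleton, add_zero]
  have h2 := cl2_le (inter_subset_right (s₁ := D) (s₂ := U)) (Subset.refl _) (h1 l1) (by rw [hdb]; exact h1 l2)
  unfold Rg2
  rw [h0, singleton_biUnion]
  have h3 : sp (0 : Fin n → ZMod q) = ∅ := by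
    ext v
    rw [sp_mem2]
    simp
  rw [h3, union_empty, union_eq_left]
  exact h2.trans inter_subset_left

theorem cmm2 {q C : ℕ} [NeZero q] (hkey : KeyP2 q C) : ∀ (n l1 l2 s1 s0 K K2 Kc δ : ℕ) (U : Finset (Fin n))
    (Con : Finset (Fin n) → (Fin n → Bool) → Prop), Wld Con Kc →
    (∀ D (y y' : Fin n → Bool), (∀ v, v ∉ U → y v = y' v) → Con D y → Con D y') →
    C ≤ l1 → C * (Nat.log 2 s0 + 1) ≤ l2 → K + (l1 * s1 + l2 * s0) ≤ K2 → K + (l1 * s1 + l2 * s0) + 2 * δ ≤ Kc →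
    Cms Con K (GdM2 (q := q) U K2 δ s1 s0) (Wm2 Con U l1 l2) := by
  have hex := exw2 hkey
  intro n l1 l2 s1 s0 K K2 Kc δ U Con hW hins hl1 hl2 hK hKc
  have hmono : ∀ (G : Finset (Ga q n)) (c : Ga q n → Bool) (D D' : Finset (Fin n)) (x : Fin n → Bool), D ⊆ D' →
      Wm2 Con U l1 l2 G c D' x → Wm2 Con U l1 l2 G c D x := by
    rintro G c D D' x hD ⟨z, h1, h2, h3⟩
    exact ⟨z, fun v hv => h1 v (hD hv), h2, hW.mono _ _ _ (rg2_mono (spn_sg G) (spn_sg G) (Subset.refl _) hD) h3⟩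
  have hext : ∀ (G G' : Finset (Ga q n)) (c : Ga q n → Bool) (D D' : Finset (Fin n)) (y : Fin n → Bool), G ⊆ G' → D ⊆ D' →
      GdM2 U K2 δ s1 s0 G' → D'.card ≤ K → Wm2 Con U l1 l2 G c D y →
      ∃ z, (∀ v ∈ D, z v = y v) ∧ (∀ a ∈ G, pv z a = c a) ∧ Con (Rg2 U l1 l2 (spn G') D') z := by
    rintro G G' c D D' y hGG hDD hG hD ⟨z, h1, h2, h3⟩
    have h4 := rg2_card (spn_sg G') hG.1 hG.2.1 hG.2.2 hD hK
    have hcard : (db (spn G)).card ≤ 2 ^ s0 := (card_le_card (db_mono (spn_mono hGG))).trans hG.2.1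
    obtain ⟨z', hz', hA, hF⟩ := hex n l1 l2 s0 Kc U Con hW hins hl1 hl2 (spn G) (spn_sg G) hcard D
      (Rg2 U l1 l2 (spn G') D') z h3 (rg2_mono (spn_sg G) (spn_sg G') (spn_mono hGG) hDD) (h4.trans hKc)
    refine ⟨z', fun v hv => ?_, fun a ha => ?_, hA⟩
    · rw [hz' v (rg2_sub U l1 l2 _ D hv), h1 v hv]
    · rw [spn_pv hF a ha, h2 a ha]
  refine ⟨?_, ?_, ?_, ?_, ?_, ?_, ?_⟩
  · intro G c D y hG hWm
    refine ⟨?_, fun D D' x h h' => hmono G c D D' x h h', ?_, ?_⟩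
    · rintro D x y h ⟨z, h1, h2, h3⟩
      exact ⟨z, fun v hv => (h1 v hv).trans (h v hv), h2, h3⟩
    · intro D x v hD hWx
      obtain ⟨z, h1, h2, h3⟩ := hext G G c D (insert v D) x (Subset.refl _) (subset_insert _ _) hG
        ((card_insert_le _ _).trans hD) hWx
      exact ⟨z, h1, z, fun _ _ => rfl, h2, h3⟩
    · intro x
      obtain ⟨z, _, h2, h3⟩ := hmono G c ∅ D y (empty_subset _) hWm
      exact ⟨z, fun v hv => absurd hv (notMem_empty v), h2, h3⟩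
  · rintro G c D y ⟨z, h1, _, h3⟩
    exact hW.cong _ _ _ (fun v hv => h1 v hv) (hW.mono _ _ _ (rg2_sub U l1 l2 _ D) h3)
  · intro c D y hD
    refine ⟨y, fun _ _ => rfl, fun a ha => absurd ha (notMem_empty a), ?_⟩
    rw [spn_empty, cl2_zero]
    exact hD
  · rintro G G' c c' D y hG hc ⟨z, h1, h2, h3⟩
    exact ⟨z, h1, fun a ha => (h2 a (hG ha)).trans (hc a ha).symm,
      hW.mono _ _ _ (rg2_mono (spn_sg G') (spn_sg G) (spn_mono hG) (Subset.refl _)) h3⟩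
  · rintro G c S hS D y hD ⟨z, h1, h2, _⟩
    rw [← h2 S hS]
    exact (Atm.cg z y S fun v hv => h1 v (hD hv)).symm
  · intro G G' c D y hG' hG hD hWy
    obtain ⟨z, h1, h2, h3⟩ := hext G G' c D D y hG (Subset.refl _) hG' hD hWy
    exact ⟨fun a => pv z a, h2, z, h1, fun _ _ => rfl, h3⟩
  · rintro G c D y ⟨z, h1, h2, _⟩
    exact ⟨z, h1, h2⟩

end Pool.H86.MG
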