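import Mathlib
import Pool.Agent.H86.MG.Zlm
import Pool.Agent.H86.MG.Fou

set_option autoImplicit false
set_option linter.unusedSectionVars false

/-!
# Module KEY (THEOREM LPm): the key lemma

PROOF. `I = U \ R`, `zs I H = rs U H R` by definition; `a` from `fou q`, `C` from `zlm`. Hypothesis of `zlm`: for `N` with `Sg N`, `N ⊆ H` let `R' = R ∪ N.biUnion (fun F => sp F ∩ I) ⊆ U`: `N ⊆ rs U H R'`, and `R' \ R` is the union, so
`N.card ^ lam ≤ (rs U H R').card ^ lam ≤ (rs U H R).card ^ lam * 2 ^ (R' \ R).card`.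
-/

namespace Pool.H86.MG

open Finset Classical Pool.Agent.H3.Frg Pool.Agent.H3.Frg2 Pool.Agent.H3.Frg4 Pool.Agent.H55.QT Pool.H6.LD

/-- The key lemma for the modulus `q` with the constant `C`. -/
def KeyP (q C : ℕ) : Prop := ∀ (n lam s0 : ℕ) (U R : Finset (Fin n)) (H : Finset (Fin n → ZMod q)),
    C * (Nat.log 2 s0 + 1) ≤ lam → Sg H → H.card ≤ 2 ^ s0 → R ⊆ U → Cd U lam H R →
    ∀ z0 z1 : Fin n → Bool, (∀ F ∈ rs U H R, lf F z1 = lf F z0) →
    ∃ z : Fin n → Bool, (∀ v, v ∉ U \ R → z v = z1 v) ∧ ∀ F ∈ H, lf F z = lf F z0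

/-- Linear algebra modulo 2. -/
private theorem ext2 {n : ℕ} {H : Finset (Fin n → ZMod 2)} (hH : Sg H) (z0 : Fin n → Bool) (I : Finset (Fin n)) :
    ∀ z1 : Fin n → Bool, (∀ F ∈ H, (∀ u ∈ I, F u = 0) → lf F z1 = lf F z0) →
    ∃ z : Fin n → Bool, (∀ v, v ∉ I → z v = z1 v) ∧ ∀ F ∈ H, lf F z = lf F z0 := by
  induction I using Finset.induction_on with
  | empty =>
    intro z1 h
    exact ⟨z1, fun _ _ => rfl, fun F hF => h F hF fun u hu => absurd hu (notMem_empty u)⟩
  | insert v I hv ih =>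
    intro z1 h
    have hcg : ∀ (F : Fin n → ZMod 2) (β : Bool), F v = 0 → lf F (Function.update z1 v β) = lf F z1 := by
      intro F β hF
      refine lf_cg F fun w hw => ?_
      refine Function.update_of_ne (fun hwv => ?_) _ _
      unfold sp at hw
      rw [mem_filter, hwv] at hw
      exact hw.2 hF
    have hstep : ∃ β : Bool, ∀ F ∈ H, (∀ u ∈ I, F u = 0) → lf F (Function.update z1 v β) = lf F z0 := by
      by_cases h0 : ∃ F0 ∈ H, (∀ u ∈ I, F0 u = 0) ∧ F0 v ≠ 0
      · obtain ⟨F0, hF0, hI0, hv0⟩ := h0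
        have hone : ∀ a : ZMod 2, a ≠ 0 → a = 1 := by decide
        have hup : ∃ β : Bool, lf F0 (Function.update z1 v β) = lf F0 z0 := by
          have e1 : ∀ β : Bool, lf F0 (Function.update z1 v β) =
              (if β = true then 1 else 0) + ∑ w ∈ univ.erase v, if z1 w = true then F0 w else 0 := by
            intro β
            unfold lf
            rw [← add_sum_erase univ _ (mem_univ v), Function.update_self, hone _ hv0]
            refine congrArg _ (sum_congr rfl fun w hw => ?_)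
            rw [Function.update_of_ne (ne_of_mem_erase hw)]
          have e2 : ∀ a b : ZMod 2, ∃ β : Bool, (if β = true then (1 : ZMod 2) else 0) + a = b := by decide
          obtain ⟨β, hβ⟩ := e2 (∑ w ∈ univ.erase v, if z1 w = true then F0 w else 0) (lf F0 z0)
          exact ⟨β, by rw [e1, hβ]⟩
        obtain ⟨β, hβ⟩ := hup
        refine ⟨β, fun F hF hI => ?_⟩
        by_cases hFv : F v = 0
        · rw [hcg F β hFv]
          refine h F hF fun u hu => ?_
          rcases mem_insert.1 hu with hu | hu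
          · rw [hu]
            exact hFv
          · exact hI u hu
        · have e1 : (F - F0) v = 0 := by
            rw [Pi.sub_apply, hone _ hFv, hone _ hv0, sub_self]
          have e2 := h (F - F0) (hH.2 F hF F0 hF0) fun u hu => by
            rcases mem_insert.1 hu with hu | hu
            · rw [hu]
              exact e1
            · rw [Pi.sub_apply, hI u hu, hI0 u hu, sub_self]
          have e3 := hcg (F - F0) β e1
          rw [← e3, lf_sub, lf_sub, hβ] at e2
          exact sub_left_inj.1 e2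
      · push Not at h0
        refine ⟨z1 v, fun F hF hI => ?_⟩
        rw [Function.update_eq_self]
        refine h F hF fun u hu => ?_
        rcases mem_insert.1 hu with hu | hu
        · rw [hu]
          exact h0 F hF hI
        · exact hI u hu
    obtain ⟨β, hβ⟩ := hstep
    obtain ⟨z, hz, hF⟩ := ih _ hβ
    refine ⟨z, fun w hw => ?_, hF⟩
    rw [mem_insert, not_or] at hw
    rw [hz w hw.2, Function.update_of_ne hw.1]

theorem key2 : KeyP 2 0 := by
  intro n lam s0 U R H _ hH _ _ _ z0 z1 h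
  refine ext2 hH z0 (U \ R) z1 fun F hF hu => h F ?_
  unfold rs
  rw [mem_filter]
  exact ⟨hF, fun u hU hR => hu u (mem_sdiff.2 ⟨hU, hR⟩)⟩

theorem key (q : ℕ) [NeZero q] : ∃ C : ℕ, KeyP q C := by
  obtain ⟨a, ha, hfou⟩ := fou q
  obtain ⟨C, hC, hz⟩ := zlm ha
  refine ⟨C, fun n lam s0 U R H hlam hH hcard hR hcd z0 z1 h0 => ?_⟩
  have e1 : zs (U \ R) H = rs U H R := by
    unfold zs rs
    refine filter_congr fun F _ => ?_
    constructor
    · intro h u hu hR
      exact h u (mem_sdiff.2 ⟨hu, hR⟩)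
    · intro h u hu
      rw [mem_sdiff] at hu
      exact h u hu.1 hu.2
  refine hfou n (U \ R) H hH z0 z1 (by rw [e1]; exact h0) (hz q n lam s0 (U \ R) H hlam hH hcard fun N hN hZN hNH => ?_)
  rw [e1]
  obtain ⟨S, hS⟩ : ∃ S : Finset (Fin n), S = N.biUnion fun F => sp F ∩ (U \ R) := ⟨_, rfl⟩
  rw [← hS]
  have hSU : S ⊆ U \ R := by
    rw [hS]
    intro v hv
    rw [mem_biUnion] at hv
    obtain ⟨F, _, hF⟩ := hv
    exact (mem_inter.1 hF).2
  have h1 := hcd (R ∪ S) subset_union_left (union_subset hR (hSU.trans sdiff_subset))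
  have h2 : (R ∪ S) \ R = S := by
    ext v
    rw [mem_sdiff, mem_union]
    constructor
    · rintro ⟨h, h'⟩
      exact h.resolve_left h'
    · intro h
      exact ⟨Or.inr h, (mem_sdiff.1 (hSU h)).2⟩
  rw [h2] at h1
  refine le_trans (Nat.pow_le_pow_left (card_le_card ?_) lam) h1
  intro F hF
  unfold rs
  rw [mem_filter]
  refine ⟨hNH hF, fun u hu hR => ?_⟩
  rw [mem_union, not_or] at hR
  by_contra h3
  refine hR.2 ?_
  rw [hS, mem_biUnion]
  refine ⟨F, hF, mem_inter.2 ⟨?_, mem_sdiff.2 ⟨hu, hR.1⟩⟩⟩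
  unfold sp
  rw [mem_filter]
  exact ⟨mem_univ _, h3⟩

/-- The key lemma, with the constant 0 for the modulus 2. -/
theorem key' (q : ℕ) [NeZero q] : ∃ C : ℕ, KeyP q C ∧ (q = 2 → C = 0) := by
  by_cases h : q = 2
  · subst h
    exact ⟨0, key2, fun _ => rfl⟩
  · obtain ⟨C, hC⟩ := key q
    exact ⟨C, hC, fun h' => absurd h' h⟩

end Pool.H86.MG
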