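import Mathlib
import Pool.Agent.H86.MG.Key
import Pool.Agent.H86.MG.Prd
import Pool.Agent.H86.MG.Hlf

set_option autoImplicit false
set_option linter.unusedSectionVars false

/-!
# Module CMM (THEOREM LPm): worlds with commitments to the values of `MOD_q` gates
-/

namespace Pool.H86.MG

open Finset Classical Pool.Agent.H3.Frg Pool.Agent.H3.Frg2 Pool.Agent.H3.Frg4 Pool.Agent.H55.QT Pool.H6.LD

variable {q n : ℕ}

theorem rg_sub (U : Finset (Fin n)) (lam : ℕ) (H : Finset (Fin n → ZMod q)) (D : Finset (Fin n)) :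
    D ⊆ Rg U lam H D := fun v hv => by
  unfold Rg
  rw [mem_union, mem_union]
  exact Or.inl (Or.inl hv)

theorem rg_mono {U : Finset (Fin n)} {lam : ℕ} {H H' : Finset (Fin n → ZMod q)} (h : Sg H) (h' : Sg H') (hH : H ⊆ H')
    {D D' : Finset (Fin n)} (hD : D ⊆ D') : Rg U lam H D ⊆ Rg U lam H' D' := by
  unfold Rg
  have h1 := cl_mono (U := U) (lam := lam) h h' hH hD
  refine union_subset_union (union_subset_union hD h1) ?_
  exact biUnion_subset_biUnion_of_subset_left _ (rs_mono hH h1)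

theorem sp_mem {f : Fin n → ZMod q} {v : Fin n} : v ∈ sp f ↔ f v ≠ 0 := by
  unfold sp
  rw [mem_filter]
  exact ⟨fun h => h.2, fun h => ⟨mem_univ _, h⟩⟩

theorem rg_inter (U : Finset (Fin n)) (lam : ℕ) (H : Finset (Fin n → ZMod q)) (D : Finset (Fin n)) :
    Rg U lam H D ∩ U ⊆ Cl U lam H D := by
  intro v hv
  unfold Rg at hv
  rw [mem_inter, mem_union, mem_union, mem_biUnion] at hv
  obtain ⟨(h | h) | ⟨F, hF, h⟩, hU⟩ := hv
  · exact cl_sup U lam H D (mem_inter.2 ⟨h, hU⟩)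
  · exact h
  · by_contra h1
    unfold rs at hF
    rw [mem_filter] at hF
    exact sp_mem.1 h (hF.2 v hU h1)

theorem rg_card {U : Finset (Fin n)} {lam s0 K K2 δ : ℕ} {H : Finset (Fin n → ZMod q)} (h : Sg H) (hc : H.card ≤ 2 ^ s0)
    (hδ : ∀ F ∈ H, (sp F ∩ U).card ≤ K2 → (sp F).card ≤ δ) {D : Finset (Fin n)} (hD : D.card ≤ K)
    (hK : K + lam * s0 ≤ K2) : (Rg U lam H D).card ≤ K + lam * s0 + 2 * δ := by
  have h1 := cl_card (U := U) (lam := lam) h hc D
  have h2 : (D ∪ Cl U lam H D).card ≤ K + lam * s0 := by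
    have h3 : D ∪ Cl U lam H D = D ∪ (Cl U lam H D \ D) := by
      rw [union_sdiff_self_eq_union]
    rw [h3]
    exact (card_union_le _ _).trans (Nat.add_le_add hD h1)
  have h4 : ((rs U H (Cl U lam H D)).biUnion sp).card ≤ 2 * δ := by
    refine hlf (sg_rs U _ h) fun F hF => ?_
    unfold rs at hF
    rw [mem_filter] at hF
    refine hδ F hF.1 ?_
    refine le_trans (card_le_card ?_) (h2.trans hK)
    intro v hv
    rw [mem_inter] at hv
    rw [mem_union]
    right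
    by_contra h5
    exact sp_mem.1 hv.1 (hF.2 v hv.2 h5)
  unfold Rg
  exact (card_union_le _ _).trans (Nat.add_le_add h2 h4)

/-- The extension of a state with commitments to a larger set of relevant variables. -/
theorem exw {q C : ℕ} [NeZero q] (hkey : KeyP q C) : ∀ (n lam s0 Kc : ℕ) (U : Finset (Fin n))
    (Con : Finset (Fin n) → (Fin n → Bool) → Prop), Wld Con Kc →
    (∀ D (y y' : Fin n → Bool), (∀ v, v ∉ U → y v = y' v) → Con D y → Con D y') →
    C * (Nat.log 2 s0 + 1) ≤ lam → ∀ H : Finset (Fin n → ZMod q), Sg H → H.card ≤ 2 ^ s0 →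
    ∀ (D A : Finset (Fin n)) (z : Fin n → Bool), Con (Rg U lam H D) z → Rg U lam H D ⊆ A → A.card ≤ Kc →
    ∃ z' : Fin n → Bool, (∀ v ∈ Rg U lam H D, z' v = z v) ∧ Con A z' ∧ ∀ F ∈ H, lf F z' = lf F z := by
  intro n lam s0 Kc U Con hW hins hlam H hH hcard D A z hz hA hAK
  obtain ⟨u, hu, hAu⟩ := hW.extS (D := Rg U lam H D) (S := A) (x := z) (by rw [union_eq_right.2 hA]; exact hAK) hz
  rw [union_eq_right.2 hA] at hAu
  obtain ⟨z1, hz1⟩ : ∃ z1 : Fin n → Bool, z1 = fun v => if v ∈ A ∧ v ∉ U then u v else z v := ⟨_, rfl⟩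
  have hz1a : ∀ v ∈ Rg U lam H D, z1 v = z v := by
    intro v hv
    rw [hz1]
    dsimp only
    split_ifs
    · exact hu v hv
    · rfl
  obtain ⟨z', hz', hF⟩ := hkey n lam s0 U (Cl U lam H D) H hlam hH hcard (cl_sub U lam H D) (cl_cd U lam hH D) z z1
    (fun F hF => lf_cg F fun v hv => hz1a v (by
      unfold Rg
      rw [mem_union, mem_biUnion]
      exact Or.inr ⟨F, hF, hv⟩))
  refine ⟨z', fun v hv => ?_, ?_, hF⟩
  · rw [hz' v fun h => ?_]
    · exact hz1a v hv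
    · rw [mem_sdiff] at h
      exact h.2 (rg_inter U lam H D (mem_inter.2 ⟨hv, h.1⟩))
  · have h1 : Con A fun v => if v ∈ U then u v else z' v := by
      refine hW.cong A u _ (fun v hv => ?_) hAu
      split_ifs with h2
      · rfl
      · rw [hz' v fun h => h2 (mem_sdiff.1 h).1, hz1]
        dsimp only
        rw [if_pos ⟨hv, h2⟩]
    exact hins A _ z' (fun v hv => if_neg hv) h1

theorem cl_zero (U : Finset (Fin n)) (lam : ℕ) (D : Finset (Fin n)) : Rg U lam ({0} : Finset (Fin n → ZMod q)) D = D := by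
  have h0 : ∀ R : Finset (Fin n), rs U ({0} : Finset (Fin n → ZMod q)) R = {0} := by
    intro R
    unfold rs
    rw [filter_singleton]
    exact if_pos fun _ _ _ => rfl
  have h1 : Cd U lam ({0} : Finset (Fin n → ZMod q)) (D ∩ U) := by
    intro R' _ _
    rw [h0, h0]
    exact Nat.le_mul_of_pos_right _ (by positivity)
  have h2 := cl_le (inter_subset_right (s₁ := D) (s₂ := U)) (Subset.refl _) h1
  unfold Rg
  rw [h0, singleton_biUnion]
  have h3 : sp (0 : Fin n → ZMod q) = ∅ := by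
    ext v
    rw [sp_mem]
    simp
  rw [h3, union_empty, union_eq_left]
  exact h2.trans inter_subset_left

theorem cmm {q C : ℕ} [NeZero q] (hkey : KeyP q C) : ∀ (n lam s0 K K2 Kc δ : ℕ) (U : Finset (Fin n))
    (Con : Finset (Fin n) → (Fin n → Bool) → Prop), Wld Con Kc →
    (∀ D (y y' : Fin n → Bool), (∀ v, v ∉ U → y v = y' v) → Con D y → Con D y') →
    C * (Nat.log 2 s0 + 1) ≤ lam → K + lam * s0 ≤ K2 → K + lam * s0 + 2 * δ ≤ Kc →
    Cms Con K (GdM (q := q) U K2 δ s0) (Wm Con U lam) := by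
  have hex := exw hkey
  intro n lam s0 K K2 Kc δ U Con hW hins hlam hK hKc
  have hmono : ∀ (G : Finset (Ga q n)) (c : Ga q n → Bool) (D D' : Finset (Fin n)) (x : Fin n → Bool), D ⊆ D' →
      Wm Con U lam G c D' x → Wm Con U lam G c D x := by
    rintro G c D D' x hD ⟨z, h1, h2, h3⟩
    exact ⟨z, fun v hv => h1 v (hD hv), h2, hW.mono _ _ _ (rg_mono (spn_sg G) (spn_sg G) (Subset.refl _) hD) h3⟩
  have hext : ∀ (G G' : Finset (Ga q n)) (c : Ga q n → Bool) (D D' : Finset (Fin n)) (y : Fin n → Bool), G ⊆ G' → D ⊆ D' →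
      GdM U K2 δ s0 G' → D'.card ≤ K → Wm Con U lam G c D y →
      ∃ z, (∀ v ∈ D, z v = y v) ∧ (∀ a ∈ G, pv z a = c a) ∧ Con (Rg U lam (spn G') D') z := by
    rintro G G' c D D' y hGG hDD hG hD ⟨z, h1, h2, h3⟩
    have h4 := rg_card (spn_sg G') hG.1 hG.2 hD hK
    have hcard : (spn G).card ≤ 2 ^ s0 := (card_le_card (spn_mono hGG)).trans hG.1
    obtain ⟨z', hz', hA, hF⟩ := hex n lam s0 Kc U Con hW hins hlam (spn G) (spn_sg G) hcard D
      (Rg U lam (spn G') D') z h3 (rg_mono (spn_sg G) (spn_sg G') (spn_mono hGG) hDD) (h4.trans hKc)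
    refine ⟨z', fun v hv => ?_, fun a ha => ?_, hA⟩
    · rw [hz' v (rg_sub U lam _ D hv), h1 v hv]
    · rw [spn_pv hF a ha, h2 a ha]
  refine ⟨?_, ?_, ?_, ?_, ?_, ?_, ?_⟩
  · intro G c D y hG hWm
    refine ⟨?_, fun D D' x h h' => hmono G c D D' x h h', ?_, ?_⟩
    · rintro D x y h ⟨z, h1, h2, h3⟩
      exact ⟨z, fun v hv => (h1 v hv).trans (h v hv), h2, h3⟩
    · intro D x v hD hWx
      obtain ⟨z, h1, h2, h3⟩ := hext G G c D (insert v D) x (Subset.refl _) (subset_insert _ _) hG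
        ((card_insert_le _ _).trans hD) hWx
      exact ⟨z, h1, z, fun _ _ => rfl, h2, h3⟩
    · intro x
      obtain ⟨z, _, h2, h3⟩ := hmono G c ∅ D y (empty_subset _) hWm
      exact ⟨z, fun v hv => absurd hv (notMem_empty v), h2, h3⟩
  · rintro G c D y ⟨z, h1, _, h3⟩
    exact hW.cong _ _ _ (fun v hv => h1 v hv) (hW.mono _ _ _ (rg_sub U lam _ D) h3)
  · intro c D y hD
    refine ⟨y, fun _ _ => rfl, fun a ha => absurd ha (notMem_empty a), ?_⟩
    rw [spn_empty, cl_zero]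
    exact hD
  · rintro G G' c c' D y hG hc ⟨z, h1, h2, h3⟩
    exact ⟨z, h1, fun a ha => (h2 a (hG ha)).trans (hc a ha).symm,
      hW.mono _ _ _ (rg_mono (spn_sg G') (spn_sg G) (spn_mono hG) (Subset.refl _)) h3⟩
  · rintro G c S hS D y hD ⟨z, h1, h2, _⟩
    rw [← h2 S hS]
    exact (Atm.cg z y S fun v hv => h1 v (hD hv)).symm
  · intro G G' c D y hG' hG hD hWy
    obtain ⟨z, h1, h2, h3⟩ := hext G G' c D D y hG (Subset.refl _) hG' hD hWy
    exact ⟨fun a => pv z a, h2, z, h1, fun _ _ => rfl, h3⟩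
  · rintro G c D y ⟨z, h1, h2, _⟩
    exact ⟨z, h1, h2⟩

end Pool.H86.MG
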