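import Mathlib
import Pool.Agent.H6.LE.Wgt
import Pool.Agent.H86.MG.Bsc

set_option autoImplicit false
set_option linter.unusedSectionVars false

/-!
# Module WGT (THEOREM LP): basic facts on weights (by length)
-/

namespace Pool.H86.MG

open Finset Classical Pool.Agent.H3.Frg Pool.Agent.H3.Frg2 Pool.Agent.H3.Frg4 Pool.Agent.H55.QT Pool.H6.LD

variable {n k : ℕ} {V : Type} [Atm n V]

theorem wq_imp (A B : Fm V) : wq k (.imp A B) true = wq k (.imp A B) false + om k (sz (Fm.imp A B)) := rfl

theorem wq_pm (F : Fm V) : wq k F true ≤ wq k F false + om k (sz F) ∧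
    wq k F false ≤ wq k F true + om k (sz F) := by
  induction F with
  | var v => exact ⟨Nat.zero_le _, Nat.zero_le _⟩
  | neg A ih => exact ⟨ih.2, ih.1⟩
  | imp A B _ _ =>
    rw [wq_imp]
    exact ⟨le_rfl, by omega⟩

theorem lq_cons (p : Fm V × Bool) (l : List (Fm V × Bool)) : lq k (p :: l) = wq k p.1 p.2 + lq k l := by
  simp [lq]

theorem lq_append (l l' : List (Fm V × Bool)) : lq k (l ++ l') = lq k l + lq k l' := by
  simp [lq]

theorem lq_filter (l : List (Fm V × Bool)) (P : Fm V × Bool → Bool) :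
    lq k (l.filter P) ≤ lq k l := by
  induction l with
  | nil => simp [lq]
  | cons a l ih =>
    rw [List.filter_cons]
    split_ifs
    · rw [lq_cons, lq_cons]
      omega
    · rw [lq_cons]
      omega

theorem lq_mem {l : List (Fm V × Bool)} {p : Fm V × Bool} (h : p ∈ l) : wq k p.1 p.2 ≤ lq k l := by
  induction l with
  | nil => simp at h
  | cons a l ih =>
    rw [lq_cons]
    rcases List.mem_cons.1 h with rfl | h
    · omega
    · have := ih h
      omega

theorem cj_lq (F : Fm V) (b : Bool) : lq k (cj F b) = wq k F b := by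
  induction F generalizing b with
  | var v => simp [cj, lq]
  | neg A ih => exact ih _
  | imp A B ihA ihB =>
    cases b with
    | false =>
      simp only [cj, lq_append, ihA, ihB]
      rfl
    | true => simp [cj, lq]

theorem lq_flat (l : List (Fm V × Bool)) : lq k (l.flatMap fun p => cj p.1 p.2) = lq k l := by
  induction l with
  | nil => simp [lq]
  | cons a l ih => rw [List.flatMap_cons, lq_append, lq_cons, ih, cj_lq]

theorem dj_wq {F : Fm V} {b : Bool} {p : Fm V × Bool} (h : p ∈ dj F b) : wq k p.1 p.2 ≤ wq k F (!b) := by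
  have h1 := lq_mem (k := k) (cj_dj.1 h)
  rw [cj_lq] at h1
  refine le_trans ?_ h1
  rcases dj_form h with ⟨v, hv⟩ | ⟨A, B, hA, hb⟩
  · rw [hv]
    exact Nat.zero_le _
  · rw [hA, hb]
    show wq k (Fm.imp A B) false ≤ wq k (Fm.imp A B) true
    rw [wq_imp]
    omega

theorem dj_wq' {A B : Fm V} {p : Fm V × Bool} (h : p ∈ dj (.imp A B) true) :
    wq k p.1 p.2 + om k (sz (Fm.imp A B)) ≤ wq k (.imp A B) true := by
  have h1 := dj_wq (k := k) h
  have h2 : wq k (Fm.imp A B) (!true) = wq k (Fm.imp A B) false := rfl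
  rw [h2] at h1
  rw [wq_imp]
  omega

/-- the total weight of a formula -/
theorem mxq_neg (A : Fm V) : max (wq k (.neg A) true) (wq k (.neg A) false) =
    max (wq k A true) (wq k A false) := by
  show max (wq k A false) (wq k A true) = _
  exact max_comm _ _

theorem mxq_imp (A B : Fm V) : max (wq k A true) (wq k A false) ≤
    max (wq k (.imp A B) true) (wq k (.imp A B) false) ∧ max (wq k B true) (wq k B false) ≤
    max (wq k (.imp A B) true) (wq k (.imp A B) false) := by
  have h1 := (wq_pm (k := k) A)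
  have h2 := (wq_pm (k := k) B)
  have h3 : wq k (.imp A B) true = wq k A true + wq k B false + om k (sz (Fm.imp A B)) := rfl
  have h4 : sz (Fm.imp A B) = sz A + sz B := rfl
  have h5 := om_mono (k := k) (show sz A ≤ sz (Fm.imp A B) by omega)
  have h6 := om_mono (k := k) (show sz B ≤ sz (Fm.imp A B) by omega)
  constructor
  · refine (max_le ?_ ?_).trans (le_max_left _ _)
    · omega
    · omega
  · refine (max_le ?_ ?_).trans (le_max_left _ _)
    · omega
    · omega

theorem fewq_neg {M W : ℕ} {A : Fm V} (h : Fewq k M W (.neg A)) : Fewq k M W A := by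
  by_cases hp : Pc k (Fm.neg A)
  · obtain ⟨h1, h2⟩ := h
    rw [ps_piece hp] at h1 h2
    rw [sum_singleton, mxq_neg] at h2
    unfold Fewq
    rw [ps_piece (pc_neg.1 hp), sum_singleton]
    exact ⟨h1, h2⟩
  · obtain ⟨h1, h2⟩ := h
    rw [ps_neg hp] at h1 h2
    exact ⟨h1, h2⟩

theorem fewq_imp {M W : ℕ} {A B : Fm V} (h : Fewq k M W (.imp A B)) : Fewq k M W A ∧ Fewq k M W B := by
  by_cases hp : Pc k (Fm.imp A B)
  · obtain ⟨h1, h2⟩ := h
    rw [ps_piece hp] at h1 h2
    rw [sum_singleton] at h2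
    unfold Fewq
    rw [ps_piece (pc_imp hp).1, ps_piece (pc_imp hp).2, sum_singleton, sum_singleton]
    exact ⟨⟨h1, (mxq_imp A B).1.trans h2⟩, h1, (mxq_imp A B).2.trans h2⟩
  · obtain ⟨h1, h2⟩ := h
    rw [ps_imp hp] at h1 h2
    exact ⟨⟨(card_le_card subset_union_left).trans h1,
      (sum_le_sum_of_subset subset_union_left).trans h2⟩,
      (card_le_card subset_union_right).trans h1, (sum_le_sum_of_subset subset_union_right).trans h2⟩

theorem fewq_bind {M W : ℕ} {σ : ℕ → Fm V} (χ : Fm ℕ) (h : Fewq k M W (χ.bind σ)) :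
    ∀ i ∈ fv χ, Fewq k M W (σ i) := by
  induction χ with
  | var v =>
    intro i hi
    have h1 : fv (Fm.var v) = {v} := rfl
    rw [h1, mem_singleton] at hi
    rw [hi]
    exact h
  | neg A ih => exact ih (fewq_neg h)
  | imp A B ihA ihB =>
    intro i hi
    rw [mem_fv_imp] at hi
    rcases hi with hi | hi
    · exact ihA (fewq_imp h).1 i hi
    · exact ihB (fewq_imp h).2 i hi

/-- the atoms of a substitution instance -/
theorem fv_bind {σ : ℕ → Fm V} (χ : Fm ℕ) : ∀ i ∈ fv χ, fv (σ i) ⊆ fv (χ.bind σ) := by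
  induction χ with
  | var v =>
    intro i hi
    have h1 : fv (Fm.var v) = {v} := rfl
    rw [h1, mem_singleton] at hi
    rw [hi]
    exact subset_refl _
  | neg A ih => exact ih
  | imp A B ihA ihB =>
    intro i hi S hS
    rcases mem_fv_imp.1 hi with hi | hi
    · exact mem_fv_imp.2 (Or.inl (ihA i hi hS))
    · exact mem_fv_imp.2 (Or.inr (ihB i hi hS))

theorem lg_sub {F G : Fm V} (h : fv F ⊆ fv G) : lg k F ⊆ lg k G :=
  filter_subset_filter _ h

theorem lg_imp (A B : Fm V) : lg k A ⊆ lg k (.imp A B) ∧ lg k B ⊆ lg k (.imp A B) :=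
  ⟨lg_sub fun _ hS => mem_fv_imp.2 (Or.inl hS), lg_sub fun _ hS => mem_fv_imp.2 (Or.inr hS)⟩

theorem lg_bind {σ : ℕ → Fm V} (χ : Fm ℕ) {i : ℕ} (hi : i ∈ fv χ) : lg k (σ i) ⊆ lg k (χ.bind σ) :=
  lg_sub (fv_bind χ i hi)

end Pool.H86.MG
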