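import Mathlib
import Pool.Agent.H86.MG.TopA

set_option autoImplicit false
set_option linter.unusedSectionVars false

/-!
# Module TOPB (THEOREM LP): instances of sound schemes, modus ponens, hypotheses of bounded size, valid formulas with few atoms

As `LE/TopB`. New: `tt_fm` (the truth value of a formula whose short atoms are inside of `D` is the value given by `y` and the commitment),
`tt_val` (formulas which are valid for parities, with at most `k0` occurrences of atoms, are not false).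
-/

namespace Pool.H86.MG

open Finset Classical Pool.Agent.H3.Frg Pool.Agent.H3.Frg2 Pool.Agent.H3.Frg4 Pool.Agent.H55.QT Pool.H6.LD

variable {n K k : ℕ} {V : Type} [Atm n V] {W : Finset (Fin n) → (Fin n → Bool) → Prop} {cc : V → Bool} {thr : ℕ → ℕ}

private theorem len_leaves {V : Type} (F : Fm V) : F.leaves ≤ F.len := by
  induction F with
  | var v => exact le_rfl
  | neg A ih => exact ih.trans (Nat.le_succ _)
  | imp A B ihA ihB =>
    show A.leaves + B.leaves ≤ A.len + B.len + 1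
    omega

theorem mem_fs {F : Fm V} {v : Fin n} : v ∈ fs F ↔ ∃ S ∈ fv F, v ∈ vs S := by
  induction F with
  | var S =>
    show v ∈ vs S ↔ ∃ T ∈ ({S} : Finset V), v ∈ vs T
    simp
  | neg A ih => exact ih
  | imp A B ihA ihB =>
    show v ∈ fs A ∪ fs B ↔ _
    rw [mem_union, ihA, ihB]
    constructor
    · rintro (⟨S, hS, hv⟩ | ⟨S, hS, hv⟩)
      · exact ⟨S, mem_fv_imp.2 (Or.inl hS), hv⟩
      · exact ⟨S, mem_fv_imp.2 (Or.inr hS), hv⟩
    · rintro ⟨S, hS, hv⟩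
      rcases mem_fv_imp.1 hS with hS | hS
      · exact Or.inl ⟨S, hS, hv⟩
      · exact Or.inr ⟨S, hS, hv⟩

theorem fs_mono {F G : Fm V} (h : fv F ⊆ fv G) : fs F ⊆ fs G := by
  intro v hv
  obtain ⟨S, hS, hvS⟩ := mem_fs.1 hv
  exact mem_fs.2 ⟨S, h hS, hvS⟩

private theorem tt_mv (h : Wld W K) (hmono : Monotone thr) (h0 : 2 ≤ thr 0) (hk : k < thr 0) {θ : ℝ}
    (hθ : ∑ i ∈ range k, (thr i : ℝ) / (Nat.log 2 (thr (i + 1)) : ℝ) ^ 2 ≤ θ) (hθ0 : 0 ≤ θ) {M Mw kd : ℕ}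
    (hkd : θ * Mw + M * thr k ≤ kd) {σ : ℕ → Fm V} (S : Finset ℕ) (hcm : ∀ i ∈ S, Cm W cc k (σ i)) (hS : ∀ i ∈ S, Fewq k M Mw (σ i))
    {D : Finset (Fin n)} {x : Fin n → Bool} (hD : D.card + S.card * kd ≤ K) (hc : W D x) :
    ∃ D' y, ∃ v : ℕ → Bool, D ⊆ D' ∧ D'.card ≤ D.card + S.card * kd ∧ (∀ w ∈ D, y w = x w) ∧ W D' y ∧
      ∀ i ∈ S, TT W cc thr k D' y (σ i) (v i) := by
  induction S using Finset.induction_on with
  | empty =>
    refine ⟨D, x, fun _ => true, Subset.refl _, by simp, fun _ _ => rfl, hc, fun i hi => ?_⟩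
    simp at hi
  | insert a S ha ih =>
    rw [card_insert_of_notMem ha] at hD ⊢
    rw [Nat.add_mul, Nat.one_mul] at hD ⊢
    obtain ⟨D₁, y₁, v₁, h1, h2, h3, h4, h5⟩ := ih (fun i hi => hcm i (mem_insert_of_mem hi)) (fun i hi => hS i (mem_insert_of_mem hi)) (by omega)
    have hq := hS a (mem_insert_self a S)
    obtain ⟨D₂, y₂, g1, g2, g3, g4, g5⟩ := tt_dec h hmono h0 hk hθ hθ0 hkd (hcm a (mem_insert_self a S)) hq (D := D₁) (x := y₁)
      (by omega) h4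
    obtain ⟨b, hb⟩ : ∃ b, TT W cc thr k D₂ y₂ (σ a) b := by
      rcases g5 with g5 | g5
      · exact ⟨true, g5⟩
      · exact ⟨false, g5⟩
    refine ⟨D₂, y₂, Function.update v₁ a b, h1.trans g1, by omega,
      fun w hw => (g3 w (h1 hw)).trans (h3 w hw), g4, fun i hi => ?_⟩
    rcases mem_insert.1 hi with rfl | hi
    · rw [Function.update_self]
      exact hb
    · have hne : i ≠ a := fun h6 => ha (h6 ▸ hi)
      rw [Function.update_of_ne hne]
      exact tt_mono h g1 g3 (h5 i hi)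

private theorem tt_chi (h : Wld W K) (hmono : Monotone thr)
    {σ : ℕ → Fm V} {v : ℕ → Bool} (χ : Fm ℕ) (hcm : Cm W cc k (χ.bind σ)) :
    ∀ (D : Finset (Fin n)) (x : Fin n → Bool), (∀ i ∈ fv χ, TT W cc thr k D x (σ i) (v i)) →
      D.card + χ.len * thr k ≤ K → W D x →
      ∃ D' y, D ⊆ D' ∧ D'.card ≤ D.card + χ.len * thr k ∧ (∀ w ∈ D, y w = x w) ∧ W D' y ∧
        TT W cc thr k D' y (χ.bind σ) (χ.eval v) := by
  induction χ with
  | var i =>
    intro D x hv hD hc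
    refine ⟨D, x, Subset.refl _, Nat.le_add_right _ _, fun _ _ => rfl, hc, ?_⟩
    exact hv i (by show i ∈ ({i} : Finset ℕ); exact mem_singleton_self i)
  | neg A ih =>
    intro D x hv hD hc
    have e1 : (Fm.neg A).len = A.len + 1 := rfl
    rw [e1, Nat.add_mul] at hD
    obtain ⟨D', y, h1, h2, h3, h4, h5⟩ := ih hcm D x hv (by omega) hc
    refine ⟨D', y, h1, ?_, h3, h4, ?_⟩
    · rw [e1, Nat.add_mul]
      omega
    · show TT W cc thr k D' y (.neg (A.bind σ)) (!(A.eval v))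
      rw [tt_neg, Bool.not_not]
      exact h5
  | imp A B ihA ihB =>
    intro D x hv hD hc
    have e1 : (Fm.imp A B).len = A.len + B.len + 1 := rfl
    rw [e1, Nat.add_mul, Nat.add_mul, Nat.one_mul] at hD
    have hfA : ∀ i ∈ fv A, i ∈ fv (Fm.imp A B) := fun i hi => mem_fv_imp.2 (Or.inl hi)
    have hfB : ∀ i ∈ fv B, i ∈ fv (Fm.imp A B) := fun i hi => mem_fv_imp.2 (Or.inr hi)
    obtain ⟨D₁, y₁, h1, h2, h3, h4, h5⟩ := ihA hcm.l D x (fun i hi => hv i (hfA i hi)) (by omega) hc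
    obtain ⟨D₂, y₂, g1, g2, g3, g4, g5⟩ := ihB hcm.r D₁ y₁ (fun i hi => tt_mono h h1 h3 (hv i (hfB i hi)))
      (by omega) h4
    obtain ⟨D₃, y₃, k1, k2, k3, k4, k5⟩ := tt_imp h hmono hcm (by omega) g4 (tt_mono h g1 g3 h5) g5
    refine ⟨D₃, y₃, (h1.trans g1).trans k1, ?_, fun w hw => ?_, k4, k5⟩
    · rw [e1, Nat.add_mul, Nat.add_mul, Nat.one_mul]
      omega
    · rw [k3 w (g1 (h1 hw)), g3 w (h1 hw), h3 w hw]

theorem tt_ax (h : Wld W K) (hmono : Monotone thr) (h0 : 2 ≤ thr 0) (hk : k < thr 0) {θ : ℝ}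
    (hθ : ∑ i ∈ range k, (thr i : ℝ) / (Nat.log 2 (thr (i + 1)) : ℝ) ^ 2 ≤ θ) (hθ0 : 0 ≤ θ) {M Mw kd : ℕ}
    (hkd : θ * Mw + M * thr k ≤ kd) (hT : thr k ≤ kd) {ψ : Fm ℕ} {k0 : ℕ} (hk0 : ψ.len ≤ k0)
    (hψ : ∀ x : ℕ → Bool, ψ.eval x = true) {σ : ℕ → Fm V}
    (hcm : Cm W cc k (ψ.bind σ)) (hF : Fewq k M Mw (ψ.bind σ))
    {D : Finset (Fin n)} {x : Fin n → Bool} (hD : D.card + 3 * k0 * kd ≤ K) (hc : W D x) :
    ¬ TT W cc thr k D x (ψ.bind σ) false := by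
  intro hfalse
  have hcard : (fv ψ).card ≤ k0 := ((fv_card ψ).trans (len_leaves ψ)).trans hk0
  have hk01 : 1 ≤ k0 := ((leaves_pos ψ).trans (len_leaves ψ)).trans hk0
  have c1 : (fv ψ).card * kd ≤ k0 * kd := Nat.mul_le_mul_right _ hcard
  have c2 : ψ.len * thr k ≤ k0 * kd := Nat.mul_le_mul hk0 hT
  have c3 : thr k ≤ k0 * kd := hT.trans (Nat.le_mul_of_pos_left _ hk01)
  have c4 : 3 * k0 * kd = k0 * kd + k0 * kd + k0 * kd := by ring
  obtain ⟨D₁, y₁, v, h1, h2, h3, h4, h5⟩ := tt_mv h hmono h0 hk hθ hθ0 hkd (σ := σ) (fv ψ)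
    (fun i hi S hS => hcm S (fv_bind ψ i hi hS)) (fewq_bind ψ hF) (D := D) (x := x) (by omega) hc
  obtain ⟨D₂, y₂, g1, g2, g3, g4, g5⟩ := tt_chi h hmono (v := v) ψ hcm D₁ y₁ h5 (by omega) h4
  rw [hψ v] at g5
  have g6 : TT W cc thr k D₂ y₂ (ψ.bind σ) false :=
    tt_mono h (h1.trans g1) (fun w hw => (g3 w (h1 hw)).trans (h3 w hw)) hfalse
  exact tt_nb h hmono h0 (hk.le.trans (hmono (Nat.zero_le k))) hcm (by omega) g4 g5 g6

theorem tt_mp (h : Wld W K) (hmono : Monotone thr) (h0 : 2 ≤ thr 0) (hk : k < thr 0) {θ : ℝ}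
    (hθ : ∑ i ∈ range k, (thr i : ℝ) / (Nat.log 2 (thr (i + 1)) : ℝ) ^ 2 ≤ θ) (hθ0 : 0 ≤ θ) {M Mw kd : ℕ}
    (hkd : θ * Mw + M * thr k ≤ kd) {A B : Fm V}
    (hcm : Cm W cc k (.imp A B)) (hF : Fewq k M Mw A) {D : Finset (Fin n)}
    {x : Fin n → Bool} (hD : D.card + (kd + thr k) ≤ K) (hc : W D x) (hB : TT W cc thr k D x B false) :
    ∃ D' y, D ⊆ D' ∧ D'.card ≤ D.card + (kd + thr k) ∧ (∀ v ∈ D, y v = x v) ∧ W D' y ∧
      (TT W cc thr k D' y A false ∨ TT W cc thr k D' y (.imp A B) false) := by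
  obtain ⟨D₁, y₁, h1, h2, h3, h4, h5⟩ := tt_dec h hmono h0 hk hθ hθ0 hkd hcm.l hF (D := D) (x := x)
    (by omega) hc
  rcases h5 with h5 | h5
  · obtain ⟨D₂, y₂, g1, g2, g3, g4, g5⟩ := tt_imp h hmono hcm (by omega) h4 h5 (tt_mono h h1 h3 hB)
    exact ⟨D₂, y₂, h1.trans g1, by omega, fun v hv => (g3 v (h1 hv)).trans (h3 v hv), g4, Or.inr g5⟩
  · exact ⟨D₁, y₁, h1, by omega, h3, h4, Or.inl h5⟩

theorem tt_cl (h : Wld W K) {F : Fm V} (hcm : Cm W cc k F) {D : Finset (Fin n)} {x : Fin n → Bool}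
    (hF : ∀ y, W (fs F) y → F.eval (pv y) = true) (hD : D.card + sz F ≤ K) (hc : W D x) :
    ¬ TT W cc thr k D x F false := by
  intro h1
  have h2 : (D ∪ fs F).card ≤ K := by
    have h3 := card_union_le D (fs F)
    have h4 := fs_card F
    omega
  obtain ⟨y, hy1, hy2⟩ := h.extS h2 hc
  have h3 : TT W cc thr k (D ∪ fs F) y F false := tt_mono h subset_union_left hy1 h1
  have h4 := h3 (fun P => P.eval (pv y)) (fun P hP c hc => by
    refine Tr.lt h (hcm.ps hP) hc y (fun _ _ => rfl) ?_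
    have h5 : D ∪ fs F ∪ fs P = D ∪ fs F :=
      union_eq_left.2 ((fs_mono (ps_fv P hP)).trans subset_union_right)
    rw [h5]
    exact hy2)
  rw [evp_eval, hF y (h.mono _ _ _ subset_union_right hy2)] at h4
  exact Bool.noConfusion h4

/-- the value of a formula whose short atoms are inside of `D` -/
theorem tt_fm (h : Wld W K) (hmono : Monotone thr) (F : Fm V) (hcm : Cm W cc k F) :
    ∀ (D : Finset (Fin n)) (x : Fin n → Bool) (v : V → Bool),
      (∀ S ∈ fv F, (vs S).card ≤ k → vs S ⊆ D ∧ v S = pv x S) → (∀ S ∈ fv F, k < (vs S).card → v S = cc S) →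
      D.card + F.leaves * thr k ≤ K → W D x →
      ∃ D' y, D ⊆ D' ∧ D'.card + thr k ≤ D.card + F.leaves * thr k ∧ (∀ w ∈ D, y w = x w) ∧ W D' y ∧
        TT W cc thr k D' y F (F.eval v) := by
  induction F with
  | var S =>
    intro D x v hv1 hv2 hD hc
    have e1 : (Fm.var S).leaves = 1 := rfl
    have hS : S ∈ fv (Fm.var S) := by show S ∈ ({S} : Finset _); exact mem_singleton_self S
    refine ⟨D, x, Subset.refl _, by rw [e1, one_mul], fun _ _ => rfl, hc, ?_⟩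
    have hp : Pc k (Fm.var S) := ⟨by simp [alt], by simp [alt]⟩
    rw [tt_piece hp]
    by_cases hk : (vs S).card ≤ k
    · obtain ⟨g1, g2⟩ := hv1 S hS hk
      rw [tr_vars hk]
      exact lt_full g1 (g2.symm)
    · rw [tr_varl hk]
      exact (hv2 S hS (not_le.1 hk)).symm
  | neg A ih =>
    intro D x v hv1 hv2 hD hc
    obtain ⟨D', y, h1, h2, h3, h4, h5⟩ := ih hcm D x v hv1 hv2 hD hc
    refine ⟨D', y, h1, h2, h3, h4, ?_⟩
    show TT W cc thr k D' y (.neg A) (!(A.eval v))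
    rw [tt_neg, Bool.not_not]
    exact h5
  | imp A B ihA ihB =>
    intro D x v hv1 hv2 hD hc
    have e1 : (Fm.imp A B).leaves = A.leaves + B.leaves := rfl
    rw [e1, Nat.add_mul] at hD
    have hfA : ∀ i ∈ fv A, i ∈ fv (Fm.imp A B) := fun i hi => mem_fv_imp.2 (Or.inl hi)
    have hfB : ∀ i ∈ fv B, i ∈ fv (Fm.imp A B) := fun i hi => mem_fv_imp.2 (Or.inr hi)
    have hlA : thr k ≤ A.leaves * thr k := Nat.le_mul_of_pos_left _ (leaves_pos A)
    have hlB : thr k ≤ B.leaves * thr k := Nat.le_mul_of_pos_left _ (leaves_pos B)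
    obtain ⟨D₁, y₁, h1, h2, h3, h4, h5⟩ := ihA hcm.l D x v (fun S hS => hv1 S (hfA S hS))
      (fun S hS => hv2 S (hfA S hS)) (by omega) hc
    obtain ⟨D₂, y₂, g1, g2, g3, g4, g5⟩ := ihB hcm.r D₁ y₁ v (fun S hS hk => by
        obtain ⟨k1, k2⟩ := hv1 S (hfB S hS) hk
        refine ⟨k1.trans h1, k2.trans (pv_congr fun w hw => ?_)⟩
        exact (h3 w (k1 hw)).symm) (fun S hS => hv2 S (hfB S hS)) (by omega) h4
    obtain ⟨D₃, y₃, k1, k2, k3, k4, k5⟩ := tt_imp h hmono hcm (by omega) g4 (tt_mono h g1 g3 h5) g5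
    refine ⟨D₃, y₃, (h1.trans g1).trans k1, ?_, fun w hw => ?_, k4, k5⟩
    · rw [e1, Nat.add_mul]
      omega
    · rw [k3 w (g1 (h1 hw)), g3 w (h1 hw), h3 w hw]

/-- valid formulas with few occurrences of atoms are not false -/
theorem tt_val (h : Wld W K) (hmono : Monotone thr) (h0 : 2 ≤ thr 0) (hk : k < thr 0) {kd k0 : ℕ} (hT : thr k ≤ kd)
    {F : Fm V} (hcm : Cm W cc k F) (hF : F.leaves ≤ k0)
    {D : Finset (Fin n)} {x : Fin n → Bool} (hD : D.card + 3 * k0 * kd ≤ K) (hc : W D x)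
    (hreal : ∀ D y, W D y → ∃ z, (∀ v ∈ D, z v = y v) ∧ ∀ S ∈ lg k F, pv z S = cc S)
    (hv : ∀ z : Fin n → Bool, F.eval (pv z) = true) :
    ¬ TT W cc thr k D x F false := by
  intro hfalse
  have hk1 : k ≤ thr k := hk.le.trans (hmono (Nat.zero_le k))
  have hk01 : 1 ≤ k0 := (leaves_pos F).trans hF
  -- the union of the short atoms
  obtain ⟨E, hE⟩ : ∃ E : Finset (Fin n), E = ((fv F).filter fun S => (vs S).card ≤ k).biUnion fun S => vs S := ⟨_, rfl⟩
  have hEc : E.card ≤ k0 * kd := by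
    rw [hE]
    refine card_biUnion_le.trans ?_
    calc ∑ S ∈ (fv F).filter (fun S => (vs S).card ≤ k), (vs S).card
        ≤ ∑ S ∈ (fv F).filter (fun S => (vs S).card ≤ k), k := sum_le_sum fun S hS => (mem_filter.1 hS).2
      _ = ((fv F).filter fun S => (vs S).card ≤ k).card * k := by rw [sum_const, smul_eq_mul]
      _ ≤ k0 * kd := Nat.mul_le_mul ((card_filter_le _ _).trans ((fv_card F).trans hF)) (hk1.trans hT)
  have c2 : F.leaves * thr k ≤ k0 * kd := Nat.mul_le_mul hF hT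
  have c3 : thr k ≤ k0 * kd := hT.trans (Nat.le_mul_of_pos_left _ hk01)
  have c4 : 3 * k0 * kd = k0 * kd + k0 * kd + k0 * kd := by ring
  have c5 := card_union_le D E
  obtain ⟨y₁, h1, h2⟩ := h.extS (S := E) (by omega) hc
  obtain ⟨z, hz1, hz2⟩ := hreal _ _ h2
  obtain ⟨D₂, y₂, g1, g2, g3, g4, g5⟩ := tt_fm h hmono F hcm (D ∪ E) y₁ (pv z) (fun S hS hSk => by
      have h3 : vs S ⊆ D ∪ E := by
        refine Subset.trans ?_ subset_union_right
        rw [hE]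
        exact subset_biUnion_of_mem (fun S : V => vs S) (mem_filter.2 ⟨hS, hSk⟩)
      exact ⟨h3, pv_congr fun w hw => hz1 w (h3 hw)⟩)
    (fun S hS hSk => hz2 S (mem_filter.2 ⟨hS, hSk⟩)) (by omega) h2
  rw [hv z] at g5
  have g6 : TT W cc thr k D₂ y₂ F false :=
    tt_mono h (subset_union_left.trans g1) (fun w hw => (g3 w (mem_union_left _ hw)).trans (h1 w hw)) hfalse
  exact tt_nb h hmono h0 hk1 hcm (by omega) g4 g5 g6

end Pool.H86.MG
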