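import Mathlib
import Pool.Agent.H6.LD.Cnt
import Pool.Agent.H86.MG.Bsc

set_option autoImplicit false
set_option linter.unusedSectionVars false

/-!
# Module SPL (THEOREM LP): certificates for conjunctions of small formulas, two worlds

Induction on the number `w` of variables outside of `D` of the formulas that are not yet locally true in `Con` (`cla`). The tests
speak about the world `Con` only; the state `U' x'` and its extensions are states of the world `W`.
-/

namespace Pool.H86.MG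

open Finset Classical Pool.Agent.H3.Frg Pool.Agent.H3.Frg2 Pool.Agent.H3.Frg4 Pool.Agent.H55.QT Pool.H6.LD

/-- The small case: all formulas of the list have at most `A` leaves; certificates for local truth. -/
def SplP (sub : ℕ → ℝ → ℝ) (A q : ℕ) (c η : ℝ) (n : ℕ) (V : Type) [Atm n V] : Prop :=
  ∀ (Con : Finset (Fin n) → (Fin n → Bool) → Prop) (K k : ℕ), Wld Con K →
    (∀ A ν, 0 < ν → SubT Con A ν (sub A ν)) → c * n ≤ k →
    ∀ l : List (Fm V × Bool), (∀ p ∈ l, sz p.1 ≤ A) →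
    ∃ T : Finset (Tst n), (∀ t ∈ T, GT Con t) ∧ ∑ t ∈ T, wt q t ≤ 2 ^ (-η * n) ∧
      ∀ U x, (∀ t ∈ T, Hit U x t) → ∀ W : Finset (Fin n) → (Fin n → Bool) → Prop, Wld W K →
        (∀ D x, W D x → Con D x) → ∀ U' x', U ⊆ U' → (∀ v ∈ U, x' v = x v) → W U' x' →
        U'.card + k ≤ K → (∀ p ∈ l, Lt W U' x' p.1 p.2) →
        ∃ D y, D.card ≤ k ∧ (∀ v ∈ U', y v = x' v) ∧ W (U' ∪ D) y ∧ ∀ p ∈ l, Lt Con D y p.1 p.2

section

variable {n K : ℕ} {V : Type} [Atm n V] {Con : Finset (Fin n) → (Fin n → Bool) → Prop}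

private theorem wt_nonneg {q : ℕ} (hq : 1 ≤ q) (t : Tst n) : 0 ≤ wt q t := by
  unfold wt
  refine prod_nonneg fun p _ => ?_
  have h1 : (1 : ℝ) ≤ 2 * q := by
    have : (1 : ℝ) ≤ q := by exact_mod_cast hq
    linarith
  have h2 : (1 / (2 * q : ℝ)) ≤ 1 := by
    rw [div_le_one (by linarith)]
    exact h1
  have h3 : (1 / (2 * q : ℝ)) ^ p.1.card ≤ 1 := pow_le_one₀ (by positivity) h2
  linarith

private theorem wt_le {q A : ℕ} (hq : 1 ≤ q) {t : Tst n} (ht : ∀ p ∈ t, p.1.card ≤ A) :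
    wt q t ≤ (1 - (1 / (2 * q : ℝ)) ^ A) ^ t.card := by
  unfold wt
  have h1 : (1 : ℝ) ≤ 2 * q := by
    have : (1 : ℝ) ≤ q := by exact_mod_cast hq
    linarith
  have h2 : (1 / (2 * q : ℝ)) ≤ 1 := by
    rw [div_le_one (by linarith)]
    exact h1
  rw [← prod_const]
  refine prod_le_prod (fun p _ => ?_) fun p hp => ?_
  · have h3 : (1 / (2 * q : ℝ)) ^ p.1.card ≤ 1 := pow_le_one₀ (by positivity) h2
    linarith
  · have h3 : (1 / (2 * q : ℝ)) ^ A ≤ (1 / (2 * q : ℝ)) ^ p.1.card :=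
      pow_le_pow_of_le_one (by positivity) h2 (ht p hp)
    linarith

private theorem lt_congr (h : Wld Con K) {D : Finset (Fin n)} {y y' : Fin n → Bool} {F : Fm V} {b : Bool}
    (hy : ∀ v ∈ D, y' v = y v) (hl : Lt Con D y F b) : Lt Con D y' F b :=
  Lt.mono h (subset_refl _) hy hl

/-- maximal disjoint subfamily -/
private theorem max_dj (D : Finset (Fin n)) (S : Finset (Fm V × Bool))
    (hS : ∀ p ∈ S, (fs p.1 \ D).Nonempty) : ∃ F ⊆ S,
    (∀ p ∈ F, ∀ p' ∈ F, p ≠ p' → Disjoint (fs p.1 \ D) (fs p'.1 \ D)) ∧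
      ∀ p ∈ S, ∃ p' ∈ F, ¬ Disjoint (fs p.1 \ D) (fs p'.1 \ D) := by
  obtain ⟨F, hF, hmax⟩ := exists_max_image (S.powerset.filter fun F =>
    ∀ p ∈ F, ∀ p' ∈ F, p ≠ p' → Disjoint (fs p.1 \ D) (fs p'.1 \ D)) card
    ⟨∅, by simp⟩
  rw [mem_filter, mem_powerset] at hF
  refine ⟨F, hF.1, hF.2, fun p hp => ?_⟩
  by_contra hcon
  push Not at hcon
  have hpF : p ∉ F := by
    intro hpF
    have h1 := hcon p hpF
    rw [disjoint_self_iff_empty] at h1
    exact (hS p hp).ne_empty h1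
  have h2 := hmax (insert p F) (by
    rw [mem_filter, mem_powerset]
    refine ⟨insert_subset hp hF.1, fun p1 h1 p2 h2 hne => ?_⟩
    rw [mem_insert] at h1 h2
    rcases h1 with rfl | h1 <;> rcases h2 with rfl | h2
    · exact absurd rfl hne
    · exact hcon p2 h2
    · exact (hcon p1 h1).symm
    · exact hF.2 p1 h1 p2 h2 hne)
  rw [card_insert_of_notMem hpF] at h2
  omega

/-- one state: a test or a small maximal family -/
private theorem one_state (h : Wld Con K) {A : ℕ} {ν ν' : ℝ} (hs : SubT Con A ν ν')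
    {l : List (Fm V × Bool)} (hl : ∀ p ∈ l, sz p.1 ≤ A) (D : Finset (Fin n)) (y : Fin n → Bool) :
    (∃ t : Tst n, GT Con t ∧ ν' * n ≤ t.card ∧ ∀ pr ∈ t, pr.1.card ≤ A ∧ ∃ p ∈ l, pr.1 = fs p.1 \ D ∧
        (∀ v ∈ D, pr.2 v = y v) ∧ p.1.eval (pv pr.2) ≠ p.2) ∨
      ∃ F : Finset (Fm V × Bool), (∀ p ∈ F, p ∈ l) ∧ (F.card : ℝ) < ν * n ∧
        ∀ p ∈ l, ¬ Lt Con D y p.1 p.2 → (fs p.1 \ D).Nonempty →
          ∃ p' ∈ F, ¬ Disjoint (fs p.1 \ D) (fs p'.1 \ D) := by
  obtain ⟨S, hS⟩ : ∃ S : Finset (Fm V × Bool), S = l.toFinset.filter fun p =>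
    ¬ Lt Con D y p.1 p.2 ∧ (fs p.1 \ D).Nonempty := ⟨_, rfl⟩
  have hS' : ∀ p, p ∈ S ↔ p ∈ l ∧ ¬ Lt Con D y p.1 p.2 ∧ (fs p.1 \ D).Nonempty := by
    intro p
    rw [hS, mem_filter, List.mem_toFinset]
  obtain ⟨F, hF, hdj, hmax⟩ := max_dj D S fun p hp => ((hS' p).1 hp).2.2
  by_cases hcard : (F.card : ℝ) < ν * n
  · right
    exact ⟨F, fun p hp => ((hS' p).1 (hF hp)).1, hcard, fun p hp h1 h2 => hmax p ((hS' p).2 ⟨hp, h1, h2⟩)⟩
  · left
    push Not at hcard
    have hz : ∀ p : Fm V × Bool, ∃ z : Fin n → Bool, p ∈ F → (∀ v ∈ D, z v = y v) ∧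
        Con (D ∪ fs p.1) z ∧ p.1.eval (pv z) ≠ p.2 := by
      intro p
      by_cases hp : p ∈ F
      · have h1 := ((hS' p).1 (hF hp)).2.1
        unfold Lt at h1
        push Not at h1
        obtain ⟨z, hz1, hz2, hz3⟩ := h1
        exact ⟨z, fun _ => ⟨hz1, hz2, hz3⟩⟩
      · exact ⟨y, fun h => absurd h hp⟩
    choose z hz using hz
    obtain ⟨G, hG⟩ : ∃ G : Tst n, G = F.image fun p => (fs p.1 \ D, z p) := ⟨_, rfl⟩
    have hinj : Set.InjOn (fun p : Fm V × Bool => (fs p.1 \ D, z p)) F := by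
      intro p hp p' hp' he
      by_contra hne
      have h1 := hdj p hp p' hp' hne
      have h2 : fs p.1 \ D = fs p'.1 \ D := congrArg Prod.fst he
      rw [← h2, disjoint_self_iff_empty] at h1
      exact (((hS' p).1 (hF hp)).2.2).ne_empty h1
    have hGc : G.card = F.card := by
      rw [hG, card_image_of_injOn hinj]
    obtain ⟨t, htG, htGT, htc⟩ := hs G (by
      intro p hp p' hp' hne
      rw [hG, mem_image] at hp hp'
      obtain ⟨r, hr, rfl⟩ := hp
      obtain ⟨r', hr', rfl⟩ := hp'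
      exact hdj r hr r' hr' fun he => hne (by rw [he])) (by
      intro p hp
      rw [hG, mem_image] at hp
      obtain ⟨r, hr, rfl⟩ := hp
      refine ⟨?_, ((hS' r).1 (hF hr)).2.2, ?_⟩
      · exact (card_le_card sdiff_subset).trans ((fs_card r.1).trans (hl r ((hS' r).1 (hF hr)).1))
      · exact h.mono _ _ _ (sdiff_subset.trans subset_union_right) (hz r hr).2.1) (by
      rw [hGc]
      exact hcard)
    refine ⟨t, htGT, htc, fun pr hpr => ?_⟩
    have h1 := htG hpr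
    rw [hG, mem_image] at h1
    obtain ⟨r, hr, rfl⟩ := h1
    refine ⟨?_, r, ((hS' r).1 (hF hr)).1, rfl, (hz r hr).1, (hz r hr).2.2⟩
    exact (card_le_card sdiff_subset).trans ((fs_card r.1).trans (hl r ((hS' r).1 (hF hr)).1))

/-- the tests of one stage -/
private theorem stg (h : Wld Con K) {A q : ℕ} (hq : 1 ≤ q) {ν ν' a : ℝ} (hs : SubT Con A ν ν')
    {l : List (Fm V × Bool)} (hl : ∀ p ∈ l, sz p.1 ≤ A) :
    ∃ T : Finset (Tst n), (∀ t ∈ T, GT Con t) ∧
      ∑ t ∈ T, wt q t ≤ (((univ : Finset (Finset (Fin n) × (Fin n → Bool))).filter fun s =>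
        (s.1.card : ℝ) ≤ a * n ∧ ∀ v, v ∉ s.1 → s.2 v = false).card : ℝ) *
          (1 - (1 / (2 * q : ℝ)) ^ (A + 1)) ^ (ν' * n) ∧
      ∀ (D : Finset (Fin n)) (y : Fin n → Bool), (D.card : ℝ) ≤ a * n →
        (∃ t ∈ T, ∀ pr ∈ t, ∃ p ∈ l, pr.1 = fs p.1 \ D ∧
          (∀ v ∈ D, pr.2 v = y v) ∧ p.1.eval (pv pr.2) ≠ p.2) ∨
        ∃ F : Finset (Fm V × Bool), (∀ p ∈ F, p ∈ l) ∧ (F.card : ℝ) < ν * n ∧
          ∀ p ∈ l, ¬ Lt Con D y p.1 p.2 → (fs p.1 \ D).Nonempty →
            ∃ p' ∈ F, ¬ Disjoint (fs p.1 \ D) (fs p'.1 \ D) := by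
  obtain ⟨Q, hQ⟩ : ∃ Q : Finset (Fin n) × (Fin n → Bool) → Tst n → Prop, Q = fun s t =>
    GT Con t ∧ ν' * n ≤ t.card ∧ ∀ pr ∈ t, pr.1.card ≤ A ∧ ∃ p ∈ l, pr.1 = fs p.1 \ s.1 ∧
      (∀ v ∈ s.1, pr.2 v = s.2 v) ∧ p.1.eval (pv pr.2) ≠ p.2 := ⟨_, rfl⟩
  have hg : ∀ s, ∃ t, (∃ t, Q s t) → Q s t := by
    intro s
    by_cases h1 : ∃ t, Q s t
    · obtain ⟨t, ht⟩ := h1
      exact ⟨t, fun _ => ht⟩
    · exact ⟨∅, fun h2 => absurd h2 h1⟩
  choose g hg using hg
  obtain ⟨I0, hI0⟩ : ∃ I0 : Finset (Finset (Fin n) × (Fin n → Bool)), I0 = univ.filter fun s =>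
        (s.1.card : ℝ) ≤ a * n ∧ ∀ v, v ∉ s.1 → s.2 v = false := ⟨_, rfl⟩
  rw [← hI0]
  have hr0 : (0 : ℝ) < 1 - (1 / (2 * q : ℝ)) ^ (A + 1) := by
    have h1 : (1 : ℝ) ≤ q := by exact_mod_cast hq
    have h2 : (1 / (2 * q : ℝ)) ≤ 1 / 2 := by
      rw [div_le_div_iff₀ (by linarith) (by norm_num)]
      linarith
    have h3 : (1 / (2 * q : ℝ)) ^ (A + 1) ≤ (1 / 2) ^ (A + 1) :=
      pow_le_pow_left₀ (by positivity) h2 _
    have h4 : (1 / 2 : ℝ) ^ (A + 1) ≤ (1 / 2) ^ 1 :=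
      pow_le_pow_of_le_one (by norm_num) (by norm_num) (by omega)
    linarith [h4, pow_one (1 / 2 : ℝ)]
  have hr1 : 1 - (1 / (2 * q : ℝ)) ^ (A + 1) ≤ 1 := by
    have : 0 ≤ (1 / (2 * q : ℝ)) ^ (A + 1) := by positivity
    linarith
  refine ⟨(I0.filter fun s => ∃ t, Q s t).image g, ?_, ?_, ?_⟩
  · intro t ht
    rw [mem_image] at ht
    obtain ⟨s, hs1, rfl⟩ := ht
    rw [mem_filter] at hs1
    have h1 := hg s hs1.2
    rw [hQ] at h1
    exact h1.1
  · calc ∑ t ∈ (I0.filter fun s => ∃ t, Q s t).image g, wt q t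
        ≤ ∑ s ∈ I0.filter (fun s => ∃ t, Q s t), wt q (g s) :=
          sum_image_le_of_nonneg fun t _ => wt_nonneg hq t
      _ ≤ ∑ _s ∈ I0.filter (fun s => ∃ t, Q s t), (1 - (1 / (2 * q : ℝ)) ^ (A + 1)) ^ (ν' * n) := by
          refine sum_le_sum fun s hs1 => ?_
          rw [mem_filter] at hs1
          have h1 := hg s hs1.2
          rw [hQ] at h1
          have h2 := wt_le (A := A + 1) hq (t := g s) fun p hp => by
            have := (h1.2.2 p hp).1
            omega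
          refine h2.trans ?_
          rw [← Real.rpow_natCast]
          exact Real.rpow_le_rpow_of_exponent_ge hr0 hr1 h1.2.1
      _ ≤ _ := by
          rw [sum_const, nsmul_eq_mul]
          refine mul_le_mul_of_nonneg_right ?_ (Real.rpow_nonneg hr0.le _)
          exact_mod_cast card_le_card (filter_subset _ _)
  · intro D y hD
    obtain ⟨y0, hy0⟩ : ∃ y0 : Fin n → Bool, y0 = fun v => if v ∈ D then y v else false := ⟨_, rfl⟩
    have hy0D : ∀ v ∈ D, y0 v = y v := by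
      intro v hv
      rw [hy0]
      simp [hv]
    have hmem : (D, y0) ∈ I0 := by
      rw [hI0, mem_filter]
      refine ⟨mem_univ _, hD, fun v hv => ?_⟩
      rw [hy0]
      simp only [hv, if_false]
    rcases one_state h hs hl D y0 with ⟨t, ht1, ht2, ht3⟩ | ⟨F, hF1, hF2, hF3⟩
    · left
      have hex : ∃ t, Q (D, y0) t := ⟨t, by
        rw [hQ]
        exact ⟨ht1, ht2, ht3⟩⟩
      refine ⟨g (D, y0), mem_image_of_mem g (mem_filter.2 ⟨hmem, hex⟩), fun pr hpr => ?_⟩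
      have h1 := hg _ hex
      rw [hQ] at h1
      obtain ⟨_, p, hp, h2, h3, h4⟩ := h1.2.2 pr hpr
      exact ⟨p, hp, h2, fun v hv => (h3 v hv).trans (hy0D v hv), h4⟩
    · right
      refine ⟨F, hF1, hF2, fun p hp h1 h2 => hF3 p hp (fun h3 => h1 ?_) h2⟩
      exact lt_congr h (fun v hv => (hy0D v hv).symm) h3

end

/-- the claim for formulas with at most `w` variables outside of `D` -/
private def Cla (sub : ℕ → ℝ → ℝ) (A q w : ℕ) (c a η : ℝ) (n : ℕ) (V : Type) [Atm n V] : Prop :=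
  ∀ (Con : Finset (Fin n) → (Fin n → Bool) → Prop) (K : ℕ), Wld Con K →
    (∀ A ν, 0 < ν → SubT Con A ν (sub A ν)) →
    ∀ l : List (Fm V × Bool), (∀ p ∈ l, sz p.1 ≤ A) →
    ∃ T : Finset (Tst n), (∀ t ∈ T, GT Con t) ∧ ∑ t ∈ T, wt q t ≤ 2 ^ (-η * n) ∧
      ∀ U x, (∀ t ∈ T, Hit U x t) → ∀ W : Finset (Fin n) → (Fin n → Bool) → Prop, Wld W K →
        (∀ D x, W D x → Con D x) → ∀ U' x', U ⊆ U' → (∀ v ∈ U, x' v = x v) → W U' x' →
        (U'.card + c * n ≤ K) → (∀ p ∈ l, Lt W U' x' p.1 p.2) →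
        ∀ D y, (D.card : ℝ) ≤ a * n → (∀ v ∈ U', y v = x' v) → W (U' ∪ D) y →
          (∀ p ∈ l, Lt Con D y p.1 p.2 ∨ (fs p.1 \ D).card ≤ w) →
          ∃ D' y', (D'.card : ℝ) ≤ c * n ∧ (∀ v ∈ U', y' v = x' v) ∧ W (U' ∪ D') y' ∧
            ∀ p ∈ l, Lt Con D' y' p.1 p.2

/-- a formula whose variables lie in `D` has the right value -/
private theorem val_of {n K : ℕ} {V : Type} [Atm n V] {Con : Finset (Fin n) → (Fin n → Bool) → Prop} (h : Wld Con K)
    {U' D : Finset (Fin n)} {x' y : Fin n → Bool} {F : Fm V} {b : Bool}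
    (hy : ∀ v ∈ U', y v = x' v) (hc : Con (U' ∪ D) y) (hl : Lt Con U' x' F b) (hF : fs F ⊆ U' ∪ D) :
    F.eval (pv y) = b :=
  hl y hy (h.mono _ _ _ (union_subset subset_union_left hF) hc)

private theorem cla {sub : ℕ → ℝ → ℝ} (hsub : ∀ A ν, 0 < ν → 0 < sub A ν) (A q : ℕ) (hq : 1 ≤ q)
    (w : ℕ) : ∀ c : ℝ, 0 < c → ∃ a : ℝ, 0 < a ∧ a ≤ c ∧ ∃ η : ℝ, 0 < η ∧ ∃ n0 : ℕ, ∀ n, n0 ≤ n →
      ∀ (V : Type) [Atm n V], Cla sub A q w c a η n V := by
  induction w with
  | zero =>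
    intro c hc
    refine ⟨c, hc, le_rfl, 1, one_pos, 0, fun n _ V _ Con K h _ l _ => ?_⟩
    refine ⟨∅, by simp, ?_, ?_⟩
    · rw [sum_empty]
      positivity
    · intro U x _ W hW _ U' x' _ _ _ _ hl D y hD hy hc' hw
      refine ⟨D, y, hD, hy, hc', fun p hp => ?_⟩
      rcases hw p hp with h1 | h1
      · exact h1
      · have h2 : fs p.1 ⊆ D := by
          rw [← sdiff_eq_empty_iff_subset, ← card_eq_zero]
          omega
        intro z hz _
        rw [ev_cg (fun v hv => hz v (h2 hv))]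
        exact val_of hW hy hc' (hl p hp) (h2.trans subset_union_right)
  | succ w ih =>
    intro c hc
    obtain ⟨a', ha', hac, η', hη', n1, hn1⟩ := ih c hc
    obtain ⟨ν, hν⟩ : ∃ ν : ℝ, ν = a' / (2 * (A + 1)) := ⟨_, rfl⟩
    have hν0 : 0 < ν := by
      rw [hν]
      positivity
    have hνA : A * ν ≤ a' / 2 := by
      have h1 : (A : ℝ) * ν ≤ (A + 1) * ν := by
        have : (0 : ℝ) ≤ ν := hν0.le
        nlinarith
      have h2 : ((A : ℝ) + 1) * ν = a' / 2 := by
        rw [hν]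
        field_simp
      linarith
    obtain ⟨ρ, hρ⟩ : ∃ ρ : ℝ, ρ = 1 - (1 / (2 * q : ℝ)) ^ (A + 1) := ⟨_, rfl⟩
    have hq1 : (1 : ℝ) ≤ q := by exact_mod_cast hq
    have hpp : 0 < (1 / (2 * q : ℝ)) ^ (A + 1) := by positivity
    have hρ1 : ρ < 1 := by
      rw [hρ]
      linarith
    have hρ0 : 0 < ρ := by
      have h2 : (1 / (2 * q : ℝ)) ≤ 1 / 2 := by
        rw [div_le_div_iff₀ (by linarith) (by norm_num)]
        linarith
      have h3 : (1 / (2 * q : ℝ)) ^ (A + 1) ≤ (1 / 2) ^ (A + 1) :=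
        pow_le_pow_left₀ (by positivity) h2 _
      have h4 : (1 / 2 : ℝ) ^ (A + 1) ≤ (1 / 2) ^ 1 :=
        pow_le_pow_of_le_one (by norm_num) (by norm_num) (by omega)
      rw [hρ]
      linarith [h4, pow_one (1 / 2 : ℝ)]
    have hlog : Real.logb 2 ρ < 0 := Real.logb_neg (by norm_num) hρ0 hρ1
    obtain ⟨η1, hη1⟩ : ∃ η1 : ℝ, η1 = -(sub A ν * Real.logb 2 ρ) / 2 := ⟨_, rfl⟩
    have hη10 : 0 < η1 := by
      rw [hη1]
      have := mul_neg_of_pos_of_neg (hsub A ν hν0) hlog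
      linarith
    obtain ⟨a1, ha1, hcnt⟩ := cnt hη10
    obtain ⟨μ, hμ⟩ : ∃ μ : ℝ, μ = min η1 η' := ⟨_, rfl⟩
    have hμ0 : 0 < μ := by
      rw [hμ]
      exact lt_min hη10 hη'
    obtain ⟨n2, hn2⟩ := exists_nat_ge (2 / μ)
    refine ⟨min (a' / 2) a1, lt_min (by linarith) ha1, (min_le_left _ _).trans (by linarith), μ / 2,
      by linarith, max n1 n2, fun n hn V _ Con K h hS l hl => ?_⟩
    have hnn1 : n1 ≤ n := le_trans (le_max_left _ _) hn
    have hnn2 : n2 ≤ n := le_trans (le_max_right _ _) hn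
    obtain ⟨T1, hT1, hT1w, hT1s⟩ := stg (a := min (a' / 2) a1) h hq (hS A ν hν0) hl
    obtain ⟨T2, hT2, hT2w, hT2s⟩ := hn1 n hnn1 V Con K h hS l hl
    refine ⟨T1 ∪ T2, ?_, ?_, ?_⟩
    · intro t ht
      rcases mem_union.1 ht with h1 | h1
      · exact hT1 t h1
      · exact hT2 t h1
    · have h1 : ∑ t ∈ T1, wt q t ≤ 2 ^ (-η1 * n) := by
        refine hT1w.trans ?_
        rw [← hρ]
        have h2 : ((univ.filter fun s : Finset (Fin n) × (Fin n → Bool) =>
            (s.1.card : ℝ) ≤ min (a' / 2) a1 * n ∧ ∀ v, v ∉ s.1 → s.2 v = false).card : ℝ) ≤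
            2 ^ (η1 * n) := by
          refine le_trans ?_ (hcnt n)
          have h3 : (univ.filter fun s : Finset (Fin n) × (Fin n → Bool) =>
            (s.1.card : ℝ) ≤ min (a' / 2) a1 * n ∧ ∀ v, v ∉ s.1 → s.2 v = false) ⊆
            (univ.filter fun s : Finset (Fin n) × (Fin n → Bool) =>
            (s.1.card : ℝ) ≤ a1 * n ∧ ∀ v, v ∉ s.1 → s.2 v = false) := by
            intro s hs
            rw [mem_filter] at hs ⊢
            refine ⟨hs.1, hs.2.1.trans ?_, hs.2.2⟩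
            exact mul_le_mul_of_nonneg_right (min_le_right _ _) (Nat.cast_nonneg _)
          exact_mod_cast card_le_card h3
        have h3 : ρ ^ (sub A ν * n) = 2 ^ (-(2 * η1) * n) := by
          have h4 : ρ = 2 ^ Real.logb 2 ρ := (Real.rpow_logb (by norm_num) (by norm_num) hρ0).symm
          conv_lhs => rw [h4]
          rw [← Real.rpow_mul (by norm_num)]
          congr 1
          rw [hη1]
          ring
        rw [h3]
        calc _ ≤ (2 : ℝ) ^ (η1 * n) * 2 ^ (-(2 * η1) * n) :=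
              mul_le_mul_of_nonneg_right h2 (Real.rpow_nonneg (by norm_num) _)
          _ = 2 ^ (-η1 * n) := by
              rw [← Real.rpow_add (by norm_num)]
              congr 1
              ring
      have h4 : (2 : ℝ) ^ (-η1 * n) ≤ 2 ^ (-μ * n) := by
        refine Real.rpow_le_rpow_of_exponent_le (by norm_num) ?_
        refine mul_le_mul_of_nonneg_right ?_ (Nat.cast_nonneg _)
        have : μ ≤ η1 := by
          rw [hμ]
          exact min_le_left _ _
        linarith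
      have h5 : (2 : ℝ) ^ (-η' * n) ≤ 2 ^ (-μ * n) := by
        refine Real.rpow_le_rpow_of_exponent_le (by norm_num) ?_
        refine mul_le_mul_of_nonneg_right ?_ (Nat.cast_nonneg _)
        have : μ ≤ η' := by
          rw [hμ]
          exact min_le_right _ _
        linarith
      have h6 : ∑ t ∈ T1 ∪ T2, wt q t ≤ ∑ t ∈ T1, wt q t + ∑ t ∈ T2, wt q t := by
        have h7 := sum_union_inter (s₁ := T1) (s₂ := T2) (f := wt q)
        have h8 : 0 ≤ ∑ t ∈ T1 ∩ T2, wt q t := sum_nonneg fun t _ => wt_nonneg hq t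
        linarith
      have h7 : 2 * (2 : ℝ) ^ (-μ * n) ≤ 2 ^ (-(μ / 2) * n) := by
        have h8 : (2 : ℝ) * 2 ^ (-μ * n) = 2 ^ (1 + -μ * n) := by
          rw [Real.rpow_add (by norm_num), Real.rpow_one]
        rw [h8]
        refine Real.rpow_le_rpow_of_exponent_le (by norm_num) ?_
        have h9 : 2 / μ ≤ n := hn2.trans (by exact_mod_cast hnn2)
        rw [div_le_iff₀ hμ0] at h9
        linarith
      linarith
    · intro U x hhit W hW hWC U' x' hU hx hcon hroom hLt D y hD hy hc' hw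
      have hDa : (D.card : ℝ) ≤ a' / 2 * n :=
        hD.trans (mul_le_mul_of_nonneg_right (min_le_left _ _) (Nat.cast_nonneg _))
      rcases hT1s D y hD with ⟨t, ht, htp⟩ | ⟨F, hF1, hF2, hF3⟩
      · exfalso
        obtain ⟨pr, hpr, hprU, hprx⟩ := hhit t (mem_union_left _ ht)
        obtain ⟨p, hp, h1, h2, h3⟩ := htp pr hpr
        have h4 : fs p.1 ⊆ U' ∪ D := by
          intro v hv
          by_cases hvD : v ∈ D
          · exact mem_union_right _ hvD
          · refine mem_union_left _ (hU (hprU ?_))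
            rw [h1, mem_sdiff]
            exact ⟨hv, hvD⟩
        have h5 := val_of hW hy hc' (hLt p hp) h4
        apply h3
        rw [← h5]
        refine ev_cg fun v hv => ?_
        by_cases hvD : v ∈ D
        · exact h2 v hvD
        · have h6 : v ∈ pr.1 := by
            rw [h1, mem_sdiff]
            exact ⟨hv, hvD⟩
          have h7 := hprU h6
          rw [← hprx v h6, ← hx v h7, hy v (hU h7)]
      · obtain ⟨E, hE⟩ : ∃ E : Finset (Fin n), E = F.biUnion fun p => fs p.1 := ⟨_, rfl⟩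
        have hEc : (E.card : ℝ) ≤ a' / 2 * n := by
          have h1 : E.card ≤ F.card * A := by
            rw [hE]
            refine card_biUnion_le_card_mul _ _ _ fun p hp => ?_
            exact (fs_card p.1).trans (hl p (hF1 p hp))
          have h2 : (E.card : ℝ) ≤ F.card * A := by exact_mod_cast h1
          have h3 : (F.card : ℝ) * A ≤ ν * n * A :=
            mul_le_mul_of_nonneg_right hF2.le (Nat.cast_nonneg _)
          have h4 : ν * n * A = (A * ν) * n := by ring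
          have h5 : (A * ν) * n ≤ a' / 2 * n := mul_le_mul_of_nonneg_right hνA (Nat.cast_nonneg _)
          linarith
        have hDE : ((D ∪ E).card : ℝ) ≤ a' * n := by
          have h1 : ((D ∪ E).card : ℝ) ≤ D.card + E.card := by exact_mod_cast card_union_le D E
          linarith
        have hroom2 : ((U' ∪ D) ∪ E).card ≤ K := by
          have h1 : (((U' ∪ D) ∪ E).card : ℝ) ≤ U'.card + (D ∪ E).card := by
            rw [union_assoc]
            exact_mod_cast card_union_le U' (D ∪ E)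
          have h2 : a' * n ≤ c * n := mul_le_mul_of_nonneg_right hac (Nat.cast_nonneg _)
          have h3 : (((U' ∪ D) ∪ E).card : ℝ) ≤ K := by linarith
          exact_mod_cast h3
        obtain ⟨y1, hy1, hcon1⟩ := hW.extS hroom2 hc'
        rw [union_assoc] at hcon1
        have hyU : ∀ v ∈ U', y1 v = x' v := fun v hv =>
          (hy1 v (mem_union_left _ hv)).trans (hy v hv)
        have hyD : ∀ v ∈ D, y1 v = y v := fun v hv => hy1 v (mem_union_right _ hv)
        refine hT2s U x (fun t ht => hhit t (mem_union_right _ ht)) W hW hWC U' x' hU hx hcon hroom hLt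
          (D ∪ E) y1 hDE hyU hcon1 fun p hp => ?_
        by_cases h1 : Lt Con D y p.1 p.2
        · exact Or.inl (Lt.mono h subset_union_left hyD h1)
        · right
          have hne : (fs p.1 \ D).Nonempty := by
            rw [sdiff_nonempty]
            intro hsubs
            apply h1
            intro z hz _
            rw [ev_cg (fun v hv => hz v (hsubs hv))]
            exact val_of hW hy hc' (hLt p hp) (hsubs.trans subset_union_right)
          obtain ⟨p', hp', hnd⟩ := hF3 p hp h1 hne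
          rw [not_disjoint_iff] at hnd
          obtain ⟨v, hv1, hv2⟩ := hnd
          have h2 : (fs p.1 \ D).card ≤ w + 1 := by
            rcases hw p hp with h3 | h3
            · exact absurd h3 h1
            · exact h3
          have h3 : fs p.1 \ (D ∪ E) ⊂ fs p.1 \ D := by
            rw [ssubset_iff_of_subset (sdiff_subset_sdiff (subset_refl _) subset_union_left)]
            refine ⟨v, hv1, fun h4 => ?_⟩
            rw [mem_sdiff, mem_union, not_or] at h4
            apply h4.2.2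
            rw [hE, mem_biUnion]
            exact ⟨p', hp', (mem_sdiff.1 hv2).1⟩
          have h4 := card_lt_card h3
          omega

theorem spl {sub : ℕ → ℝ → ℝ} (hsub : ∀ A ν, 0 < ν → 0 < sub A ν) (A q : ℕ) (hq : 1 ≤ q) {c : ℝ}
    (hc : 0 < c) : ∃ η : ℝ, 0 < η ∧ ∃ n0 : ℕ, ∀ n, n0 ≤ n → ∀ (V : Type) [Atm n V],
      SplP sub A q c η n V := by
  obtain ⟨c', hc', hcc⟩ : ∃ c' : ℝ, 0 < c' ∧ c' ≤ c := ⟨c, hc, le_rfl⟩
  obtain ⟨a, ha, _, η, hη, n0, hn0⟩ := cla hsub A q hq A c' hc'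
  refine ⟨η, hη, n0, fun n hn V _ Con K k h hS hk l hl => ?_⟩
  obtain ⟨T, hT1, hT2, hT3⟩ := hn0 n hn V Con K h hS l hl
  refine ⟨T, hT1, hT2, fun U x hhit W hW hWC U' x' hU hx hcon hroom hLt => ?_⟩
  have hck : c' * n ≤ k := (mul_le_mul_of_nonneg_right hcc (Nat.cast_nonneg _)).trans hk
  obtain ⟨D', y', hD', hy', hcon', hl'⟩ := hT3 U x hhit W hW hWC U' x' hU hx hcon (by
    have h1 : ((U'.card + k : ℕ) : ℝ) ≤ K := by exact_mod_cast hroom
    push_cast at h1
    linarith) hLt ∅ x' (by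
      rw [card_empty, Nat.cast_zero]
      positivity) (fun _ _ => rfl) (by rw [union_empty]; exact hcon) (fun p hp => Or.inr (by
      rw [sdiff_empty]
      exact (fs_card p.1).trans (hl p hp)))
  refine ⟨D', y', ?_, hy', hcon', hl'⟩
  have h1 : (D'.card : ℝ) ≤ k := hD'.trans hck
  exact_mod_cast h1

end Pool.H86.MG
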