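import Mathlib
import Pool.Agent.H86.MG.Spl
import Pool.Agent.H86.MG.Wgt

set_option autoImplicit false
set_option linter.unusedSectionVars false

/-!
# Module KIL (THEOREM LP): certificates for conjunctions of formulas with few alternations and small weight, two worlds
-/

namespace Pool.H86.MG

open Finset Classical Pool.Agent.H3.Frg Pool.Agent.H3.Frg2 Pool.Agent.H3.Frg4 Pool.Agent.H55.QT Pool.H6.LD

/-- all ways to choose one element of each list -/
private def cho {α : Type} : List (List α) → List (List α)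
  | [] => [[]]
  | a :: L => a.flatMap fun x => (cho L).map (x :: ·)

private theorem cho_length {α : Type} (L : List (List α)) :
    (cho L).length = (L.map List.length).prod := by
  induction L with
  | nil => rfl
  | cons a L ih =>
    rw [cho, List.map_cons, List.prod_cons, ← ih, List.length_flatMap]
    simp

private theorem cho_cons {α : Type} {a : List α} {L : List (List α)} {h : List α} :
    h ∈ cho (a :: L) ↔ ∃ x ∈ a, ∃ h' ∈ cho L, h = x :: h' := by
  rw [cho, List.mem_flatMap]
  constructor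
  · rintro ⟨x, hx, h1⟩
    rw [List.mem_map] at h1
    obtain ⟨h', hh', rfl⟩ := h1
    exact ⟨x, hx, h', hh', rfl⟩
  · rintro ⟨x, hx, h', hh', rfl⟩
    exact ⟨x, hx, List.mem_map.2 ⟨h', hh', rfl⟩⟩

private theorem cho_mem {α : Type} {L : List (List α)} : ∀ {h : List α}, h ∈ cho L →
    (∀ a ∈ L, ∃ x ∈ h, x ∈ a) ∧ ∀ x ∈ h, ∃ a ∈ L, x ∈ a := by
  induction L with
  | nil =>
    intro h hh
    rw [cho, List.mem_singleton] at hh
    subst hh
    simp
  | cons a L ih =>
    intro h hh
    obtain ⟨x, hx, h', hh', rfl⟩ := cho_cons.1 hh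
    obtain ⟨h1, h2⟩ := ih hh'
    constructor
    · intro a' ha'
      rcases List.mem_cons.1 ha' with rfl | ha'
      · exact ⟨x, List.mem_cons_self, hx⟩
      · obtain ⟨x', hx', hx2⟩ := h1 a' ha'
        exact ⟨x', List.mem_cons_of_mem _ hx', hx2⟩
    · intro x' hx'
      rcases List.mem_cons.1 hx' with rfl | hx'
      · exact ⟨a, List.mem_cons_self, hx⟩
      · obtain ⟨a', ha', hx2⟩ := h2 x' hx'
        exact ⟨a', List.mem_cons_of_mem _ ha', hx2⟩

private theorem cho_ex {α : Type} {P : α → Prop} {L : List (List α)} (hL : ∀ a ∈ L, ∃ x ∈ a, P x) :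
    ∃ h ∈ cho L, ∀ x ∈ h, P x := by
  induction L with
  | nil => exact ⟨[], by simp [cho], by simp⟩
  | cons a L ih =>
    obtain ⟨x, hx, hxP⟩ := hL a List.mem_cons_self
    obtain ⟨h, hh, hhP⟩ := ih fun a' ha' => hL a' (List.mem_cons_of_mem _ ha')
    refine ⟨x :: h, cho_cons.2 ⟨x, hx, h, hh, rfl⟩, fun y hy => ?_⟩
    rcases List.mem_cons.1 hy with rfl | hy
    · exact hxP
    · exact hhP y hy

section

variable {n : ℕ} {V : Type} [Atm n V]

private theorem lszc (p : Fm V × Bool) (l : List (Fm V × Bool)) :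
    lsz (p :: l) = sz p.1 + lsz l := by
  simp [lsz]

private theorem length_le_lsz (l : List (Fm V × Bool)) : l.length ≤ lsz l := by
  induction l with
  | nil => simp [lsz]
  | cons a l ih =>
    rw [lszc, List.length_cons]
    have := sz_pos a.1
    omega

private theorem cho_lq {w0 : ℕ} {l : List (Fm V × Bool)} :
    ∀ (_ : ∀ p ∈ l, ∃ A B, p.1 = .imp A B ∧ p.2 = true) {h : List (Fm V × Bool)},
    h ∈ cho (l.map fun p => dj p.1 true) → lq w0 h ≤ lq w0 l := by
  induction l with
  | nil =>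
    intro _ h hh
    rw [List.map_nil, cho, List.mem_singleton] at hh
    subst hh
    exact le_rfl
  | cons a l ih =>
    intro hl h hh
    rw [List.map_cons] at hh
    obtain ⟨x, hx, h', hh', rfl⟩ := cho_cons.1 hh
    rw [lq_cons, lq_cons]
    have h1 := ih (fun p hp => hl p (List.mem_cons_of_mem _ hp)) hh'
    obtain ⟨A, B, hA, hb⟩ := hl a List.mem_cons_self
    rw [hA] at hx
    have h2 := dj_wq' (k := w0) hx
    rw [hA, hb]
    omega

private theorem prod_exp {w0 t : ℕ} (hw : w0 < t) (ht : 2 ≤ t) {l : List (Fm V × Bool)} :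
    ∀ (_ : ∀ p ∈ l, (∃ A B, p.1 = .imp A B ∧ p.2 = true) ∧ t ≤ sz p.1),
    (((l.map fun p => sz p.1).prod : ℕ) : ℝ) ≤ Real.exp (2 * lq w0 l / Nat.log 2 t) := by
  induction l with
  | nil =>
    intro _
    simp [lq]
  | cons a l ih =>
    intro hl
    have h1 := ih fun p hp => hl p (List.mem_cons_of_mem _ hp)
    obtain ⟨⟨A, B, hA, hb⟩, h2⟩ := hl a List.mem_cons_self
    have h3 := log_om hw ht h2
    have h4 : 0 < sz a.1 := by omega
    have h5 : (0 : ℝ) < sz a.1 := by exact_mod_cast h4
    have h6 : (om w0 (sz a.1) : ℝ) ≤ wq w0 a.1 a.2 := by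
      rw [hA, hb, wq_imp]
      push_cast
      have : (0 : ℝ) ≤ wq w0 (Fm.imp A B) false := Nat.cast_nonneg _
      linarith
    have h7 : (0 : ℝ) < Nat.log 2 t := by
      have := Nat.log_pos (by norm_num) ht
      exact_mod_cast this
    rw [List.map_cons, List.prod_cons, lq_cons]
    push_cast
    rw [show 2 * ((wq w0 a.1 a.2 : ℝ) + lq w0 l) / Nat.log 2 t =
      2 * wq w0 a.1 a.2 / Nat.log 2 t + 2 * lq w0 l / Nat.log 2 t by ring, Real.exp_add]
    push_cast at h1
    refine mul_le_mul ?_ h1 ?_ (Real.exp_pos _).le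
    · rw [← Real.exp_log h5]
      refine Real.exp_le_exp.2 (h3.trans ?_)
      refine div_le_div_of_nonneg_right ?_ h7.le
      linarith
    · refine List.prod_nonneg fun x hx => ?_
      rw [List.mem_map] at hx
      obtain ⟨y, _, rfl⟩ := hx
      exact Nat.cast_nonneg _

private theorem prod_len {l : List (Fm V × Bool)} :
    ((l.map fun p => dj p.1 true).map List.length).prod ≤ (l.map fun p => sz p.1).prod := by
  induction l with
  | nil => simp
  | cons a l ih =>
    rw [List.map_cons, List.map_cons, List.prod_cons, List.map_cons, List.prod_cons]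
    refine Nat.mul_le_mul ?_ ih
    have := length_le_lsz (dj a.1 true)
    rw [dj_lsz] at this
    exact this

variable {K w0 : ℕ} {Con W : Finset (Fin n) → (Fin n → Bool) → Prop} {cc : V → Bool} {thr : ℕ → ℕ}

private theorem wt_nonneg {q : ℕ} (hq : 1 ≤ q) (t : Tst n) : 0 ≤ wt q t := by
  unfold wt
  refine prod_nonneg fun p _ => ?_
  have h1 : (1 : ℝ) ≤ 2 * q := by
    have : (1 : ℝ) ≤ q := by exact_mod_cast hq
    linarith
  have h2 : (1 / (2 * q : ℝ)) ≤ 1 := by
    rw [div_le_one (by linarith)]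
    exact h1
  have h3 : (1 / (2 * q : ℝ)) ^ p.1.card ≤ 1 := pow_le_one₀ (by positivity) h2
  linarith

private theorem sum_biU {α β : Type} [DecidableEq β] (S : Finset α) (T : α → Finset β) (f : β → ℝ)
    (hf : ∀ t, 0 ≤ f t) : ∑ t ∈ S.biUnion T, f t ≤ ∑ g ∈ S, ∑ t ∈ T g, f t := by
  classical
  induction S using Finset.induction_on with
  | empty => simp
  | insert a S ha ih =>
    rw [biUnion_insert, sum_insert ha]
    have h7 := sum_union_inter (s₁ := T a) (s₂ := S.biUnion T) (f := f)
    have h8 : 0 ≤ ∑ t ∈ T a ∩ S.biUnion T, f t := sum_nonneg fun t _ => hf t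
    linarith

/-- certificates of two lists -/
private theorem crt_append (h : Wld Con K) {k1 k2 : ℕ} {U : Finset (Fin n)} {x : Fin n → Bool}
    {l l1 l2 : List (Fm V × Bool)} (hl : ∀ p ∈ l, p ∈ l1 ∨ p ∈ l2) (hl1 : ∀ p ∈ l1, p ∈ l)
    (hl2 : ∀ p ∈ l2, p ∈ l) (h1 : Crt Con w0 thr K k1 U x l1) (h2 : Crt Con w0 thr K k2 U x l2) :
    Crt Con w0 thr K (k1 + k2) U x l := by
  intro W c hW hWC U' x' hU hx hc hK hT
  obtain ⟨D1, y1, hD1, hy1, hc1, hT1⟩ := h1 W c hW hWC U' x' hU hx hc (by omega) fun p hp => hT p (hl1 p hp)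
  have hcard : (U' ∪ D1).card ≤ U'.card + D1.card := card_union_le _ _
  obtain ⟨D2, y2, hD2, hy2, hc2, hT2⟩ := h2 W c hW hWC (U' ∪ D1) y1 (hU.trans subset_union_left)
    (fun v hv => (hy1 v (hU hv)).trans (hx v hv)) hc1 (by omega)
    fun p hp => Tr.mono hW subset_union_left hy1 (hT p (hl2 p hp))
  refine ⟨D1 ∪ D2, y2, ?_, ?_, ?_, ?_⟩
  · exact (card_union_le _ _).trans (by omega)
  · exact fun v hv => (hy2 v (mem_union_left _ hv)).trans (hy1 v hv)
  · rw [← union_assoc]
    exact hc2
  · intro p hp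
    rcases hl p hp with h3 | h3
    · exact Tr.mono h subset_union_left (fun v hv => hy2 v (mem_union_right _ hv)) (hT1 p h3)
    · exact Tr.mono h subset_union_right (fun v _ => rfl) (hT2 p h3)

private theorem crt_kmono {k1 k2 : ℕ} (hk : k1 ≤ k2) {U : Finset (Fin n)}
    {x : Fin n → Bool} {l : List (Fm V × Bool)} (h1 : Crt Con w0 thr K k1 U x l) :
    Crt Con w0 thr K k2 U x l := by
  intro W c hW hWC U' x' hU hx hc hK hT
  obtain ⟨D1, y1, hD1, hy1, hc1, hT1⟩ := h1 W c hW hWC U' x' hU hx hc (by omega) hT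
  exact ⟨D1, y1, hD1.trans hk, hy1, hc1, hT1⟩

private theorem kll_append (h : Wld Con K) {q : ℕ} (hq : 1 ≤ q) {k1 k2 : ℕ} {w1 w2 : ℝ}
    {l l1 l2 : List (Fm V × Bool)} (hl : ∀ p ∈ l, p ∈ l1 ∨ p ∈ l2) (hl1 : ∀ p ∈ l1, p ∈ l)
    (hl2 : ∀ p ∈ l2, p ∈ l) (h1 : Kll Con w0 thr q K k1 w1 l1) (h2 : Kll Con w0 thr q K k2 w2 l2) :
    Kll Con w0 thr q K (k1 + k2) (w1 + w2) l := by
  obtain ⟨T1, hT1, hw1, hc1⟩ := h1
  obtain ⟨T2, hT2, hw2, hc2⟩ := h2
  refine ⟨T1 ∪ T2, ?_, ?_, ?_⟩
  · intro t ht
    rcases mem_union.1 ht with h1 | h1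
    · exact hT1 t h1
    · exact hT2 t h1
  · have h7 := sum_union_inter (s₁ := T1) (s₂ := T2) (f := wt q)
    have h8 : 0 ≤ ∑ t ∈ T1 ∩ T2, wt q t := sum_nonneg fun t _ => wt_nonneg hq t
    linarith
  · intro U x hhit
    exact crt_append h hl hl1 hl2 (hc1 U x fun t ht => hhit t (mem_union_left _ ht))
      (hc2 U x fun t ht => hhit t (mem_union_right _ ht))

private theorem kll_mono {q : ℕ} {k1 k2 : ℕ} {w1 w2 : ℝ} (hk : k1 ≤ k2) (hw : w1 ≤ w2)
    {l : List (Fm V × Bool)} (h1 : Kll Con w0 thr q K k1 w1 l) : Kll Con w0 thr q K k2 w2 l := by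
  obtain ⟨T1, hT1, hw1, hc1⟩ := h1
  exact ⟨T1, hT1, hw1.trans hw, fun U x hhit => crt_kmono hk (hc1 U x hhit)⟩

/-- lists which are true at the same states -/
private theorem kll_congr {q k : ℕ} {w : ℝ} {l l' : List (Fm V × Bool)}
    (hl : ∀ (W : Finset (Fin n) → (Fin n → Bool) → Prop) (c : V → Bool) D x,
      TrL W c w0 thr D x l ↔ TrL W c w0 thr D x l') (h1 : Kll Con w0 thr q K k w l') :
    Kll Con w0 thr q K k w l := by
  obtain ⟨T1, hT1, hw1, hc1⟩ := h1
  refine ⟨T1, hT1, hw1, fun U x hhit W c hW hWC U' x' hU hx hc hK hT => ?_⟩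
  obtain ⟨D1, y1, hD1, hy1, hc1, hT1⟩ := hc1 U x hhit W c hW hWC U' x' hU hx hc hK ((hl _ _ _ _).1 hT)
  exact ⟨D1, y1, hD1, hy1, hc1, (hl _ _ _ _).2 hT1⟩

private theorem tr_small {D : Finset (Fin n)} {x : Fin n → Bool} {p : Fm V × Bool}
    (hp : (∃ S : V, p.1 = .var S ∧ (vs S).card ≤ w0) ∨ ∃ A B, p.1 = .imp A B ∧ p.2 = true)
    (hs : sz p.1 < thr (alt p.1 true)) :
    Tr W cc w0 thr D x p.1 p.2 false ↔ Lt W D x p.1 p.2 := by
  obtain ⟨F, b⟩ := p
  rcases hp with ⟨S, hv, hS⟩ | ⟨A, B, hF, hb⟩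
  · simp only at hv
    subst hv
    exact tr_vars hS
  · simp only at hF hb
    subst hF
    subst hb
    simp only at hs
    exact tr_impt ⟨rfl, hs⟩

private theorem tr_large {D : Finset (Fin n)} {x : Fin n → Bool} {A B : Fm V}
    (hs : ¬ sz (Fm.imp A B) < thr (alt (Fm.imp A B) true)) :
    Tr W cc w0 thr D x (.imp A B) true false ↔ ∃ p ∈ dj (.imp A B) true, Tr W cc w0 thr D x p.1 p.2 false := by
  rw [← tr_dj, tr_impn (fun h => hs h.2), tr_impn (fun h => by simp at h)]

/-- the list of large formulas of level `lv` -/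
private theorem kll_large {q k lv : ℕ} (hq : 1 ≤ q) (hlv : 2 ≤ thr lv) (hlw : w0 < thr lv) {C w : ℝ} (hw : 0 ≤ w)
    {l : List (Fm V × Bool)} (hl : ∀ p ∈ l, (∃ A B, p.1 = .imp A B ∧ p.2 = true) ∧
      alt p.1 true = lv ∧ thr lv ≤ sz p.1) (hC : (lq w0 l : ℝ) ≤ C * n)
    (hk : ∀ g : List (Fm V × Bool), (lq w0 g : ℝ) ≤ C * n → (∀ p ∈ g, alt p.1 p.2 + 1 ≤ lv) →
      Kll Con w0 thr q K k w g) :
    Kll Con w0 thr q K k (Real.exp (2 * (C * n) / Nat.log 2 (thr lv)) * w) l := by
  obtain ⟨LL, hLL⟩ : ∃ LL, LL = l.map fun p => dj p.1 true := ⟨_, rfl⟩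
  have hg : ∀ g, ∃ T : Finset (Tst n), g ∈ cho LL → ((∀ t ∈ T, GT Con t) ∧ ∑ t ∈ T, wt q t ≤ w ∧
      ∀ U x, (∀ t ∈ T, Hit U x t) → Crt Con w0 thr K k U x g) := by
    intro g
    by_cases hgm : g ∈ cho LL
    · have h1 : (lq w0 g : ℝ) ≤ C * n := by
        rw [hLL] at hgm
        have := cho_lq (w0 := w0) (fun p hp => (hl p hp).1) hgm
        exact le_trans (by exact_mod_cast this) hC
      obtain ⟨T, hT⟩ := hk g h1 (by
        intro p hp
        obtain ⟨a, ha, hpa⟩ := (cho_mem hgm).2 p hp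
        rw [hLL, List.mem_map] at ha
        obtain ⟨r, hr, rfl⟩ := ha
        obtain ⟨⟨A, B, hrA, _⟩, hr2, _⟩ := hl r hr
        rw [hrA] at hpa hr2
        rw [← hr2]
        exact dj_alt hpa)
      exact ⟨T, fun _ => hT⟩
    · exact ⟨∅, fun h1 => absurd h1 hgm⟩
  choose T hT using hg
  refine ⟨(cho LL).toFinset.biUnion T, ?_, ?_, ?_⟩
  · intro t ht
    rw [mem_biUnion] at ht
    obtain ⟨g, hg, htg⟩ := ht
    exact (hT g (List.mem_toFinset.1 hg)).1 t htg
  · calc ∑ t ∈ (cho LL).toFinset.biUnion T, wt q t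
        ≤ ∑ g ∈ (cho LL).toFinset, ∑ t ∈ T g, wt q t := by
          exact sum_biU (cho LL).toFinset T (wt q) fun t => wt_nonneg hq t
      _ ≤ ∑ _g ∈ (cho LL).toFinset, w := sum_le_sum fun g hg => (hT g (List.mem_toFinset.1 hg)).2.1
      _ = ((cho LL).toFinset.card : ℝ) * w := by rw [sum_const, nsmul_eq_mul]
      _ ≤ _ := by
          refine mul_le_mul_of_nonneg_right ?_ hw
          have h1 : (cho LL).toFinset.card ≤ (l.map fun p => sz p.1).prod := by
            refine (List.toFinset_card_le _).trans ?_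
            rw [cho_length, hLL]
            exact prod_len
          have h2 := prod_exp hlw hlv (l := l) fun p hp => ⟨(hl p hp).1, (hl p hp).2.2⟩
          have h3 : ((cho LL).toFinset.card : ℝ) ≤ ((l.map fun p => sz p.1).prod : ℕ) := by
            exact_mod_cast h1
          refine h3.trans (h2.trans (Real.exp_le_exp.2 ?_))
          refine div_le_div_of_nonneg_right ?_ (Nat.cast_nonneg _)
          exact mul_le_mul_of_nonneg_left hC (by norm_num)
  · intro U x hhit W cc hW hWC U' x' hU hx hc hK hTr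
    obtain ⟨g, hg, hgT⟩ := cho_ex (L := LL) (P := fun p => Tr W cc w0 thr U' x' p.1 p.2 false) (by
      intro a ha
      rw [hLL, List.mem_map] at ha
      obtain ⟨r, hr, rfl⟩ := ha
      obtain ⟨⟨A, B, hrA, hrb⟩, hr2, hr3⟩ := hl r hr
      have h1 := hTr r hr
      rw [hrA, hrb] at h1
      rw [hrA] at hr2 hr3
      rw [hrA]
      exact (tr_large (by rw [hr2]; omega)).1 h1)
    obtain ⟨D, y, hD, hy, hcy, hTy⟩ := (hT g hg).2.2 U x (fun t ht => hhit t (by
      rw [mem_biUnion]
      exact ⟨g, List.mem_toFinset.2 hg, ht⟩)) W cc hW hWC U' x' hU hx hc hK hgT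
    refine ⟨D, y, hD, hy, hcy, fun r hr => ?_⟩
    obtain ⟨⟨A, B, hrA, hrb⟩, hr2, hr3⟩ := hl r hr
    obtain ⟨p, hp1, hp2⟩ := (cho_mem hg).1 (dj r.1 true) (by
      rw [hLL]
      exact List.mem_map.2 ⟨r, hr, rfl⟩)
    rw [hrA] at hp2 hr2 hr3
    rw [hrA, hrb]
    exact (tr_large (by rw [hr2]; omega)).2 ⟨p, hp2, hTy p hp1⟩

end


/-- one step of the recursion for the thresholds -/
private theorem thr_step (C θ : ℝ) (hθ : 0 < θ) (A l : ℕ) (η : ℝ) (hη : 0 < η) :
    ∃ A' : ℕ, A ≤ A' ∧ 2 ≤ A' ∧ (A : ℝ) * 2 ^ (l + 1) ≤ θ * (Nat.log 2 A' : ℝ) ^ 2 ∧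
      2 * C / Nat.log 2 A' ≤ η * Real.log 2 / 2 := by
  have hl2 : 0 < Real.log 2 := Real.log_pos (by norm_num)
  obtain ⟨a1, h1⟩ := exists_nat_ge ((A : ℝ) * 2 ^ (l + 1) / θ)
  obtain ⟨a2, h2⟩ := exists_nat_ge (2 * C / (η * Real.log 2 / 2))
  obtain ⟨N, hN⟩ : ∃ N, N = A + 2 + a1 + a2 := ⟨_, rfl⟩
  have hlog : Nat.log 2 (2 ^ N) = N := Nat.log_pow (by norm_num) N
  have hN1 : (1 : ℝ) ≤ N := by exact_mod_cast (by omega : 1 ≤ N)
  have ha1 : (a1 : ℝ) ≤ N := by exact_mod_cast (by omega : a1 ≤ N)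
  have ha2 : (a2 : ℝ) ≤ N := by exact_mod_cast (by omega : a2 ≤ N)
  have hpow : N < 2 ^ N := Nat.lt_two_pow_self
  refine ⟨2 ^ N, by omega, by omega, ?_, ?_⟩
  · rw [hlog]
    rw [div_le_iff₀ hθ] at h1
    refine h1.trans ?_
    rw [mul_comm]
    refine mul_le_mul_of_nonneg_left ?_ hθ.le
    nlinarith
  · rw [hlog]
    have h3 : 0 < η * Real.log 2 / 2 := by positivity
    rw [div_le_iff₀ h3] at h2
    rw [div_le_iff₀ (by linarith)]
    have h4 : (a2 : ℝ) * (η * Real.log 2 / 2) ≤ N * (η * Real.log 2 / 2) :=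
      mul_le_mul_of_nonneg_right ha2 h3.le
    linarith

private theorem geo_half (d : ℕ) : ∑ i ∈ range d, (1 / 2 : ℝ) ^ (i + 1) = 1 - (1 / 2) ^ d := by
  induction d with
  | zero => simp
  | succ d ihd =>
    rw [sum_range_succ, ihd]
    ring

private theorem two_pow_merge {m : ℕ} {μ η : ℝ} (hμ : 0 < μ) (hη : 2 * η ≤ μ) : ∃ n0 : ℕ, ∀ n : ℕ, n0 ≤ n →
    ((m : ℝ) + 1) * 2 ^ (-μ * n) ≤ 2 ^ (-η * n) := by
  obtain ⟨n0, h0⟩ := exists_nat_ge (Real.logb 2 (m + 1) * 2 / μ)
  refine ⟨n0, fun n hn => ?_⟩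
  have h1 : ((m : ℝ) + 1) = 2 ^ Real.logb 2 (m + 1) :=
    (Real.rpow_logb (by norm_num) (by norm_num) (by positivity)).symm
  conv_lhs => rw [h1]
  rw [← Real.rpow_add (by norm_num)]
  refine Real.rpow_le_rpow_of_exponent_le (by norm_num) ?_
  have h2 : Real.logb 2 (m + 1) * 2 / μ ≤ n := h0.trans (by exact_mod_cast hn)
  rw [div_le_iff₀ hμ] at h2
  have h3 : (0 : ℝ) ≤ n := Nat.cast_nonneg _
  nlinarith

theorem kilq {sub : ℕ → ℝ → ℝ} (hsub : ∀ A ν, 0 < ν → 0 < sub A ν) (w0 q d : ℕ) (hq : 1 ≤ q) {C c θ : ℝ}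
    (hc : 0 < c) (hθ : 0 < θ) : ∃ thr : ℕ → ℕ, Monotone thr ∧ 2 ≤ thr 0 ∧ w0 < thr 0 ∧
      ∑ i ∈ range d, (thr i : ℝ) / (Nat.log 2 (thr (i + 1)) : ℝ) ^ 2 ≤ θ ∧
      ∃ η : ℝ, 0 < η ∧ ∃ n0 : ℕ, ∀ n, n0 ≤ n → ∀ (V : Type) [Atm n V], KilQ w0 sub thr C q d c η n V := by
  obtain ⟨c', hc'⟩ : ∃ c' : ℝ, c' = c / 4 ^ d := ⟨_, rfl⟩
  have hc0 : 0 < c' := by
    rw [hc']
    positivity
  have hS : ∀ A : ℕ, ∃ η : ℝ, 0 < η ∧ ∃ n0 : ℕ, ∀ n, n0 ≤ n → ∀ (V : Type) [Atm n V], SplP sub A q c' η n V :=
    fun A => spl hsub A q hq hc0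
  choose ηS hηS nS hnS using hS
  choose st hst using fun (A l : ℕ) (η : { η : ℝ // 0 < η }) => thr_step C θ hθ A l η.1 η.2
  obtain ⟨t0, ht0⟩ : ∃ t0, t0 = w0 + 2 := ⟨_, rfl⟩
  -- the sequence
  let g : ℕ → ℕ × { η : ℝ // 0 < η } := fun l => Nat.rec (t0, ⟨ηS t0, hηS t0⟩)
    (fun l p => (st p.1 l p.2, ⟨min p.2.1 (ηS (st p.1 l p.2)) / 4,
      div_pos (lt_min p.2.2 (hηS _)) (by norm_num)⟩)) l
  obtain ⟨thr, hthr⟩ : ∃ thr : ℕ → ℕ, thr = fun l => (g l).1 := ⟨_, rfl⟩
  obtain ⟨η, hη⟩ : ∃ η : ℕ → ℝ, η = fun l => (g l).2.1 := ⟨_, rfl⟩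
  have hη0 : ∀ l, 0 < η l := by
    intro l
    rw [hη]
    exact (g l).2.2
  have hthr0 : thr 0 = t0 := by
    rw [hthr]
    rfl
  have hηz : η 0 = ηS t0 := by
    rw [hη]
    rfl
  have hstep : ∀ l, thr l ≤ thr (l + 1) ∧ 2 ≤ thr (l + 1) ∧
      (thr l : ℝ) * 2 ^ (l + 1) ≤ θ * (Nat.log 2 (thr (l + 1)) : ℝ) ^ 2 ∧
      2 * C / Nat.log 2 (thr (l + 1)) ≤ η l * Real.log 2 / 2 := by
    intro l
    have := hst (g l).1 l (g l).2
    rw [hthr, hη]
    exact this
  have hηs : ∀ l, η (l + 1) = min (η l) (ηS (thr (l + 1))) / 4 := by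
    intro l
    rw [hthr, hη]
  have hmono : Monotone thr := monotone_nat_of_le_succ fun l => (hstep l).1
  have hη1 : ∀ l, η (l + 1) ≤ η l := by
    intro l
    rw [hηs]
    have h1 := min_le_left (η l) (ηS (thr (l + 1)))
    have h2 := hη0 l
    linarith
  have hanti : Antitone η := antitone_nat_of_succ_le hη1
  have hthr2 : ∀ l, 2 ≤ thr l := fun l => by
    have := hmono (Nat.zero_le l)
    omega
  have hthrw : ∀ l, w0 < thr l := fun l => by
    have := hmono (Nat.zero_le l)
    omega
  -- all levels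
  have hall : ∀ m, ∃ n0 : ℕ, ∀ n, n0 ≤ n → ∀ (V : Type) [Atm n V], KilQ w0 sub thr C q m (4 ^ m * c') (η m) n V := by
    intro m
    induction m using Nat.strong_induction_on with
    | _ m ih =>
      have ih' : ∀ m', ∃ n0 : ℕ, m' < m → ∀ n, n0 ≤ n → ∀ (V : Type) [Atm n V], KilQ w0 sub thr C q m' (4 ^ m' * c') (η m') n V := by
        intro m'
        by_cases h1 : m' < m
        · obtain ⟨n0, hn0⟩ := ih m' h1
          exact ⟨n0, fun _ => hn0⟩
        · exact ⟨0, fun h2 => absurd h2 h1⟩
      choose nI hnI using ih'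
      obtain ⟨μ, hμ⟩ : ∃ μ : ℝ, μ = if m = 0 then ηS (thr m) else min (η (m - 1) / 2) (ηS (thr m)) :=
        ⟨_, rfl⟩
      have hμ0 : 0 < μ := by
        rw [hμ]
        split_ifs
        · exact hηS _
        · exact lt_min (half_pos (hη0 _)) (hηS _)
      have hμS : μ ≤ ηS (thr m) := by
        rw [hμ]
        split_ifs
        · exact le_rfl
        · exact min_le_right _ _
      have hμm : ∀ l, l < m → μ ≤ η l / 2 := by
        intro l hl
        rw [hμ, if_neg (by omega)]
        refine (min_le_left _ _).trans ?_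
        have := hanti (show l ≤ m - 1 by omega)
        linarith
      have hmerge : ∃ n1 : ℕ, ∀ n : ℕ, n1 ≤ n → ((m : ℝ) + 1) * 2 ^ (-μ * n) ≤ 2 ^ (-η m * n) := by
        rcases Nat.eq_zero_or_pos m with h0 | h0
        · refine ⟨0, fun n _ => ?_⟩
          subst h0
          rw [hμ, if_pos rfl, hηz, hthr0]
          simp
        · refine two_pow_merge hμ0 ?_
          obtain ⟨m', rfl⟩ : ∃ m', m = m' + 1 := ⟨m - 1, by omega⟩
          rw [hηs, hμ, if_neg (by omega), Nat.add_sub_cancel]
          have h1 := hη0 m'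
          have h2 := hηS (thr (m' + 1))
          rcases le_total (η m') (ηS (thr (m' + 1))) with h3 | h3
          · rw [min_eq_left h3]
            rcases le_total (η m' / 2) (ηS (thr (m' + 1))) with h4 | h4
            · rw [min_eq_left h4]
              linarith
            · rw [min_eq_right h4]
              linarith
          · rw [min_eq_right h3]
            rcases le_total (η m' / 2) (ηS (thr (m' + 1))) with h4 | h4
            · rw [min_eq_left h4]
              linarith
            · rw [min_eq_right h4]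
              linarith
      obtain ⟨n1, hn1⟩ := hmerge
      obtain ⟨n2, hn2⟩ := exists_nat_ge (((m : ℝ) + 1) / c')
      refine ⟨(∑ l ∈ range m, nI l) + n1 + n2 + nS (thr m), fun n hn V _ Con K k h hSub hk l hl hd => ?_⟩
      have hnI' : ∀ l, l < m → nI l ≤ n := by
        intro l hl
        have := single_le_sum (f := nI) (fun i _ => Nat.zero_le _) (mem_range.2 hl)
        omega
      -- the flattened list
      obtain ⟨l', hl'⟩ : ∃ l', l' = l.flatMap fun p => cj p.1 p.2 := ⟨_, rfl⟩
      have hform : ∀ p ∈ l', (∃ v, p.1 = .var v) ∨ ∃ A B, p.1 = .imp A B ∧ p.2 = true := by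
        intro p hp
        rw [hl', List.mem_flatMap] at hp
        obtain ⟨r, _, hr⟩ := hp
        exact cj_form hr
      have halt : ∀ p ∈ l', alt p.1 true ≤ m := by
        intro p hp
        have h1 := hform p hp
        rw [hl', List.mem_flatMap] at hp
        obtain ⟨r, hr1, hr⟩ := hp
        have h2 := (cj_alt hr).trans (hd r hr1)
        rcases h1 with ⟨v, hv⟩ | ⟨A, B, hA, hb⟩
        · rw [hv]
          exact Nat.zero_le _
        · rw [hb] at h2
          exact h2
      have hlv : (lq w0 l' : ℝ) ≤ C * n := by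
        rw [hl', lq_flat]
        exact hl
      have hTrl : ∀ (W : Finset (Fin n) → (Fin n → Bool) → Prop) (cc : V → Bool) D x,
          TrL W cc w0 thr D x l ↔ TrL W cc w0 thr D x l' := by
        intro W cc D x
        constructor
        · intro h1 p hp
          rw [hl', List.mem_flatMap] at hp
          obtain ⟨r, hr1, hr⟩ := hp
          exact tr_cj.1 (h1 r hr1) p hr
        · intro h1 r hr
          refine tr_cj.2 fun p hp => h1 p ?_
          rw [hl', List.mem_flatMap]
          exact ⟨r, hr, hp⟩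
      -- budgets
      obtain ⟨kk, hkk⟩ : ∃ kk : ℕ → ℕ, kk = fun j => ⌈(4 : ℝ) ^ j * c' * n⌉₊ := ⟨_, rfl⟩
      have key : ∀ j, j ≤ m → Kll Con w0 thr q K (⌈c' * n⌉₊ + ∑ i ∈ range j, kk i)
          (((j : ℝ) + 1) * 2 ^ (-μ * n))
          (l'.filter fun p => decide (sz p.1 < thr (alt p.1 true) ∨ alt p.1 true ≤ j)) := by
        intro j
        induction j with
        | zero =>
          intro _
          obtain ⟨l0, hl0⟩ : ∃ l0, l0 = (l'.filter fun p => decide (sz p.1 < thr (alt p.1 true) ∨ alt p.1 true ≤ 0)).filter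
            (fun p => decide (¬ ∃ S : V, p.1 = .var S ∧ w0 < (vs S).card)) := ⟨_, rfl⟩
          have hl0m : ∀ p ∈ l0, p ∈ l' ∧ ((∃ S : V, p.1 = .var S ∧ (vs S).card ≤ w0) ∨ ∃ A B, p.1 = .imp A B ∧ p.2 = true) ∧
              sz p.1 < thr (alt p.1 true) := by
            intro p hp
            rw [hl0, List.mem_filter, List.mem_filter, decide_eq_true_eq, decide_eq_true_eq] at hp
            obtain ⟨⟨hp1, hp2⟩, hp3⟩ := hp
            refine ⟨hp1, ?_⟩
            rcases hform p hp1 with ⟨v, hv⟩ | ⟨A, B, hA, hb⟩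
            · have hvc : (vs v).card ≤ w0 := by
                by_contra h2
                exact hp3 ⟨v, hv, by omega⟩
              refine ⟨Or.inl ⟨v, hv, hvc⟩, ?_⟩
              rw [hv]
              have h3 := hthr2 (alt (Fm.var v) true)
              have h4 := hthrw (alt (Fm.var v) true)
              show max 1 (vs v).card < _
              omega
            · refine ⟨Or.inr ⟨A, B, hA, hb⟩, ?_⟩
              rcases hp2 with h1 | h1
              · exact h1
              · rw [hA] at h1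
                simp [alt] at h1
          obtain ⟨T, hT1, hT2, hT3⟩ := hnS (thr m) n (by omega) V Con K ⌈c' * n⌉₊ h hSub (Nat.le_ceil _)
            l0 (by
              intro p hp
              obtain ⟨h1, _, h2⟩ := hl0m p hp
              exact h2.le.trans (hmono (halt p h1)))
          rw [range_zero, sum_empty, add_zero]
          refine ⟨T, hT1, ?_, ?_⟩
          · refine hT2.trans ?_
            rw [Nat.cast_zero, zero_add, one_mul]
            refine Real.rpow_le_rpow_of_exponent_le (by norm_num) ?_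
            refine mul_le_mul_of_nonneg_right ?_ (Nat.cast_nonneg _)
            linarith
          · intro U x hhit W cc hW hWC U' x' hU hx hcn hK hTr
            obtain ⟨D, y, hD, hy, hcy, hly⟩ := hT3 U x hhit W hW hWC U' x' hU hx hcn hK
              fun p hp => (tr_small (hl0m p hp).2.1 (hl0m p hp).2.2).1 (hTr p (by
                rw [hl0] at hp
                exact (List.mem_filter.1 hp).1))
            refine ⟨D, y, hD, hy, hcy, fun p hp => ?_⟩
            by_cases hlong : ∃ S : V, p.1 = .var S ∧ w0 < (vs S).card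
            · obtain ⟨S, hS, hSc⟩ := hlong
              have h1 := hTr p hp
              rw [hS] at h1 ⊢
              exact (tr_varl (by omega)).2 ((tr_varl (by omega)).1 h1)
            · have hp0 : p ∈ l0 := by
                rw [hl0, List.mem_filter]
                exact ⟨hp, by rw [decide_eq_true_eq]; exact hlong⟩
              exact (tr_small (hl0m p hp0).2.1 (hl0m p hp0).2.2).2 (hly p hp0)
        | succ j ihj =>
          intro hjm
          have h1 := ihj (by omega)
          have hkj := hnI j (by omega) n (hnI' j (by omega)) V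
          have h2 : Kll Con w0 thr q K (kk j) (Real.exp (2 * (C * n) / Nat.log 2 (thr (j + 1))) * 2 ^ (-η j * n))
              (l'.filter fun p => decide (thr (alt p.1 true) ≤ sz p.1 ∧ alt p.1 true = j + 1)) := by
            refine kll_large hq (hthr2 (j + 1)) (hthrw (j + 1)) (by positivity) ?_ ?_ ?_
            · intro p hp
              rw [List.mem_filter, decide_eq_true_eq] at hp
              refine ⟨?_, hp.2.2, ?_⟩
              · rcases hform p hp.1 with ⟨v, hv⟩ | h3
                · have h4 := hp.2.2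
                  rw [hv] at h4
                  simp [alt] at h4
                · exact h3
              · have h4 := hp.2.1
                rw [hp.2.2] at h4
                exact h4
            · refine le_trans ?_ hlv
              exact_mod_cast lq_filter (k := w0) l' _
            · intro gl hgl hga
              exact hkj Con K (kk j) h hSub (by
                rw [hkk]
                exact Nat.le_ceil _) gl hgl fun p hp => by
                  have := hga p hp
                  omega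
          have h3 := kll_append h hq (l := l'.filter fun p =>
              decide (sz p.1 < thr (alt p.1 true) ∨ alt p.1 true ≤ j + 1)) (by
            intro p hp
            rw [List.mem_filter, decide_eq_true_eq] at hp
            rw [List.mem_filter, List.mem_filter, decide_eq_true_eq, decide_eq_true_eq]
            rcases hp.2 with h4 | h4
            · exact Or.inl ⟨hp.1, Or.inl h4⟩
            · rcases Nat.lt_or_ge (sz p.1) (thr (alt p.1 true)) with h5 | h5
              · exact Or.inl ⟨hp.1, Or.inl h5⟩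
              · rcases Nat.lt_or_ge j (alt p.1 true) with h6 | h6
                · exact Or.inr ⟨hp.1, h5, by omega⟩
                · exact Or.inl ⟨hp.1, Or.inr h6⟩) (by
            intro p hp
            rw [List.mem_filter, decide_eq_true_eq] at hp ⊢
            refine ⟨hp.1, ?_⟩
            rcases hp.2 with h4 | h4
            · exact Or.inl h4
            · exact Or.inr (by omega)) (by
            intro p hp
            rw [List.mem_filter, decide_eq_true_eq] at hp ⊢
            exact ⟨hp.1, Or.inr (by omega)⟩) h1 h2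
          refine kll_mono (le_of_eq ?_) ?_ h3
          · rw [sum_range_succ]
            ring
          · have h4 : Real.exp (2 * (C * n) / Nat.log 2 (thr (j + 1))) ≤ 2 ^ (η j / 2 * n) := by
              rw [Real.rpow_def_of_pos (by norm_num)]
              refine Real.exp_le_exp.2 ?_
              have h5 := (hstep j).2.2.2
              have h6 : 2 * (C * n) / Nat.log 2 (thr (j + 1)) = 2 * C / Nat.log 2 (thr (j + 1)) * n := by
                ring
              rw [h6]
              calc _ ≤ η j * Real.log 2 / 2 * n := mul_le_mul_of_nonneg_right h5 (Nat.cast_nonneg _)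
                _ = _ := by ring
            have h5 : Real.exp (2 * (C * n) / Nat.log 2 (thr (j + 1))) * 2 ^ (-η j * n) ≤
                2 ^ (-μ * n) := by
              calc _ ≤ (2 : ℝ) ^ (η j / 2 * n) * 2 ^ (-η j * n) :=
                    mul_le_mul_of_nonneg_right h4 (by positivity)
                _ = 2 ^ (-(η j / 2) * n) := by
                    rw [← Real.rpow_add (by norm_num)]
                    congr 1
                    ring
                _ ≤ _ := by
                    refine Real.rpow_le_rpow_of_exponent_le (by norm_num) ?_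
                    refine mul_le_mul_of_nonneg_right ?_ (Nat.cast_nonneg _)
                    have := hμm j (by omega)
                    linarith
            push_cast
            linarith
      have hk1 : ⌈c' * n⌉₊ + ∑ i ∈ range m, kk i ≤ k := by
        have h1 : (⌈c' * n⌉₊ : ℝ) ≤ c' * n + 1 := (Nat.ceil_lt_add_one (by positivity)).le
        have h2 : (∑ i ∈ range m, (kk i : ℝ)) ≤ ∑ i ∈ range m, ((4 : ℝ) ^ i * c' * n + 1) := by
          refine sum_le_sum fun i _ => ?_
          rw [hkk]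
          exact (Nat.ceil_lt_add_one (by positivity)).le
        rcases Nat.eq_zero_or_pos m with h0 | h0
        · subst h0
          rw [range_zero, sum_empty, add_zero]
          refine Nat.ceil_le.2 ?_
          rw [pow_zero, one_mul] at hk
          exact hk
        · have h3 : ∑ i ∈ range m, ((4 : ℝ) ^ i * c' * n + 1) = (∑ i ∈ range m, (4 : ℝ) ^ i) * (c' * n) + m := by
            rw [sum_add_distrib, sum_mul]
            simp [mul_assoc]
          have h4 : (∑ i ∈ range m, (4 : ℝ) ^ i) = (4 ^ m - 1) / 3 := by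
            rw [geom_sum_eq (by norm_num)]
            norm_num
          have h5 : (4 : ℝ) ≤ 4 ^ m := by
            calc (4 : ℝ) = 4 ^ 1 := (pow_one _).symm
              _ ≤ 4 ^ m := pow_le_pow_right₀ (by norm_num) h0
          have h6 : (m : ℝ) + 1 ≤ c' * n := by
            have h7 : ((m : ℝ) + 1) / c' ≤ n := hn2.trans (by
              have : n2 ≤ n := by omega
              exact_mod_cast this)
            rw [div_le_iff₀ hc0] at h7
            linarith
          have h7 : ((⌈c' * n⌉₊ + ∑ i ∈ range m, kk i : ℕ) : ℝ) ≤ k := by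
            push_cast
            rw [h3, h4] at h2
            have h8 : 0 < c' * n := by
              have : (0 : ℝ) ≤ m := Nat.cast_nonneg _
              linarith
            have h9 : (4 : ℝ) ^ m * c' * n = 4 ^ m * (c' * n) := by ring
            rw [h9] at hk
            nlinarith
          exact_mod_cast h7
      have hfin := kll_mono hk1 (hn1 n (by omega)) (key m le_rfl)
      refine kll_congr (fun W cc D x => (hTrl W cc D x).trans ?_) hfin
      constructor
      · intro h1 p hp
        exact h1 p (List.mem_filter.1 hp).1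
      · intro h1 p hp
        refine h1 p ?_
        rw [List.mem_filter, decide_eq_true_eq]
        exact ⟨hp, Or.inr (halt p hp)⟩
  obtain ⟨n0, hn0⟩ := hall d
  refine ⟨thr, hmono, hthr2 0, hthrw 0, ?_, η d, hη0 d, n0, fun n hn => ?_⟩
  · calc ∑ i ∈ range d, (thr i : ℝ) / (Nat.log 2 (thr (i + 1)) : ℝ) ^ 2 ≤ ∑ i ∈ range d, θ * (1 / 2) ^ (i + 1) := by
          refine sum_le_sum fun i _ => ?_
          have h1 := (hstep i).2.2.1
          have h2 : (0 : ℝ) < (Nat.log 2 (thr (i + 1)) : ℝ) ^ 2 := by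
            have h3 := Nat.log_pos (b := 2) (by norm_num) (hthr2 (i + 1))
            have h4 : (0 : ℝ) < Nat.log 2 (thr (i + 1)) := by exact_mod_cast h3
            positivity
          rw [div_le_iff₀ h2, one_div, inv_pow, mul_assoc, mul_comm _ ((Nat.log 2 (thr (i + 1)) : ℝ) ^ 2), ← mul_assoc]
          rw [le_mul_inv_iff₀ (by positivity)]
          exact h1
      _ = θ * ∑ i ∈ range d, (1 / 2 : ℝ) ^ (i + 1) := by rw [mul_sum]
      _ ≤ θ * 1 := by
          refine mul_le_mul_of_nonneg_left ?_ hθ.le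
          rw [geo_half d]
          have : (0 : ℝ) ≤ (1 / 2) ^ d := by positivity
          linarith
      _ = θ := mul_one θ
  · intro V _
    have h1 := hn0 n hn V
    have h2 : (4 : ℝ) ^ d * c' = c := by
      rw [hc']
      field_simp
    rw [h2] at h1
    exact h1

end Pool.H86.MG
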