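import Mathlib
import Pool.Agent.H6.LD.Prb
import Pool.Agent.H86.MG.Kil
import Pool.Agent.H86.MG.Cor

set_option autoImplicit false
set_option linter.unusedSectionVars false

/-!
# Module DET (THEOREM LP): the deterministic theorem
-/

namespace Pool.H86.MG

open Finset Classical Pool.Agent.H3.Frg Pool.Agent.H3.Frg2 Pool.Agent.H3.Frg4 Pool.Agent.H55.QT Pool.H6.LD

theorem det4 {sub : ℕ → ℝ → ℝ} (hsub : ∀ A ν, 0 < ν → 0 < sub A ν) {κ : ℝ} (hκ : 0 < κ) (k k0 : ℕ) :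
    ∃ T : ℕ, 0 < T ∧ ∀ (n m r K : ℕ) (V : Type) [Atm n V] (B : Fin m → Finset (Fin n))
      (b : Fin m → Bool), (∀ I : Finset (Fin m), I.card ≤ r → I.card ≤ 4 * (par B I).card) →
      κ * n ≤ K → 8 * K ≤ r → (∀ A ν, 0 < ν → SubT (XCon B b r) A ν (sub A ν)) →
      ∀ (Gd : Finset V → Prop)
        (Wc : Finset V → (V → Bool) → Finset (Fin n) → (Fin n → Bool) → Prop),
      Cms (XCon B b r) K Gd Wc →
      ∀ Γ : Set (Fm V), (∀ F ∈ Γ, (sz F ≤ k0 ∧ ∀ y, XCon B b r (fs F) y → F.eval (pv y) = true) ∨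
        (F.leaves ≤ k0 ∧ ∀ z : Fin n → Bool, F.eval (pv z) = true)) →
      ∀ Sch : Set (Fm ℕ), (∀ ψ ∈ Sch, ψ.len ≤ k0 ∧ ∀ x : ℕ → Bool, ψ.eval x = true) →
      ∀ (N : ℕ) (pf : Fin N → Fm V), DerX k Sch Γ pf →
      ((∃ i j, pf i = Fm.neg (pf j)) ∨ 2 ≤ N ∧ ∃ i, (pf i).leaves ≤ k0 ∧ ∀ z : Fin n → Bool, (pf i).eval (pv z) = false) →
      (∀ i, Fewq k (n / T) (k * n) (pf i)) → (∀ i j l, Gd (lg k (pf i) ∪ lg k (pf j) ∪ lg k (pf l))) →
      (2 : ℝ) ^ ((n : ℝ) / T) ≤ N := by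
  obtain ⟨q, hq⟩ := exists_nat_ge (16 / κ)
  have hq1 : 1 ≤ q := by
    have h1 : 0 < 16 / κ := by positivity
    have h2 : (0 : ℝ) < q := h1.trans_le hq
    exact_mod_cast h2
  have hk0 : (0 : ℝ) ≤ k0 := Nat.cast_nonneg _
  have hkr : (0 : ℝ) ≤ k := Nat.cast_nonneg _
  obtain ⟨θ, hθdef⟩ : ∃ θ : ℝ, θ = κ / (48 * (k0 + 1) * (k + 1)) := ⟨_, rfl⟩
  have hθ : 0 < θ := by
    rw [hθdef]
    positivity
  obtain ⟨thr, hmono, hthr0, hthrk, hsum, η, hη, n1, hkil⟩ :=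
    kilq hsub k q k hq1 (C := 2 * k) (show 0 < κ / 8 by positivity) hθ
  obtain ⟨n2, hn2⟩ := exists_nat_ge (2 / η)
  obtain ⟨n3, hn3⟩ := exists_nat_ge ((2 * k0 + 2 + thr k) * 8 / κ)
  obtain ⟨n4, hn4⟩ := exists_nat_ge ((thr k : ℝ) * (24 * (k0 + 1)) / κ)
  obtain ⟨t1, ht1⟩ := exists_nat_ge (6 / η)
  obtain ⟨t2, ht2⟩ := exists_nat_ge ((thr k : ℝ) * (48 * (k0 + 1)) / κ)
  obtain ⟨T, hT⟩ : ∃ T : ℕ, T = n1 + n2 + n3 + n4 + t1 + t2 + 1 := ⟨_, rfl⟩
  refine ⟨T, by omega, fun n m r K V _ B b hx hKn hK8 hB Gd Wc hX Γ hΓ Sch hS N pf hpf hcon hd hG => ?_⟩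
  have hT0 : (0 : ℝ) < T := by exact_mod_cast (by omega : 0 < T)
  have hn0 : (0 : ℝ) ≤ n := Nat.cast_nonneg _
  rcases Nat.lt_or_ge n (n1 + n2 + n3 + n4) with hn | hn
  · have hN : 2 ≤ N := by
      by_contra h1
      rcases hcon with ⟨i, j, hij⟩ | ⟨hN, -⟩
      · have h2 : i = j := by
          apply Fin.ext
          have := i.2
          have := j.2
          omega
        rw [h2] at hij
        have h3 := congrArg Fm.len hij
        simp [Fm.len] at h3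
      · exact h1 hN
    have h1 : (n : ℝ) / T ≤ 1 := by
      rw [div_le_one hT0]
      exact_mod_cast (by omega : n ≤ T)
    calc (2 : ℝ) ^ ((n : ℝ) / T) ≤ 2 ^ (1 : ℝ) :=
          Real.rpow_le_rpow_of_exponent_le (by norm_num) h1
      _ = 2 := Real.rpow_one 2
      _ ≤ N := by exact_mod_cast hN
  have hn1' : n1 ≤ n := by omega
  have hn2' : 2 / η ≤ n := hn2.trans (by
    have : n2 ≤ n := by omega
    exact_mod_cast this)
  have hn3' : (2 * (k0 : ℝ) + 2 + thr k) * 8 / κ ≤ n := hn3.trans (by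
    have : n3 ≤ n := by omega
    exact_mod_cast this)
  have hn4' : (thr k : ℝ) * (24 * (k0 + 1)) / κ ≤ n := hn4.trans (by
    have : n4 ≤ n := by omega
    exact_mod_cast this)
  have ht1' : 6 / η ≤ T := ht1.trans (by
    have : t1 ≤ T := by omega
    exact_mod_cast this)
  have ht2' : (thr k : ℝ) * (48 * (k0 + 1)) / κ ≤ T := ht2.trans (by
    have : t2 ≤ T := by omega
    exact_mod_cast this)
  rw [div_le_iff₀ hη] at hn2' ht1'
  rw [div_le_iff₀ hκ] at hn3' hn4' ht2'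
  have ht0 : (0 : ℝ) ≤ thr k := Nat.cast_nonneg _
  obtain ⟨a, ha⟩ : ∃ a : ℝ, a = κ * n / 8 := ⟨_, rfl⟩
  have ha0 : 0 ≤ a := by
    rw [ha]
    positivity
  have ha1 : 2 * (k0 : ℝ) + 2 + thr k ≤ a := by
    rw [ha]
    linarith
  have hKa : 8 * a ≤ K := by
    have h1 : κ * n = 8 * a := by
      rw [ha]
      ring
    linarith
  obtain ⟨kU, hkU⟩ : ∃ kU : ℕ, kU = ⌈a⌉₊ := ⟨_, rfl⟩
  obtain ⟨kd, hkd⟩ : ∃ kd : ℕ, kd = ⌈a / (3 * (k0 + 1))⌉₊ := ⟨_, rfl⟩
  have hkU1 : a ≤ kU := by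
    rw [hkU]
    exact Nat.le_ceil _
  have hkU2 : (kU : ℝ) ≤ a + 1 := by
    rw [hkU]
    exact (Nat.ceil_lt_add_one ha0).le
  have hkd1 : a / (3 * (k0 + 1)) ≤ kd := by
    rw [hkd]
    exact Nat.le_ceil _
  have hkd2 : (kd : ℝ) ≤ a / (3 * (k0 + 1)) + 1 := by
    rw [hkd]
    exact (Nat.ceil_lt_add_one (by positivity)).le
  have hkd3 : 3 * k0 * (kd : ℝ) ≤ a + 3 * k0 := by
    have h1 : 3 * (k0 : ℝ) * kd ≤ 3 * k0 * (a / (3 * (k0 + 1)) + 1) :=
      mul_le_mul_of_nonneg_left hkd2 (by positivity)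
    have h2 : 3 * (k0 : ℝ) * (a / (3 * (k0 + 1))) ≤ a := by
      rw [mul_div_assoc', div_le_iff₀ (by positivity)]
      nlinarith
    linarith
  have hkd4 : (kd : ℝ) ≤ a / 3 + 1 := by
    have h1 : a / (3 * ((k0 : ℝ) + 1)) ≤ a / 3 := by
      refine div_le_div_of_nonneg_left ha0 (by norm_num) ?_
      linarith
    linarith
  have hb : kU + kU + (kd + thr k) + 3 * k0 * kd + k0 + kU ≤ K := by
    have : (kU : ℝ) + kU + (kd + thr k) + 3 * k0 * kd + k0 + kU ≤ K := by linarith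
    exact_mod_cast this
  have hkUK : kU ≤ K := by omega
  have hTd : thr k ≤ kd := by
    have : (thr k : ℝ) ≤ kd := by
      refine le_trans ?_ hkd1
      rw [ha, le_div_iff₀ (by positivity)]
      linarith
    exact_mod_cast this
  obtain ⟨M, hM⟩ : ∃ M : ℕ, M = n / T := ⟨_, rfl⟩
  rw [← hM] at hd
  have hMT : (M : ℝ) * T ≤ n := by
    have : M * T ≤ n := by
      rw [hM]
      exact Nat.div_mul_le_self n T
    exact_mod_cast this
  have hM0 : (0 : ℝ) ≤ M := Nat.cast_nonneg _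
  have hdec : θ * ((k * n : ℕ) : ℝ) + M * thr k ≤ kd := by
    refine le_trans ?_ hkd1
    have h1 : θ * ((k * n : ℕ) : ℝ) ≤ a / (6 * (k0 + 1)) := by
      have h2 : θ * ((k * n : ℕ) : ℝ) = a / (6 * (k0 + 1)) * (k / (k + 1)) := by
        rw [hθdef, ha]
        push_cast
        field_simp
        ring
      rw [h2]
      have h3 : (k : ℝ) / (k + 1) ≤ 1 := (div_le_one (by linarith)).2 (by linarith)
      have h4 : 0 ≤ a / (6 * ((k0 : ℝ) + 1)) := by positivity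
      calc _ ≤ a / (6 * ((k0 : ℝ) + 1)) * 1 := mul_le_mul_of_nonneg_left h3 h4
        _ = _ := mul_one _
    have h2 : (M : ℝ) * thr k ≤ a / (6 * (k0 + 1)) := by
      rw [ha, le_div_iff₀ (by positivity)]
      have h5 : (M : ℝ) * (thr k * (48 * (k0 + 1))) ≤ M * (T * κ) :=
        mul_le_mul_of_nonneg_left ht2' hM0
      have h6 : (M : ℝ) * (T * κ) ≤ n * κ := by
        have := mul_le_mul_of_nonneg_right hMT hκ.le
        linarith
      linarith
    have h3 : a / (3 * ((k0 : ℝ) + 1)) = a / (6 * (k0 + 1)) + a / (6 * (k0 + 1)) := by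
      field_simp
      ring
    rw [h3]
    linarith
  have hw := xwld (b := b) hx hK8
  have hfin := core3 hw hX hmono hthr0 (k := k) (k0 := k0) (kU := kU) (kc := kU) (kd := kd) (M := M)
    (Mw := k * n) hthrk (w := 2 ^ (-η * n)) (q := q) hsum hθ.le hdec hTd hq1 (by positivity)
    (hitall hx hK8 hq1 hkUK (by
      have h1 : (2 * n : ℝ) ≤ q * kU := by
        have h2 : 16 / κ * a = 2 * n := by
          rw [ha]
          field_simp
          ring
        rw [← h2]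
        exact mul_le_mul hq hkU1 ha0 (Nat.cast_nonneg _)
      exact_mod_cast h1))
    (fun l hl hdl => hkil n hn1' V (XCon B b r) K kU hw (fun A ν hν => hB A ν hν) (by
      refine le_trans (le_of_eq ?_) hkU1
      rw [ha]
      ring) l (by
        have h1 : (lq k l : ℝ) ≤ ((2 * (k * n) : ℕ) : ℝ) := by exact_mod_cast hl
        refine h1.trans (le_of_eq ?_)
        push_cast
        ring) hdl)
    hb hΓ hS hpf (hcon.imp id fun h => h.2) hd hG
  -- conclusion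
  have h1 : (n : ℝ) / T ≤ η * n - 2 * M - 1 := by
    have h2 : (n : ℝ) / T ≤ η * n / 6 := by
      rw [div_le_div_iff₀ hT0 (by norm_num)]
      nlinarith
    have h3 : (M : ℝ) ≤ n / T := by
      rw [le_div_iff₀ hT0]
      exact hMT
    linarith
  have h2 : (4 : ℝ) ^ M = 2 ^ (2 * (M : ℝ)) := by
    rw [Real.rpow_mul (by norm_num), Real.rpow_natCast]
    norm_num
  rw [h2, ← Real.rpow_add (by norm_num)] at hfin
  have h3 : (1 / 2 : ℝ) = 2 ^ (-1 : ℝ) := by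
    rw [Real.rpow_neg_one]
    norm_num
  rw [h3] at hfin
  have h4 : (0 : ℝ) ≤ 2 ^ (η * n - 2 * M) := by positivity
  calc (2 : ℝ) ^ ((n : ℝ) / T) ≤ 2 ^ (η * n - 2 * M - 1) :=
        Real.rpow_le_rpow_of_exponent_le (by norm_num) h1
    _ = 2 ^ (-1 : ℝ) * 2 ^ (η * n - 2 * M) := by
        rw [← Real.rpow_add (by norm_num)]
        congr 1
        ring
    _ ≤ N * 2 ^ (2 * (M : ℝ) + -η * n) * 2 ^ (η * n - 2 * M) := mul_le_mul_of_nonneg_right hfin h4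
    _ = N := by
        rw [mul_assoc, ← Real.rpow_add (by norm_num), show 2 * (M : ℝ) + -η * n + (η * n - 2 * M) = 0 by ring,
          Real.rpow_zero, mul_one]

end Pool.H86.MG
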