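import Mathlib
import Pool.Agent.H86.MG.Mdf
import Pool.Agent.H86.XP.Defs

set_option autoImplicit false
set_option linter.unusedSectionVars false

/-!
# THEOREM LPm (bounded depth formulas over `MOD_q` gates, random 3-CNFs): axioms
-/

namespace Pool.H86.MG

open Finset Classical Pool.Agent.H3.Frg Pool.Agent.H3.Frg2 Pool.Agent.H3.Frg4 Pool.Agent.H55.QT Pool.H6.LD

/-- The axioms of length at most `k`: the formulas over gates which follow from the clauses of `φ` whose variables are variables of
the formula. -/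
def AxM (q : ℕ) {n m : ℕ} (φ : Fin m → Pool.Agent.H55.QT.Cl n) (k : ℕ) : Set (Fm (Ga q n)) :=
  {F | sz F ≤ k ∧ ∀ y : Fin n → Bool, (∀ j, cvar (φ j) ⊆ fs F → ∃ a, y ((φ j).1 a) = (φ j).2 a) → F.eval (pv y) = true}

/-- The valid formulas over gates with at most `k` occurrences of gates. -/
def ValM (q n k : ℕ) : Set (Fm (Ga q n)) := {F | F.leaves ≤ k ∧ ∀ x : Fin n → Bool, F.eval (pv x) = true}

/-- The loss: 1 for the modulus 2, otherwise about `log_2 n`. -/
def ml (q n : ℕ) : ℕ := if q = 2 then 1 else Nat.log 2 n + 1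

end Pool.H86.MG
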