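import Mathlib
import Pool.Agent.H86.MG.Mda
import Pool.Agent.H86.MG.Mdg

set_option autoImplicit false
set_option linter.unusedSectionVars false

/-!
# THEOREM LPg (parities and `MOD_q` gates together): the length of the gates which are not parities
-/

namespace Pool.H86.MG

open Finset Classical Pool.Agent.H3.Frg Pool.Agent.H3.Frg2 Pool.Agent.H3.Frg4 Pool.Agent.H55.QT Pool.H6.LD

/-- The length of the occurrences of gates which are not parities (a gate with `f + f = 0` is a parity, the negation of a parity
or constant). -/
noncomputable def szn {q n : ℕ} : Fm (Ga q n) → ℕ
  | .var a => if a.f + a.f = 0 then 0 else max 1 (sp a.f).card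
  | .neg A => szn A
  | .imp A B => szn A + szn B

end Pool.H86.MG
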