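import Mathlib
import Pool.Agent.H6.LD.Prb
import Pool.Agent.H6.LE.Tcp
import Pool.Agent.H6.LE.Grt
import Pool.Agent.H6.LE.Sbg
import Pool.Agent.H55.QT.RFin
import Pool.Agent.H86.XP.Exf
import Pool.Agent.H86.XP.Ext
import Pool.Agent.H86.XP.Rnd
import Pool.Agent.H86.XP.Cla
import Pool.Agent.H86.MG.Det
import Pool.Agent.H86.MG.Mdh
import Pool.Agent.H86.MG.Cmg

set_option autoImplicit false
set_option linter.unusedSectionVars false

/-!
# Module FIG (THEOREM LPg): random 3-CNFs, parities and `MOD_q` gates, with probability tending to 1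
-/

namespace Pool.H86.MG

open Finset Classical Pool.Agent.H3.Frg Pool.Agent.H3.Frg2 Pool.Agent.H3.Frg4 Pool.Agent.H55.QT Pool.H6.LD Pool.H6.QL

private theorem xp_sat {Δ n : ℕ} (hΔ : 6 ≤ Δ) :
    ((univ.filter fun φ : Fin (Δ * n) → Pool.Agent.H55.QT.Cl n => Sat φ).card : ℝ) ≤
      (9 / 10 : ℝ) ^ n * Fintype.card (Fin (Δ * n) → Pool.Agent.H55.QT.Cl n) := by
  have h1 := card_sat (n := n) (m := Δ * n)
  obtain ⟨A, hA⟩ : ∃ A, A = (univ.filter fun φ : Fin (Δ * n) → Pool.Agent.H55.QT.Cl n => Sat φ).card := ⟨_, rfl⟩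
  obtain ⟨T, hT⟩ : ∃ T, T = Fintype.card (Fin (Δ * n) → Pool.Agent.H55.QT.Cl n) := ⟨_, rfl⟩
  rw [← hA, ← hT] at h1 ⊢
  have h2 : (8 : ℝ) ^ (Δ * n) * A ≤ 2 ^ n * 7 ^ (Δ * n) * T := by exact_mod_cast h1
  have h3 : (A : ℝ) ≤ (2 ^ n * (7 / 8 : ℝ) ^ (Δ * n)) * T := by
    have h8 : (0 : ℝ) < 8 ^ (Δ * n) := by positivity
    have e1 : (2 ^ n * (7 / 8 : ℝ) ^ (Δ * n)) * T = 2 ^ n * 7 ^ (Δ * n) * T / 8 ^ (Δ * n) := by
      rw [div_pow]
      ring
    rw [e1, le_div_iff₀ h8]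
    linarith
  refine h3.trans ?_
  refine mul_le_mul_of_nonneg_right ?_ (Nat.cast_nonneg _)
  rw [pow_mul, ← mul_pow]
  refine pow_le_pow_left₀ (by positivity) ?_ n
  have h4 : (7 / 8 : ℝ) ^ Δ ≤ (7 / 8 : ℝ) ^ 6 :=
    pow_le_pow_of_le_one (by norm_num) (by norm_num) hΔ
  have h5 : (7 / 8 : ℝ) ^ 6 ≤ 9 / 20 := by norm_num
  linarith

/-- the function `sub` for all sets of clauses with the property `Tch` -/
private theorem sub_ex {C : ℝ} (hC : 0 ≤ C) : ∃ sub : ℕ → ℝ → ℝ, (∀ A ν, 0 < ν → 0 < sub A ν) ∧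
    ∀ (n m r : ℕ) (B : Fin m → Finset (Fin n)) (b : Fin m → Bool),
      (∀ I : Finset (Fin m), I.card ≤ r → I.card ≤ 4 * (par B I).card) → (∀ j, (B j).card ≤ 3) → Tch C B →
      ∀ A ν, 0 < ν → SubT (XCon B b r) A ν (sub A ν) := by
  have h1 : ∀ (A : ℕ) (ν : ℝ), ∃ M : ℝ, 0 < M ∧ (0 < ν → ∀ (n m : ℕ) (B : Fin m → Finset (Fin n)),
      (∀ j, (B j).card ≤ 3) → Tch C B →
      ((univ.filter fun v => M < (((nb B)^[8 * A + 1] {v}).card : ℝ)).card : ℝ) ≤ ν / 2 * n) := by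
    intro A ν
    by_cases hν : 0 < ν
    · obtain ⟨M, hM, h2⟩ := bad_le hC (8 * A + 1) (half_pos hν)
      exact ⟨M, hM, fun _ => h2⟩
    · exact ⟨1, one_pos, fun h2 => absurd h2 hν⟩
  choose M hM hM2 using h1
  refine ⟨fun A ν => ν / 2 / (A * M A ν + 1), fun A ν hν => ?_, fun n m r B b hx hB hT A ν hν => ?_⟩
  · have := hM A ν
    positivity
  · exact xsub2 hx (hM A ν) (hM2 A ν hν n m B hB hT)

private theorem tch_sub {n m : ℕ} {C : ℝ} {B B' : Fin m → Finset (Fin n)} (h : Tch C B) (hB : ∀ j, B' j ⊆ B j) :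
    Tch C B' := by
  intro S
  refine le_trans ?_ (h S)
  have h1 : (univ.filter fun j => ¬ Disjoint (B' j) S) ⊆ univ.filter fun j => ¬ Disjoint (B j) S := by
    intro j hj
    rw [mem_filter] at hj ⊢
    exact ⟨hj.1, fun h2 => hj.2 (Disjoint.mono_left (hB j) h2)⟩
  exact_mod_cast card_le_card h1

/-- the group generated by two sets of gates -/
theorem spn_un2 {q n : ℕ} [NeZero q] (G G' : Finset (Ga q n)) : (spn (G ∪ G')).card ≤ (spn G).card * (spn G').card := by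
  have h1 : spn (G ∪ G') ⊆ (spn G ×ˢ spn G').image fun p => p.1 + p.2 := by
    intro F hF
    obtain ⟨A, hA, B, hB, rfl⟩ := spn_union hF
    exact mem_image.2 ⟨(A, B), mem_product.2 ⟨hA, hB⟩, rfl⟩
  refine (card_le_card h1).trans (card_image_le.trans ?_)
  rw [card_product]

/-- the doubles of the group generated by two sets of gates -/
theorem spn_db2 {q n : ℕ} [NeZero q] (G G' : Finset (Ga q n)) :
    (db (spn (G ∪ G'))).card ≤ (db (spn G)).card * (db (spn G')).card := by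
  have h1 : db (spn (G ∪ G')) ⊆ (db (spn G) ×ˢ db (spn G')).image fun p => p.1 + p.2 := by
    intro E hE
    unfold db at hE
    rw [mem_image] at hE
    obtain ⟨F, hF, rfl⟩ := hE
    obtain ⟨A, hA, B, hB, rfl⟩ := spn_union hF
    refine mem_image.2 ⟨(A + A, B + B), mem_product.2 ⟨mem_image_of_mem _ hA, mem_image_of_mem _ hB⟩, ?_⟩
    show A + A + (B + B) = A + B + (A + B)
    abel
  refine (card_le_card h1).trans (card_image_le.trans ?_)
  rw [card_product]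

/-- the supports of the forms in the groups of three lines -/
private theorem fam_card {q n N M : ℕ} [NeZero q] {pf : Fin N → Finset (Ga q n)}
    (hM : ∀ i j l, (spn (pf i ∪ pf j ∪ pf l)).card ≤ M) :
    ∃ 𝒮 : Finset (Finset (Fin n)), 𝒮.card ≤ N ^ 3 * M ∧
      ∀ i j l, ∀ F ∈ spn (pf i ∪ pf j ∪ pf l), sp F ∈ 𝒮 := by
  refine ⟨(univ : Finset (Fin N × Fin N × Fin N)).biUnion fun p =>
    (spn (pf p.1 ∪ pf p.2.1 ∪ pf p.2.2)).image sp, ?_, fun i j l F hF => ?_⟩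
  · refine (card_biUnion_le_card_mul _ _ M fun p _ => card_image_le.trans (hM _ _ _)).trans (le_of_eq ?_)
    rw [card_univ, Fintype.card_prod, Fintype.card_prod, Fintype.card_fin]
    ring
  · exact mem_biUnion.2 ⟨(i, j, l), mem_univ _, mem_image_of_mem _ hF⟩

/-- the world of the equations does not depend on variables which are in no equation -/
private theorem x_ins {n m r : ℕ} {B : Fin m → Finset (Fin n)} {b : Fin m → Bool} {U : Finset (Fin n)}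
    (hU : ∀ j, Disjoint (B j) U) : ∀ D (y y' : Fin n → Bool), (∀ v, v ∉ U → y v = y' v) →
      XCon B b r D y → XCon B b r D y' := by
  intro D y y' hy h I hI hs
  rw [← h I hI hs]
  unfold sm
  refine sum_congr rfl fun v hv => ?_
  rw [hy v fun hvU => ?_]
  unfold Pool.Agent.H55.QT.par at hv
  rw [mem_filter] at hv
  have h2 : (I.filter fun j => v ∈ B j).card ≠ 0 := by
    intro h3
    rw [h3] at hv
    exact (by decide : ¬ Odd 0) hv.2
  obtain ⟨j, hj⟩ := Finset.card_ne_zero.1 h2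
  rw [mem_filter] at hj
  exact Finset.disjoint_left.1 (hU j) hj.2 hvU

theorem lmg (q : ℕ) [NeZero q] {Δ : ℕ} (hΔ : 6 ≤ Δ) : ∃ T1 : ℕ, 0 < T1 ∧ ∃ T : ℕ → ℕ, (∀ k, 0 < T k) ∧ ∀ e : ℝ, 0 < e →
    ∃ n0 : ℕ, ∀ n : ℕ, n0 ≤ n →
      ((univ.filter fun φ : Fin (Δ * n) → Pool.Agent.H55.QT.Cl n => ¬ (¬ Sat φ ∧
        ∀ (k : ℕ) (Sch : Set (Fm ℕ)), (∀ ψ ∈ Sch, ψ.len ≤ k ∧ ∀ x : ℕ → Bool, ψ.eval x = true) →
        ∀ (N : ℕ) (pf : Fin N → Fm (Ga q n)), DerX k Sch (AxM q φ (k + 3) ∪ ValM q n k) pf →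
          (∃ i j, pf i = Fm.neg (pf j)) →
          (∀ i, Fewq k (n / T k) (k * n) (pf i) ∧
            (spn (lg k (pf i))).card ≤ 2 ^ (n / T1) ∧
            (db (spn (lg k (pf i)))).card ≤ 2 ^ (n / (T1 * (Nat.log 2 n + 1)))) →
          (2 : ℝ) ^ ((n : ℝ) / T k) ≤ N)).card : ℝ) ≤
        e * Fintype.card (Fin (Δ * n) → Pool.Agent.H55.QT.Cl n) := by
  obtain ⟨C1, hkey⟩ := keg q
  have hcmm := cmm2 hkey
  obtain ⟨c, hc0, hc1, hexf⟩ := Pool.H86.XP.exf (by omega : 1 ≤ Δ)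
  obtain ⟨C, hC0, htcp⟩ := tcp (by omega : 1 ≤ Δ)
  obtain ⟨sub, hsub, hsubT⟩ := sub_ex hC0.le
  obtain ⟨δ, hδ⟩ : ∃ δ : ℝ, δ = c / 64 := ⟨_, rfl⟩
  have hδ0 : 0 < δ := by
    rw [hδ]
    positivity
  obtain ⟨κr, η, hκr, hη, hrnd⟩ := Pool.H86.XP.rnd hC0.le hδ0
  obtain ⟨μ, hμ⟩ : ∃ μ : ℝ, μ = min κr δ := ⟨_, rfl⟩
  have hμ0 : 0 < μ := by
    rw [hμ]
    exact lt_min hκr hδ0
  have hμκ : μ ≤ κr := by
    rw [hμ]
    exact min_le_left _ _
  have hμδ : μ ≤ δ := by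
    rw [hμ]
    exact min_le_right _ _
  choose T0 hT0 hdet using fun k => det4 hsub (show 0 < μ / 4 by positivity) k (k + 3)
  obtain ⟨t1, ht1⟩ := exists_nat_ge (6 / η)
  obtain ⟨t2, ht2⟩ := exists_nat_ge (24 * C1 / μ)
  obtain ⟨t, htt⟩ : ∃ t, t = t1 + t2 + 3 := ⟨_, rfl⟩
  have ht0 : 0 < t := by omega
  have htr : (0 : ℝ) < t := by exact_mod_cast ht0
  have ht : 6 / η ≤ t := ht1.trans (by
    rw [htt]
    exact_mod_cast (by omega : t1 ≤ t1 + t2 + 3))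
  have ht3 : 24 * C1 / μ ≤ t := ht2.trans (by
    rw [htt]
    exact_mod_cast (by omega : t2 ≤ t1 + t2 + 3))
  rw [div_le_iff₀ hη] at ht
  rw [div_le_iff₀ hμ0] at ht3
  refine ⟨t, ht0, fun k => T0 k + t, fun k => Nat.add_pos_right _ ht0, fun e he => ?_⟩
  have he3 : 0 < e / 3 := by positivity
  obtain ⟨n1, hn1⟩ := exists_pow_lt_of_lt_one (y := (9 / 10 : ℝ)) he3 (by norm_num)
  obtain ⟨n2, hn2⟩ := exists_nat_ge (16 / c)
  obtain ⟨n3, hn3⟩ := hexf (e / 3) he3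
  obtain ⟨n4, hn4⟩ := htcp (e / 3) he3
  obtain ⟨n5, hn5⟩ := exists_nat_ge (4 / μ)
  refine ⟨n1 + n2 + n3 + n4 + n5 + 1, fun n hn => ?_⟩
  have hn1' : n1 ≤ n := by omega
  have hn2' : n2 ≤ n := by omega
  have hn5' : n5 ≤ n := by omega
  have hn0 : 0 < n := by omega
  have hnr : (0 : ℝ) < n := by exact_mod_cast hn0
  have hcn : 16 ≤ c * n := by
    have h1 : 16 / c ≤ n := hn2.trans (by exact_mod_cast hn2')
    rw [div_le_iff₀ hc0] at h1
    linarith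
  have hμn : 4 ≤ μ * n := by
    have h1 : 4 / μ ≤ n := hn5.trans (by exact_mod_cast hn5')
    rw [div_le_iff₀ hμ0] at h1
    linarith
  obtain ⟨r, hr⟩ : ∃ r, r = ⌊c * n⌋₊ := ⟨_, rfl⟩
  have hr1 : 1 ≤ r := by
    rw [hr]
    refine Nat.le_floor ?_
    rw [Nat.cast_one]
    linarith
  have hrl : c * n - 1 ≤ (r : ℝ) := by
    have h1 := Nat.lt_floor_add_one (c * (n : ℝ))
    rw [← hr] at h1
    linarith
  obtain ⟨Kc, hKcd⟩ : ∃ Kc, Kc = r / 8 := ⟨_, rfl⟩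
  have hKc8 : 8 * Kc ≤ r := by omega
  have hKcl : c * n / 8 - 9 / 8 ≤ (Kc : ℝ) := by
    have h1 : r ≤ 8 * Kc + 7 := by omega
    have h2 : (r : ℝ) ≤ 8 * Kc + 7 := by exact_mod_cast h1
    linarith
  obtain ⟨K2, hK2⟩ : ∃ K2, K2 = ⌊μ * n⌋₊ := ⟨_, rfl⟩
  have hK2u : (K2 : ℝ) ≤ μ * n := by
    rw [hK2]
    exact Nat.floor_le (by positivity)
  have hK2l : μ * n - 1 ≤ (K2 : ℝ) := by
    have h1 := Nat.lt_floor_add_one (μ * (n : ℝ))
    rw [← hK2] at h1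
    linarith
  obtain ⟨K, hK⟩ : ∃ K, K = ⌊μ / 2 * n⌋₊ := ⟨_, rfl⟩
  have hKu : (K : ℝ) ≤ μ / 2 * n := by
    rw [hK]
    exact Nat.floor_le (by positivity)
  have hKl : μ / 4 * n ≤ (K : ℝ) := by
    have h1 := Nat.lt_floor_add_one (μ / 2 * (n : ℝ))
    rw [← hK] at h1
    linarith
  obtain ⟨δ', hδ'⟩ : ∃ δ', δ' = ⌊δ * n⌋₊ := ⟨_, rfl⟩
  have hδu : (δ' : ℝ) ≤ δ * n := by
    rw [hδ']
    exact Nat.floor_le (by positivity)
  have hμn2 : μ * n ≤ δ * n := mul_le_mul_of_nonneg_right hμδ hnr.le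
  -- the number of forms
  obtain ⟨L, hL⟩ : ∃ L, L = Nat.log 2 n + 1 := ⟨_, rfl⟩
  have hL0 : 0 < L := by omega
  obtain ⟨s1, hs1⟩ : ∃ s1, s1 = n / t := ⟨_, rfl⟩
  obtain ⟨s0, hs0⟩ : ∃ s0, s0 = n / (t * L) := ⟨_, rfl⟩
  obtain ⟨l2, hl2⟩ : ∃ l2, l2 = C1 * L := ⟨_, rfl⟩
  have hs1t : t * s1 ≤ n := by
    rw [hs1]
    exact Nat.mul_div_le n t
  have hs0t : t * L * s0 ≤ n := by
    rw [hs0]
    exact Nat.mul_div_le n (t * L)
  have hs0n : 3 * s0 ≤ n := by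
    have h1 : 3 * s0 ≤ t * L * s0 := by
      have h2 : 3 * 1 ≤ t * L := Nat.mul_le_mul (by omega) (by omega)
      exact Nat.mul_le_mul_right _ (by omega)
    exact h1.trans hs0t
  have hlog : C1 * (Nat.log 2 (3 * s0) + 1) ≤ l2 := by
    rw [hl2, hL]
    exact Nat.mul_le_mul_left _ (Nat.add_le_add_right (Nat.log_mono_right hs0n) 1)
  have hls : ((C1 * (3 * s1) + l2 * (3 * s0) : ℕ) : ℝ) ≤ μ * n / 4 := by
    have h1 : ((t * s1 : ℕ) : ℝ) ≤ n := by exact_mod_cast hs1t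
    have h1' : ((t * L * s0 : ℕ) : ℝ) ≤ n := by exact_mod_cast hs0t
    push_cast at h1 h1'
    rw [hl2]
    push_cast
    have h3 : (0 : ℝ) ≤ (s1 : ℝ) := by positivity
    have h3' : (0 : ℝ) ≤ (L : ℝ) * s0 := by positivity
    have h4 : 24 * (C1 : ℝ) * s1 ≤ t * μ * s1 := mul_le_mul_of_nonneg_right ht3 h3
    have h4' : 24 * (C1 : ℝ) * (L * s0) ≤ t * μ * (L * s0) := mul_le_mul_of_nonneg_right ht3 h3'
    have h5 : (t : ℝ) * s1 * μ ≤ n * μ := mul_le_mul_of_nonneg_right h1 hμ0.le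
    have h5' : (t : ℝ) * L * s0 * μ ≤ n * μ := mul_le_mul_of_nonneg_right h1' hμ0.le
    linarith
  have hKK2 : K + (C1 * (3 * s1) + l2 * (3 * s0)) ≤ K2 := by
    have h1 : (K : ℝ) + (C1 * (3 * s1) + l2 * (3 * s0) : ℕ) ≤ K2 := by linarith
    exact_mod_cast h1
  have hKKc : K + (C1 * (3 * s1) + l2 * (3 * s0)) + 2 * δ' ≤ Kc := by
    have h1 : (K : ℝ) + (C1 * (3 * s1) + l2 * (3 * s0) : ℕ) + 2 * δ' ≤ Kc := by
      have h2 : 64 * (δ * n) = c * n := by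
        rw [hδ]
        ring
      linarith
    exact_mod_cast h1
  have hex := hn3 n (by omega)
  rw [← hr] at hex
  have hsat := xp_sat (n := n) hΔ
  have hbal := hn4 n (by omega)
  have hsub2 : (univ.filter fun φ : Fin (Δ * n) → Pool.Agent.H55.QT.Cl n => ¬ (¬ Sat φ ∧
        ∀ (k : ℕ) (Sch : Set (Fm ℕ)), (∀ ψ ∈ Sch, ψ.len ≤ k ∧ ∀ x : ℕ → Bool, ψ.eval x = true) →
        ∀ (N : ℕ) (pf : Fin N → Fm (Ga q n)), DerX k Sch (AxM q φ (k + 3) ∪ ValM q n k) pf →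
          (∃ i j, pf i = Fm.neg (pf j)) →
          (∀ i, Fewq k (n / (T0 k + t)) (k * n) (pf i) ∧
            (spn (lg k (pf i))).card ≤ 2 ^ (n / t) ∧
            (db (spn (lg k (pf i)))).card ≤ 2 ^ (n / (t * (Nat.log 2 n + 1)))) →
          (2 : ℝ) ^ ((n : ℝ) / (T0 k + t : ℕ)) ≤ N)) ⊆
      ((univ.filter fun φ : Fin (Δ * n) → Pool.Agent.H55.QT.Cl n => Sat φ) ∪
      (univ.filter fun φ : Fin (Δ * n) → Pool.Agent.H55.QT.Cl n => ¬ Pool.H86.XP.Exp15 r φ)) ∪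
      (univ.filter fun φ : Fin (Δ * n) → Pool.Agent.H55.QT.Cl n => ¬ Tch C (fun j => cvar (φ j))) := by
    intro φ hφ
    rw [mem_filter] at hφ
    rw [mem_union, mem_union, mem_filter, mem_filter, mem_filter]
    by_contra hcon
    refine hφ.2 ⟨fun hs => hcon (Or.inl (Or.inl ⟨mem_univ _, hs⟩)), ?_⟩
    have h1 : Pool.H86.XP.Exp15 r φ := by
      by_contra h2
      exact hcon (Or.inl (Or.inr ⟨mem_univ _, h2⟩))
    have h2 : Tch C (fun j => cvar (φ j)) := by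
      by_contra h3
      exact hcon (Or.inr ⟨mem_univ _, h3⟩)
    have hcv : ∀ j, (cvar (φ j)).card = 3 := by
      intro j
      unfold cvar
      rw [card_map, card_univ, Fintype.card_fin]
    intro k Sch hSch N pf hpf hij hsz
    rw [← hL, ← hs1, ← hs0] at hsz
    by_contra hlt
    push Not at hlt
    have hTk : (0 : ℝ) < ((T0 k + t : ℕ) : ℝ) := by exact_mod_cast (by omega : 0 < T0 k + t)
    -- the isolated variables
    have hM : ∀ i j l, (spn (lg k (pf i) ∪ lg k (pf j) ∪ lg k (pf l))).card ≤ 2 ^ (3 * s1) := by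
      intro i j l
      have e1 := spn_un2 (lg k (pf i) ∪ lg k (pf j)) (lg k (pf l))
      have e2 := spn_un2 (lg k (pf i)) (lg k (pf j))
      calc (spn (lg k (pf i) ∪ lg k (pf j) ∪ lg k (pf l))).card ≤
          (spn (lg k (pf i))).card * (spn (lg k (pf j))).card * (spn (lg k (pf l))).card :=
            e1.trans (Nat.mul_le_mul_right _ e2)
        _ ≤ 2 ^ s1 * 2 ^ s1 * 2 ^ s1 :=
            Nat.mul_le_mul (Nat.mul_le_mul (hsz i).2.1 (hsz j).2.1) (hsz l).2.1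
        _ = 2 ^ (3 * s1) := by
            rw [← pow_add, ← pow_add]
            congr 1
            ring
    have hM2 : ∀ i j l, (db (spn (lg k (pf i) ∪ lg k (pf j) ∪ lg k (pf l)))).card ≤ 2 ^ (3 * s0) := by
      intro i j l
      have e1 := spn_db2 (lg k (pf i) ∪ lg k (pf j)) (lg k (pf l))
      have e2 := spn_db2 (lg k (pf i)) (lg k (pf j))
      calc (db (spn (lg k (pf i) ∪ lg k (pf j) ∪ lg k (pf l)))).card ≤
          (db (spn (lg k (pf i)))).card * (db (spn (lg k (pf j)))).card * (db (spn (lg k (pf l)))).card :=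
            e1.trans (Nat.mul_le_mul_right _ e2)
        _ ≤ 2 ^ s0 * 2 ^ s0 * 2 ^ s0 :=
            Nat.mul_le_mul (Nat.mul_le_mul (hsz i).2.2 (hsz j).2.2) (hsz l).2.2
        _ = 2 ^ (3 * s0) := by
            rw [← pow_add, ← pow_add]
            congr 1
            ring
    obtain ⟨𝒮, h𝒮1, h𝒮2⟩ := fam_card (pf := fun i => lg k (pf i)) hM
    have h𝒮3 : (𝒮.card : ℝ) < 2 ^ (η * n) := by
      have e1 : (𝒮.card : ℝ) ≤ (N : ℝ) ^ 3 * 2 ^ (3 * s1) := by exact_mod_cast h𝒮1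
      have e2 : (N : ℝ) < 2 ^ ((n : ℝ) / t) := by
        refine lt_of_lt_of_le hlt (Real.rpow_le_rpow_of_exponent_le (by norm_num) ?_)
        refine div_le_div_of_nonneg_left hnr.le htr ?_
        exact_mod_cast Nat.le_add_left _ _
      have e3 : (N : ℝ) ^ 3 < (2 ^ ((n : ℝ) / t)) ^ 3 :=
        pow_lt_pow_left₀ e2 (Nat.cast_nonneg _) (by norm_num)
      have e4 : ((2 : ℝ) ^ ((n : ℝ) / t)) ^ 3 = 2 ^ (3 * ((n : ℝ) / t)) := by
        rw [← Real.rpow_natCast, ← Real.rpow_mul (by norm_num)]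
        congr 1
        push_cast
        ring
      have e5 : (2 : ℝ) ^ (3 * s1) ≤ 2 ^ (3 * ((n : ℝ) / t)) := by
        rw [← Real.rpow_natCast]
        refine Real.rpow_le_rpow_of_exponent_le (by norm_num) ?_
        push_cast
        have e6 : (s1 : ℝ) ≤ (n : ℝ) / t := by
          rw [le_div_iff₀ htr]
          have e7 : s1 * t ≤ n := by
            rw [Nat.mul_comm]
            exact hs1t
          exact_mod_cast e7
        linarith
      have e6 : (0 : ℝ) < 2 ^ (3 * s1) := by positivity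
      calc (𝒮.card : ℝ) ≤ (N : ℝ) ^ 3 * 2 ^ (3 * s1) := e1
        _ < (2 ^ ((n : ℝ) / t)) ^ 3 * 2 ^ (3 * s1) := mul_lt_mul_of_pos_right e3 e6
        _ ≤ (2 ^ ((n : ℝ) / t)) ^ 3 * 2 ^ (3 * ((n : ℝ) / t)) :=
            mul_le_mul_of_nonneg_left e5 (by positivity)
        _ = 2 ^ (6 * ((n : ℝ) / t)) := by
            rw [e4, ← Real.rpow_add (by norm_num)]
            congr 1
            ring
        _ ≤ 2 ^ (η * n) := by
            refine Real.rpow_le_rpow_of_exponent_le (by norm_num) ?_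
            rw [← mul_div_assoc, div_le_iff₀ htr]
            nlinarith
    obtain ⟨U₀, hSep, hU₀⟩ := hrnd n (Δ * n) (fun j => cvar (φ j)) (fun j => (hcv j).le) h2 𝒮 h𝒮3
    have hgood : ∀ i j l, GdM2 U₀ K2 δ' (3 * s1) (3 * s0) (lg k (pf i) ∪ lg k (pf j) ∪ lg k (pf l)) := by
      intro i j l
      refine ⟨hM i j l, hM2 i j l, fun F hF hFK => ?_⟩
      by_contra hIδ
      push Not at hIδ
      have e1 : δ * n < ((sp F).card : ℝ) := by
        rw [hδ'] at hIδ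
        exact Nat.lt_of_floor_lt hIδ
      have e2 := hU₀ (sp F) (h𝒮2 i j l F hF) e1
      have e3 : ((sp F ∩ U₀).card : ℝ) ≤ K2 := by exact_mod_cast hFK
      have e4 : μ * n ≤ κr * n := mul_le_mul_of_nonneg_right hμκ hnr.le
      linarith
    -- the world
    have hx : ∀ J : Finset (Fin (Δ * n)), J.card ≤ r →
        J.card ≤ 4 * (par (fun j => cvar (φ j) \ U₀) J).card := Pool.H86.XP.ext15 h1 hSep
    have hcard3 : ∀ j, (cvar (φ j) \ U₀).card ≤ 3 := fun j => (card_le_card sdiff_subset).trans (hcv j).le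
    have hcms : Cms (XCon (fun j => cvar (φ j) \ U₀) (fun j => Pool.H86.XP.rhs (φ j) U₀) r) K
        (GdM2 (q := q) U₀ K2 δ' (3 * s1) (3 * s0))
        (Wm2 (XCon (fun j => cvar (φ j) \ U₀) (fun j => Pool.H86.XP.rhs (φ j) U₀) r) U₀ C1 l2) :=
      hcmm n C1 l2 (3 * s1) (3 * s0) K K2 Kc δ' U₀ _ (xwld hx hKc8) (x_ins fun j => sdiff_disjoint) le_rfl hlog
        hKK2 hKKc
    have hfin := hdet k n (Δ * n) r K (Ga q n) (fun j => cvar (φ j) \ U₀) (fun j => Pool.H86.XP.rhs (φ j) U₀) hx hKl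
      (by omega)
      (hsubT n (Δ * n) r _ _ hx hcard3 (tch_sub h2 fun j => sdiff_subset)) (GdM2 U₀ K2 δ' (3 * s1) (3 * s0)) _ hcms
      (AxM q φ (k + 3) ∪ ValM q n k) (fun F hF => ?_) Sch
      (fun ψ hψ => ⟨(hSch ψ hψ).1.trans (Nat.le_add_right _ _), (hSch ψ hψ).2⟩) N pf hpf (Or.inl hij)
      (fun i => ⟨(hsz i).1.1.trans ?_, (hsz i).1.2⟩) hgood
    · refine absurd hfin (not_le.2 (lt_of_lt_of_le hlt ?_))
      refine Real.rpow_le_rpow_of_exponent_le (by norm_num) ?_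
      refine div_le_div_of_nonneg_left hnr.le (by exact_mod_cast hT0 k) ?_
      exact_mod_cast Nat.le_add_right _ _
    · rcases hF with hF | hF
      · exact Or.inl ⟨hF.1, fun y hy => hF.2 y fun j hj => Pool.H86.XP.cla_ok hr1 U₀ (fs F) hy j hj⟩
      · exact Or.inr ⟨hF.1.trans (Nat.le_add_right _ _), hF.2⟩
    · exact Nat.div_le_div_left (Nat.le_add_right _ _) (hT0 k)
  obtain ⟨W, hW⟩ : ∃ W, W = Fintype.card (Fin (Δ * n) → Pool.Agent.H55.QT.Cl n) := ⟨_, rfl⟩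
  rw [← hW] at hex hsat hbal ⊢
  have hW0 : (0 : ℝ) ≤ W := Nat.cast_nonneg _
  have h9 : (9 / 10 : ℝ) ^ n ≤ e / 3 :=
    (pow_le_pow_of_le_one (by norm_num) (by norm_num) hn1').trans hn1.le
  have hcard := ((card_le_card hsub2).trans (card_union_le _ _)).trans
    (Nat.add_le_add_right (card_union_le _ _) _)
  have hcard' := (Nat.cast_le (α := ℝ)).2 hcard
  push_cast at hcard'
  push_cast
  refine hcard'.trans ?_
  have h6 : (9 / 10 : ℝ) ^ n * W ≤ e / 3 * W := mul_le_mul_of_nonneg_right h9 hW0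
  linarith

end Pool.H86.MG
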