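import Mathlib
import Pool.Agent.H86.MG.Fig
import Pool.Agent.H86.MG.Few
import Pool.Agent.H86.XP.Cor

set_option autoImplicit false
set_option linter.unusedSectionVars false

/-!
# Module COG (THEOREM LPg): lines of bounded alternation; together with resolution over parities
-/

namespace Pool.H86.MG

open Finset Classical Pool.Agent.H3.Frg Pool.Agent.H3.Frg2 Pool.Agent.H3.Frg4 Pool.Agent.H55.QT Pool.H6.LD

private theorem pc_mono {V : Type} {k k' : ℕ} (hk : k ≤ k') {F : Fm V} (h : Pc k F) : Pc k' F :=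
  ⟨h.1.trans hk, h.2.trans hk⟩

theorem derx_mono {V : Type} {k k' N : ℕ} (hk : k ≤ k') {Sch : Set (Fm ℕ)} {Γ Γ' : Set (Fm V)} (hΓ : Γ ⊆ Γ')
    {pf : Fin N → Fm V} (h : DerX k Sch Γ pf) : DerX k' Sch Γ' pf := by
  intro i
  rcases h i with h1 | h1 | h1 | ⟨j, l, h1, h2, h3, h4, h5, h6⟩
  · exact Or.inl (hΓ h1)
  · exact Or.inr (Or.inl h1)
  · exact Or.inr (Or.inr (Or.inl h1))
  · exact Or.inr (Or.inr (Or.inr ⟨j, l, h1, h2, pc_mono hk h3, pc_mono hk h4, pc_mono hk h5, h6⟩))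

theorem axm_mono {q n m a b c d : ℕ} (hab : a ≤ b) (hcd : c ≤ d) (φ : Fin m → Pool.Agent.H55.QT.Cl n) :
    AxM q φ a ∪ ValM q n c ⊆ AxM q φ b ∪ ValM q n d := by
  intro F hF
  rcases hF with hF | hF
  · exact Or.inl ⟨hF.1.trans hab, hF.2⟩
  · exact Or.inr ⟨hF.1.trans hcd, hF.2⟩

private theorem two_lines {V : Type} {N : ℕ} {pf : Fin N → Fm V} (hc : ∃ i j, pf i = Fm.neg (pf j)) : 2 ≤ N := by
  obtain ⟨i, j, hij⟩ := hc
  by_contra h1
  have h2 : i = j := by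
    apply Fin.ext
    have := i.2
    have := j.2
    omega
  rw [h2] at hij
  have h3 := congrArg Fm.len hij
  simp [Fm.len] at h3

private theorem small_n {n T N : ℕ} (hn : n ≤ T) (hN : 2 ≤ N) : (2 : ℝ) ^ ((n : ℝ) / T) ≤ N := by
  have h1 : (n : ℝ) / T ≤ 1 := by
    rcases Nat.eq_zero_or_pos T with h0 | h0
    · rw [h0, Nat.cast_zero, div_zero]
      norm_num
    · rw [div_le_one (by exact_mod_cast h0)]
      exact_mod_cast hn
  calc (2 : ℝ) ^ ((n : ℝ) / T) ≤ 2 ^ (1 : ℝ) := Real.rpow_le_rpow_of_exponent_le (by norm_num) h1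
    _ = 2 := Real.rpow_one 2
    _ ≤ N := by exact_mod_cast hN

private theorem pow_anti {n a b : ℕ} (ha : 0 < a) (hab : a ≤ b) : (2 : ℝ) ^ ((n : ℝ) / b) ≤ 2 ^ ((n : ℝ) / a) := by
  refine Real.rpow_le_rpow_of_exponent_le (by norm_num) ?_
  exact div_le_div_of_nonneg_left (Nat.cast_nonneg _) (by exact_mod_cast ha) (by exact_mod_cast hab)

/-- the group generated by parities has exponent 2 -/
private theorem par_two {q n : ℕ} [NeZero q] {G : Finset (Ga q n)} (hG : ∀ a ∈ G, a.f + a.f = 0)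
    {F : Fin n → ZMod q} (hF : F ∈ spn G) : F + F = 0 := by
  unfold spn at hF
  rw [mem_filter] at hF
  refine AddSubgroup.closure_induction (p := fun x _ => x + x = 0) ?_ ?_ ?_ ?_ hF.2
  · rintro x ⟨a, ha, rfl⟩
    exact hG a ha
  · exact add_zero 0
  · intro x y _ _ hx hy
    calc x + y + (x + y) = x + x + (y + y) := by abel
      _ = 0 := by rw [hx, hy, add_zero]
  · intro x _ hx
    calc -x + -x = -(x + x) := by abel
      _ = 0 := by rw [hx, neg_zero]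

theorem db_card {q n : ℕ} [NeZero q] (G : Finset (Ga q n)) :
    (db (spn G)).card ≤ q ^ (G.filter fun a => a.f + a.f ≠ 0).card := by
  have h1 : db (spn G) ⊆ db (spn (G.filter fun a => a.f + a.f ≠ 0)) := by
    intro E hE
    unfold db at hE ⊢
    rw [mem_image] at hE ⊢
    obtain ⟨F, hF, rfl⟩ := hE
    have h2 : G = (G.filter fun a => a.f + a.f ≠ 0) ∪ (G.filter fun a => ¬ (a.f + a.f ≠ 0)) :=
      (filter_union_filter_not_eq _ G).symm
    rw [h2] at hF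
    obtain ⟨A, hA, B, hB, rfl⟩ := spn_union hF
    have h3 : B + B = 0 := par_two (fun a ha => not_not.1 (mem_filter.1 ha).2) hB
    refine ⟨A, hA, ?_⟩
    calc A + A = A + A + (B + B) := by rw [h3, add_zero]
      _ = A + B + (A + B) := by abel
  exact (card_le_card h1).trans (card_image_le.trans (spn_card _))

private theorem sznc {q n : ℕ} (F : Fm (Ga q n)) :
    ∑ a ∈ (fv F).filter fun a => a.f + a.f ≠ 0, max 1 (sp a.f).card ≤ szn F := by
  induction F with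
  | var a =>
    have h1 : fv (Fm.var a) = {a} := rfl
    rw [h1, filter_singleton]
    unfold szn
    by_cases h : a.f + a.f = 0
    · rw [if_neg (not_not.2 h), sum_empty]
      exact Nat.zero_le _
    · rw [if_pos h, if_neg h, sum_singleton]
  | neg A ih => exact ih
  | imp A B ihA ihB =>
    have h1 : fv (Fm.imp A B) = fv A ∪ fv B := rfl
    have h2 : szn (Fm.imp A B) = szn A + szn B := rfl
    rw [h1, h2, filter_union]
    have h3 := sum_union_inter (s₁ := (fv A).filter fun a => a.f + a.f ≠ 0)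
      (s₂ := (fv B).filter fun a => a.f + a.f ≠ 0) (f := fun a : Ga q n => max 1 (sp a.f).card)
    omega

theorem szn_count {q n : ℕ} (k' : ℕ) (F : Fm (Ga q n)) :
    ((lg k' F).filter fun a => a.f + a.f ≠ 0).card * (k' + 1) ≤ szn F := by
  refine le_trans ?_ (sznc F)
  have h1 : ((lg k' F).filter fun a => a.f + a.f ≠ 0).card * (k' + 1) =
      ∑ _S ∈ (lg k' F).filter fun a => a.f + a.f ≠ 0, (k' + 1) := by
    rw [sum_const, smul_eq_mul]
  rw [h1]
  have h2 : ∑ _S ∈ (lg k' F).filter fun a => a.f + a.f ≠ 0, (k' + 1) ≤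
      ∑ a ∈ (lg k' F).filter fun a => a.f + a.f ≠ 0, max 1 (sp a.f).card := by
    refine sum_le_sum fun S hS => ?_
    have h3 := (mem_filter.1 (mem_filter.1 hS).1).2
    have h4 : k' < (sp S.f).card := h3
    exact le_trans (by omega) (le_max_right 1 (sp S.f).card)
  refine h2.trans ?_
  refine sum_le_sum_of_subset ?_
  intro S hS
  rw [mem_filter] at hS ⊢
  exact ⟨(mem_filter.1 hS.1).1, hS.2⟩

/-- the group generated by few gates -/
private theorem few_gates {q c k k' T1 n L s : ℕ} (h2 : k * T1 * (Nat.log 2 q + 1) ≤ k') (hk : 0 < k)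
    (hT1 : 0 < T1) (hL : 0 < L) (hc : c * (k' + 1) ≤ s) (hs : s * L ≤ k * n) : q ^ c ≤ 2 ^ (n / (T1 * L)) := by
  have e3 : c * (Nat.log 2 q + 1) ≤ n / (T1 * L) := by
    rw [Nat.le_div_iff_mul_le (Nat.mul_pos hT1 hL)]
    have e4 := Nat.mul_le_mul_right L hc
    have e5 : c * (k * T1 * (Nat.log 2 q + 1)) * L ≤ c * (k' + 1) * L :=
      Nat.mul_le_mul_right _ (Nat.mul_le_mul_left _ (by omega))
    have e6 : k * (c * (Nat.log 2 q + 1) * (T1 * L)) ≤ k * n := by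
      calc k * (c * (Nat.log 2 q + 1) * (T1 * L)) = c * (k * T1 * (Nat.log 2 q + 1)) * L := by ring
        _ ≤ k * n := e5.trans (e4.trans hs)
    exact Nat.le_of_mul_le_mul_left e6 hk
  calc q ^ c ≤ (2 ^ (Nat.log 2 q + 1)) ^ c :=
        Nat.pow_le_pow_left (Nat.lt_pow_succ_log_self (by norm_num) q).le _
    _ = 2 ^ (c * (Nat.log 2 q + 1)) := by rw [← pow_mul, Nat.mul_comm]
    _ ≤ 2 ^ (n / (T1 * L)) := Nat.pow_le_pow_right (by norm_num) e3

/-- lines of bounded alternation satisfy the hypotheses of the general theorem -/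
private theorem line_ok {q n k k' T1 Ta L : ℕ} [NeZero q] (h1 : 2 * k * k + k ≤ k') (h2 : k * T1 * (Nat.log 2 q + 1) ≤ k')
    (hT1 : 0 < T1) (hTa : 0 < Ta) (hL : 0 < L)
    (hn : Ta ≤ n) {F : Fm (Ga q n)} (hF : alt F true ≤ k ∧ alt F false ≤ k)
    (hl : sz F ≤ k * n) (hl2 : szn F * L ≤ k * n) :
    Fewq k' (n / Ta) (k' * n) F ∧ (spn (lg k' F)).card ≤ 2 ^ (n / T1) ∧
      (db (spn (lg k' F))).card ≤ 2 ^ (n / (T1 * L)) := by
  obtain ⟨e1, e2⟩ := fewq_leaves k k k' n h1 F hF hl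
  have hk : 0 < k := by
    rcases Nat.eq_zero_or_pos k with h0 | h0
    · rw [h0, Nat.zero_mul] at hl
      have := sz_pos F
      omega
    · exact h0
  refine ⟨⟨e1.trans ?_, e2⟩, ?_, ?_⟩
  · rw [Nat.le_div_iff_mul_le hTa]
    omega
  · have h3 := few_gates (q := q) (L := 1) h2 hk hT1 one_pos (lg_count k' F) (by rw [Nat.mul_one]; exact hl)
    rw [Nat.mul_one] at h3
    exact (spn_card _).trans h3
  · exact (db_card _).trans (few_gates h2 hk hT1 hL (szn_count k' F) hl2)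

theorem lgc (q : ℕ) [NeZero q] {Δ : ℕ} (hΔ : 6 ≤ Δ) : ∃ T1 : ℕ, 0 < T1 ∧ ∃ T : ℕ → ℕ, (∀ k, 0 < T k) ∧ ∀ e : ℝ, 0 < e →
    ∃ n0 : ℕ, ∀ n : ℕ, n0 ≤ n →
      ((univ.filter fun φ : Fin (Δ * n) → Pool.Agent.H55.QT.Cl n => ¬ (¬ Sat φ ∧
        ∀ (k : ℕ) (Sch : Set (Fm ℕ)), (∀ ψ ∈ Sch, ψ.len ≤ k ∧ ∀ x : ℕ → Bool, ψ.eval x = true) →
        ∀ (N : ℕ) (pf : Fin N → Fm (Ga q n)), DerX k Sch (AxM q φ (k + 3) ∪ ValM q n k) pf →
          (∃ i j, pf i = Fm.neg (pf j)) →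
          ((∀ i, alt (pf i) true ≤ k ∧ alt (pf i) false ≤ k ∧ sz (pf i) ≤ k * n ∧
              szn (pf i) * (Nat.log 2 n + 1) ≤ k * n) ∨
            ∀ i, Fewq k (n / T k) (k * n) (pf i) ∧ (spn (lg k (pf i))).card ≤ 2 ^ (n / T1) ∧
              (db (spn (lg k (pf i)))).card ≤ 2 ^ (n / (T1 * (Nat.log 2 n + 1)))) →
          (2 : ℝ) ^ ((n : ℝ) / T k) ≤ N)).card : ℝ) ≤
        e * Fintype.card (Fin (Δ * n) → Pool.Agent.H55.QT.Cl n) := by
  obtain ⟨T1, hT1, Ta, hTa, hmain⟩ := lmg q hΔ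
  obtain ⟨g, hg⟩ : ∃ g : ℕ → ℕ, g = fun k => 2 * k * k + k + k * T1 * (Nat.log 2 q + 1) := ⟨_, rfl⟩
  refine ⟨T1, hT1, fun k => Ta k + Ta (g k), fun k => Nat.add_pos_left (hTa k) _, fun e he => ?_⟩
  obtain ⟨n0, hn0⟩ := hmain e he
  refine ⟨n0, fun n hn => le_trans ?_ (hn0 n hn)⟩
  have hsub : (univ.filter fun φ : Fin (Δ * n) → Pool.Agent.H55.QT.Cl n => ¬ (¬ Sat φ ∧
        ∀ (k : ℕ) (Sch : Set (Fm ℕ)), (∀ ψ ∈ Sch, ψ.len ≤ k ∧ ∀ x : ℕ → Bool, ψ.eval x = true) →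
        ∀ (N : ℕ) (pf : Fin N → Fm (Ga q n)), DerX k Sch (AxM q φ (k + 3) ∪ ValM q n k) pf →
          (∃ i j, pf i = Fm.neg (pf j)) →
          ((∀ i, alt (pf i) true ≤ k ∧ alt (pf i) false ≤ k ∧ sz (pf i) ≤ k * n ∧
              szn (pf i) * (Nat.log 2 n + 1) ≤ k * n) ∨
            ∀ i, Fewq k (n / (Ta k + Ta (g k))) (k * n) (pf i) ∧ (spn (lg k (pf i))).card ≤ 2 ^ (n / T1) ∧
              (db (spn (lg k (pf i)))).card ≤ 2 ^ (n / (T1 * (Nat.log 2 n + 1)))) →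
          (2 : ℝ) ^ ((n : ℝ) / (Ta k + Ta (g k) : ℕ)) ≤ N)) ⊆
      (univ.filter fun φ : Fin (Δ * n) → Pool.Agent.H55.QT.Cl n => ¬ (¬ Sat φ ∧
        ∀ (k : ℕ) (Sch : Set (Fm ℕ)), (∀ ψ ∈ Sch, ψ.len ≤ k ∧ ∀ x : ℕ → Bool, ψ.eval x = true) →
        ∀ (N : ℕ) (pf : Fin N → Fm (Ga q n)), DerX k Sch (AxM q φ (k + 3) ∪ ValM q n k) pf →
          (∃ i j, pf i = Fm.neg (pf j)) →
          (∀ i, Fewq k (n / Ta k) (k * n) (pf i) ∧ (spn (lg k (pf i))).card ≤ 2 ^ (n / T1) ∧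
              (db (spn (lg k (pf i)))).card ≤ 2 ^ (n / (T1 * (Nat.log 2 n + 1)))) →
          (2 : ℝ) ^ ((n : ℝ) / Ta k) ≤ N)) := by
    intro φ hφ
    rw [mem_filter] at hφ ⊢
    refine ⟨hφ.1, fun hcon => hφ.2 ⟨hcon.1, ?_⟩⟩
    intro k Sch hSch N pf hpf hij hlines
    rcases hlines with hlines | hlines
    · refine le_trans (pow_anti (hTa (g k)) (Nat.le_add_left _ _)) ?_
      rcases Nat.lt_or_ge n (Ta (g k)) with hlt | hge
      · exact small_n hlt.le (two_lines hij)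
      · have hgk : k ≤ g k := by
          rw [hg]
          dsimp only
          omega
        refine hcon.2 (g k) Sch (fun ψ hψ => ⟨(hSch ψ hψ).1.trans hgk, (hSch ψ hψ).2⟩) N pf
          (derx_mono hgk (axm_mono (by omega) hgk φ) hpf) hij fun i => ?_
        refine line_ok (k := k) ?_ ?_ hT1 (hTa _) (Nat.succ_pos _) hge ⟨(hlines i).1, (hlines i).2.1⟩
          (hlines i).2.2.1 (hlines i).2.2.2
        · rw [hg]
          dsimp only
          omega
        · rw [hg]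
          dsimp only
          omega
    · refine le_trans (pow_anti (hTa k) (Nat.le_add_right _ _)) ?_
      refine hcon.2 k Sch hSch N pf hpf hij fun i => ⟨⟨(hlines i).1.1.trans ?_, (hlines i).1.2⟩, (hlines i).2⟩
      exact Nat.div_le_div_left (Nat.le_add_right _ _) (hTa k)
  exact_mod_cast card_le_card hsub

end Pool.H86.MG
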