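import Mathlib
import Pool.Agent.H86.MG.Fim
import Pool.Agent.H86.MG.Few

set_option autoImplicit false
set_option linter.unusedSectionVars false

/-!
# Module COM (THEOREM LPm): lines of bounded alternation
-/

namespace Pool.H86.MG

open Finset Classical Pool.Agent.H3.Frg Pool.Agent.H3.Frg2 Pool.Agent.H3.Frg4 Pool.Agent.H55.QT Pool.H6.LD

private theorem pc_mono {V : Type} {k k' : ℕ} (hk : k ≤ k') {F : Fm V} (h : Pc k F) : Pc k' F :=
  ⟨h.1.trans hk, h.2.trans hk⟩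

theorem derx_mono {V : Type} {k k' N : ℕ} (hk : k ≤ k') {Sch : Set (Fm ℕ)} {Γ Γ' : Set (Fm V)} (hΓ : Γ ⊆ Γ')
    {pf : Fin N → Fm V} (h : DerX k Sch Γ pf) : DerX k' Sch Γ' pf := by
  intro i
  rcases h i with h1 | h1 | h1 | ⟨j, l, h1, h2, h3, h4, h5, h6⟩
  · exact Or.inl (hΓ h1)
  · exact Or.inr (Or.inl h1)
  · exact Or.inr (Or.inr (Or.inl h1))
  · exact Or.inr (Or.inr (Or.inr ⟨j, l, h1, h2, pc_mono hk h3, pc_mono hk h4, pc_mono hk h5, h6⟩))

theorem axm_mono {q n m a b c d : ℕ} (hab : a ≤ b) (hcd : c ≤ d) (φ : Fin m → Pool.Agent.H55.QT.Cl n) :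
    AxM q φ a ∪ ValM q n c ⊆ AxM q φ b ∪ ValM q n d := by
  intro F hF
  rcases hF with hF | hF
  · exact Or.inl ⟨hF.1.trans hab, hF.2⟩
  · exact Or.inr ⟨hF.1.trans hcd, hF.2⟩

private theorem two_lines {V : Type} {N : ℕ} {pf : Fin N → Fm V} (hc : ∃ i j, pf i = Fm.neg (pf j)) : 2 ≤ N := by
  obtain ⟨i, j, hij⟩ := hc
  by_contra h1
  have h2 : i = j := by
    apply Fin.ext
    have := i.2
    have := j.2
    omega
  rw [h2] at hij
  have h3 := congrArg Fm.len hij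
  simp [Fm.len] at h3

private theorem small_n {n T N : ℕ} (hn : n ≤ T) (hN : 2 ≤ N) : (2 : ℝ) ^ ((n : ℝ) / T) ≤ N := by
  have h1 : (n : ℝ) / T ≤ 1 := by
    rcases Nat.eq_zero_or_pos T with h0 | h0
    · rw [h0, Nat.cast_zero, div_zero]
      norm_num
    · rw [div_le_one (by exact_mod_cast h0)]
      exact_mod_cast hn
  calc (2 : ℝ) ^ ((n : ℝ) / T) ≤ 2 ^ (1 : ℝ) := Real.rpow_le_rpow_of_exponent_le (by norm_num) h1
    _ = 2 := Real.rpow_one 2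
    _ ≤ N := by exact_mod_cast hN

private theorem pow_anti {n a b : ℕ} (ha : 0 < a) (hab : a ≤ b) : (2 : ℝ) ^ ((n : ℝ) / b) ≤ 2 ^ ((n : ℝ) / a) := by
  refine Real.rpow_le_rpow_of_exponent_le (by norm_num) ?_
  exact div_le_div_of_nonneg_left (Nat.cast_nonneg _) (by exact_mod_cast ha) (by exact_mod_cast hab)

theorem ml_pos (q n : ℕ) : 0 < ml q n := by
  unfold ml
  split_ifs
  · exact one_pos
  · exact Nat.succ_pos _

/-- lines of bounded alternation satisfy the hypotheses of the general theorem -/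
private theorem line_ok {q n k k' T1 Ta L : ℕ} [NeZero q] (h1 : 2 * k * k + k ≤ k') (h2 : k * T1 * (Nat.log 2 q + 1) ≤ k')
    (hT1 : 0 < T1) (hTa : 0 < Ta) (hL : 0 < L)
    (hn : Ta ≤ n) {F : Fm (Ga q n)} (hF : alt F true ≤ k ∧ alt F false ≤ k)
    (hl : sz F * L ≤ k * n ∨ (sz F ≤ k * n ∧ (spn (lg k F)).card ≤ 2 ^ (n / (T1 * L)))) :
    Fewq k' (n / Ta) (k' * n) F ∧ (spn (lg k' F)).card ≤ 2 ^ (n / (T1 * L)) := by
  have hl2 : sz F ≤ k * n := by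
    rcases hl with hl | hl
    · exact le_trans (Nat.le_mul_of_pos_right _ hL) hl
    · exact hl.1
  obtain ⟨e1, e2⟩ := fewq_leaves k k k' n h1 F hF hl2
  refine ⟨⟨e1.trans ?_, e2⟩, ?_⟩
  · rw [Nat.le_div_iff_mul_le hTa]
    omega
  rcases hl with hl | hl
  · have hk : 0 < k := by
      rcases Nat.eq_zero_or_pos k with h0 | h0
      · rw [h0, Nat.zero_mul] at hl2
        have := sz_pos F
        omega
      · exact h0
    have e3 : (lg k' F).card * (Nat.log 2 q + 1) ≤ n / (T1 * L) := by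
      rw [Nat.le_div_iff_mul_le (Nat.mul_pos hT1 hL)]
      have e4 := Nat.mul_le_mul_right L (lg_count k' F)
      have e5 : (lg k' F).card * (k * T1 * (Nat.log 2 q + 1)) * L ≤ (lg k' F).card * (k' + 1) * L :=
        Nat.mul_le_mul_right _ (Nat.mul_le_mul_left _ (by omega))
      have e6 : k * ((lg k' F).card * (Nat.log 2 q + 1) * (T1 * L)) ≤ k * n := by
        calc k * ((lg k' F).card * (Nat.log 2 q + 1) * (T1 * L)) =
            (lg k' F).card * (k * T1 * (Nat.log 2 q + 1)) * L := by ring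
          _ ≤ k * n := e5.trans (e4.trans hl)
      exact Nat.le_of_mul_le_mul_left e6 hk
    calc (spn (lg k' F)).card ≤ q ^ (lg k' F).card := spn_card _
      _ ≤ (2 ^ (Nat.log 2 q + 1)) ^ (lg k' F).card :=
          Nat.pow_le_pow_left (Nat.lt_pow_succ_log_self (by norm_num) q).le _
      _ = 2 ^ ((lg k' F).card * (Nat.log 2 q + 1)) := by rw [← pow_mul, Nat.mul_comm]
      _ ≤ 2 ^ (n / (T1 * L)) := Nat.pow_le_pow_right (by norm_num) e3
  · refine (card_le_card (spn_mono ?_)).trans hl.2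
    intro S hS
    unfold lg at hS ⊢
    rw [mem_filter] at hS ⊢
    exact ⟨hS.1, by omega⟩

theorem lmc (q : ℕ) [NeZero q] {Δ : ℕ} (hΔ : 6 ≤ Δ) : ∃ T1 : ℕ, 0 < T1 ∧ ∃ T : ℕ → ℕ, (∀ k, 0 < T k) ∧ ∀ e : ℝ, 0 < e →
    ∃ n0 : ℕ, ∀ n : ℕ, n0 ≤ n →
      ((univ.filter fun φ : Fin (Δ * n) → Pool.Agent.H55.QT.Cl n => ¬ (¬ Sat φ ∧
        ∀ (k : ℕ) (Sch : Set (Fm ℕ)), (∀ ψ ∈ Sch, ψ.len ≤ k ∧ ∀ x : ℕ → Bool, ψ.eval x = true) →
        ∀ (N : ℕ) (pf : Fin N → Fm (Ga q n)), DerX k Sch (AxM q φ (k + 3) ∪ ValM q n k) pf →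
          (∃ i j, pf i = Fm.neg (pf j)) →
          ((∀ i, alt (pf i) true ≤ k ∧ alt (pf i) false ≤ k ∧ (sz (pf i) * ml q n ≤ k * n ∨
              (sz (pf i) ≤ k * n ∧ (spn (lg k (pf i))).card ≤ 2 ^ (n / (T1 * ml q n))))) ∨
            ∀ i, Fewq k (n / T k) (k * n) (pf i) ∧
              (spn (lg k (pf i))).card ≤ 2 ^ (n / (T1 * ml q n))) →
          (2 : ℝ) ^ ((n : ℝ) / T k) ≤ N)).card : ℝ) ≤
        e * Fintype.card (Fin (Δ * n) → Pool.Agent.H55.QT.Cl n) := by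
  obtain ⟨T1, hT1, Ta, hTa, hmain⟩ := lmm q hΔ
  obtain ⟨g, hg⟩ : ∃ g : ℕ → ℕ, g = fun k => 2 * k * k + k + k * T1 * (Nat.log 2 q + 1) := ⟨_, rfl⟩
  refine ⟨T1, hT1, fun k => Ta k + Ta (g k), fun k => Nat.add_pos_left (hTa k) _, fun e he => ?_⟩
  obtain ⟨n0, hn0⟩ := hmain e he
  refine ⟨n0, fun n hn => le_trans ?_ (hn0 n hn)⟩
  have hsub : (univ.filter fun φ : Fin (Δ * n) → Pool.Agent.H55.QT.Cl n => ¬ (¬ Sat φ ∧
        ∀ (k : ℕ) (Sch : Set (Fm ℕ)), (∀ ψ ∈ Sch, ψ.len ≤ k ∧ ∀ x : ℕ → Bool, ψ.eval x = true) →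
        ∀ (N : ℕ) (pf : Fin N → Fm (Ga q n)), DerX k Sch (AxM q φ (k + 3) ∪ ValM q n k) pf →
          (∃ i j, pf i = Fm.neg (pf j)) →
          ((∀ i, alt (pf i) true ≤ k ∧ alt (pf i) false ≤ k ∧ (sz (pf i) * ml q n ≤ k * n ∨
              (sz (pf i) ≤ k * n ∧ (spn (lg k (pf i))).card ≤ 2 ^ (n / (T1 * ml q n))))) ∨
            ∀ i, Fewq k (n / (Ta k + Ta (g k))) (k * n) (pf i) ∧
              (spn (lg k (pf i))).card ≤ 2 ^ (n / (T1 * ml q n))) →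
          (2 : ℝ) ^ ((n : ℝ) / (Ta k + Ta (g k) : ℕ)) ≤ N)) ⊆
      (univ.filter fun φ : Fin (Δ * n) → Pool.Agent.H55.QT.Cl n => ¬ (¬ Sat φ ∧
        ∀ (k : ℕ) (Sch : Set (Fm ℕ)), (∀ ψ ∈ Sch, ψ.len ≤ k ∧ ∀ x : ℕ → Bool, ψ.eval x = true) →
        ∀ (N : ℕ) (pf : Fin N → Fm (Ga q n)), DerX k Sch (AxM q φ (k + 3) ∪ ValM q n k) pf →
          (∃ i j, pf i = Fm.neg (pf j)) →
          (∀ i, Fewq k (n / Ta k) (k * n) (pf i) ∧
            (spn (lg k (pf i))).card ≤ 2 ^ (n / (T1 * ml q n))) →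
          (2 : ℝ) ^ ((n : ℝ) / Ta k) ≤ N)) := by
    intro φ hφ
    rw [mem_filter] at hφ ⊢
    refine ⟨hφ.1, fun hcon => hφ.2 ⟨hcon.1, ?_⟩⟩
    intro k Sch hSch N pf hpf hij hlines
    rcases hlines with hlines | hlines
    · refine le_trans (pow_anti (hTa (g k)) (Nat.le_add_left _ _)) ?_
      rcases Nat.lt_or_ge n (Ta (g k)) with hlt | hge
      · exact small_n hlt.le (two_lines hij)
      · have hgk : k ≤ g k := by
          rw [hg]
          dsimp only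
          omega
        refine hcon.2 (g k) Sch (fun ψ hψ => ⟨(hSch ψ hψ).1.trans hgk, (hSch ψ hψ).2⟩) N pf
          (derx_mono hgk (axm_mono (by omega) hgk φ) hpf) hij fun i => ?_
        refine line_ok (k := k) ?_ ?_ hT1 (hTa _) (ml_pos q n) hge ⟨(hlines i).1, (hlines i).2.1⟩ (hlines i).2.2
        · rw [hg]
          dsimp only
          omega
        · rw [hg]
          dsimp only
          omega
    · refine le_trans (pow_anti (hTa k) (Nat.le_add_right _ _)) ?_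
      refine hcon.2 k Sch hSch N pf hpf hij fun i => ⟨⟨(hlines i).1.1.trans ?_, (hlines i).1.2⟩, (hlines i).2⟩
      exact Nat.div_le_div_left (Nat.le_add_right _ _) (hTa k)
  exact_mod_cast card_le_card hsub

end Pool.H86.MG
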