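import Mathlib
import Pool.Agent.H86.MG.Cog

set_option autoImplicit false
set_option linter.unusedSectionVars false

/-!
# Module CPT (THEOREM LPg): the final form
-/

namespace Pool.H86.MG

open Finset Classical Pool.Agent.H3.Frg Pool.Agent.H3.Frg2 Pool.Agent.H3.Frg4 Pool.Agent.H55.QT Pool.H6.LD

private theorem pow_anti' {n a b : ℕ} (ha : 0 < a) (hab : a ≤ b) : (2 : ℝ) ^ ((n : ℝ) / b) ≤ 2 ^ ((n : ℝ) / a) := by
  refine Real.rpow_le_rpow_of_exponent_le (by norm_num) ?_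
  exact div_le_div_of_nonneg_left (Nat.cast_nonneg _) (by exact_mod_cast ha) (by exact_mod_cast hab)

/-- floors of large numbers -/
private theorem half_floor {n M : ℕ} (hM : 0 < M) (h : M ≤ n) : (n : ℝ) / (2 * M) ≤ ((n / M : ℕ) : ℝ) := by
  have h1 : 1 ≤ n / M := (Nat.one_le_div_iff hM).2 h
  have h2 : n < M * (n / M + 1) := Nat.lt_mul_div_succ n hM
  have h3 : n ≤ (n / M) * (2 * M) := by
    calc n ≤ M * (n / M + 1) := h2.le
      _ ≤ M * (n / M + n / M) := Nat.mul_le_mul_left _ (by omega)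
      _ = (n / M) * (2 * M) := by ring
  rw [div_le_iff₀ (by positivity)]
  exact_mod_cast h3

private theorem sq_two (l : ℕ) (h : 6 ≤ l) : (l + 1) * (l + 1) ≤ 2 ^ l := by
  induction l, h using Nat.le_induction with
  | base => norm_num
  | succ l hl ih =>
    rw [pow_succ]
    nlinarith

/-- `T (log n + 1) ≤ n` for large `n` -/
private theorem big_log {T n : ℕ} (h : 2 ^ (6 + T) ≤ n) : T * (Nat.log 2 n + 1) ≤ n := by
  have h1 : 6 + T ≤ Nat.log 2 n := Nat.le_log_of_pow_le (by norm_num) h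
  have h2 : n ≠ 0 := by
    have : 0 < 2 ^ (6 + T) := by positivity
    omega
  calc T * (Nat.log 2 n + 1) ≤ (Nat.log 2 n + 1) * (Nat.log 2 n + 1) := Nat.mul_le_mul_right _ (by omega)
    _ ≤ 2 ^ Nat.log 2 n := sq_two _ (by omega)
    _ ≤ n := Nat.pow_log_le_self 2 h2

private theorem log_le {n : ℕ} (h : 2 ≤ n) : ((Nat.log 2 n + 1 : ℕ) : ℝ) ≤ 2 * Real.logb 2 n ∧ 1 ≤ Real.logb 2 n := by
  have h0 : (0 : ℝ) < n := by
    have : 0 < n := by omega
    exact_mod_cast this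
  have h1 : (Nat.log 2 n : ℝ) ≤ Real.logb 2 n := by
    rw [Real.le_logb_iff_rpow_le (by norm_num) h0, Real.rpow_natCast]
    exact_mod_cast Nat.pow_log_le_self 2 (by omega)
  have h2 : 1 ≤ Nat.log 2 n := Nat.le_log_of_pow_le (by norm_num) (by omega)
  have h3 : (1 : ℝ) ≤ Nat.log 2 n := by exact_mod_cast h2
  push_cast
  constructor <;> linarith

theorem lgr (q : ℕ) [NeZero q] {Δ : ℕ} (hΔ : 6 ≤ Δ) : ∃ T1 : ℕ, 0 < T1 ∧ ∃ T : ℕ → ℕ, (∀ k, 0 < T k) ∧ ∀ e : ℝ, 0 < e →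
    ∃ n0 : ℕ, ∀ n : ℕ, n0 ≤ n →
      ((univ.filter fun φ : Fin (Δ * n) → Pool.Agent.H55.QT.Cl n => ¬ (¬ Sat φ ∧
        (∀ (k : ℕ) (Sch : Set (Fm ℕ)), (∀ ψ ∈ Sch, ψ.len ≤ k ∧ ∀ x : ℕ → Bool, ψ.eval x = true) →
        ∀ (N : ℕ) (pf : Fin N → Fm (Ga q n)), DerX k Sch (AxM q φ (k + 3) ∪ ValM q n k) pf →
          (∃ i j, pf i = Fm.neg (pf j)) →
          ((∀ i, alt (pf i) true ≤ k ∧ alt (pf i) false ≤ k ∧ sz (pf i) ≤ k * n ∧
              szn (pf i) * Real.logb 2 n ≤ k * n) ∨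
            ∀ i, Fewq k (n / T k) (k * n) (pf i) ∧ ((spn (lg k (pf i))).card : ℝ) ≤ 2 ^ ((n : ℝ) / T1) ∧
              ((db (spn (lg k (pf i)))).card : ℝ) ≤ 2 ^ (n / (T1 * Real.logb 2 n))) →
          (2 : ℝ) ^ ((n : ℝ) / T k) ≤ N) ∧
        ∀ (k N : ℕ) (C : Fin N → Pool.H86.XP.Lc n), Pool.H86.XP.DerL φ C → (∃ i, ∀ x, ¬ Pool.H86.XP.tL (C i) x) →
          (∀ i, ((C i).filter fun p => k < p.1.card).card ≤ n / T1) →
          (2 : ℝ) ^ ((n : ℝ) / T k) ≤ N)).card : ℝ) ≤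
        e * Fintype.card (Fin (Δ * n) → Pool.Agent.H55.QT.Cl n) := by
  obtain ⟨T1, hT1, Ta, hTa, hmain⟩ := lgc q hΔ
  obtain ⟨T2, hT2, Tb, hTb, hres⟩ := Pool.H86.XP.lpc hΔ
  obtain ⟨T, hT⟩ : ∃ T : ℕ → ℕ, T = fun k => Ta k + Ta (2 * k) + Tb k := ⟨_, rfl⟩
  have hT' : ∀ k, T k = Ta k + Ta (2 * k) + Tb k := fun k => by rw [hT]
  refine ⟨4 * T1 + T2, by omega, T, fun k => ?_, fun e he => ?_⟩
  · have := hTa k
    rw [hT' k]
    omega
  obtain ⟨n0, hn0⟩ := hmain (e / 2) (half_pos he)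
  obtain ⟨n1, hn1⟩ := hres (e / 2) (half_pos he)
  refine ⟨n0 + n1 + 2 ^ (6 + T1), fun n hn => ?_⟩
  have hbig : 2 ^ (6 + T1) ≤ n := le_trans (Nat.le_add_left _ _) hn
  have hnn0 : n0 ≤ n := le_trans (le_trans (Nat.le_add_right _ _) (Nat.le_add_right _ _)) hn
  have hnn1 : n1 ≤ n := le_trans (le_trans (Nat.le_add_left _ _) (Nat.le_add_right _ _)) hn
  have hn2 : 2 ≤ n := by
    refine le_trans ?_ hbig
    calc 2 = 2 ^ 1 := by norm_num
      _ ≤ 2 ^ (6 + T1) := Nat.pow_le_pow_right (by norm_num) (by omega)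
  have hlogn := big_log hbig
  obtain ⟨hlog1, hlog2⟩ := log_le hn2
  have hnr : (0 : ℝ) ≤ n := Nat.cast_nonneg _
  have hT1r : (0 : ℝ) < T1 := by exact_mod_cast hT1
  have hT2r : (0 : ℝ) ≤ T2 := Nat.cast_nonneg _
  have hT1n : T1 ≤ n := le_trans (Nat.le_mul_of_pos_right _ (Nat.succ_pos _)) hlogn
  have hsub : (univ.filter fun φ : Fin (Δ * n) → Pool.Agent.H55.QT.Cl n => ¬ (¬ Sat φ ∧
        (∀ (k : ℕ) (Sch : Set (Fm ℕ)), (∀ ψ ∈ Sch, ψ.len ≤ k ∧ ∀ x : ℕ → Bool, ψ.eval x = true) →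
        ∀ (N : ℕ) (pf : Fin N → Fm (Ga q n)), DerX k Sch (AxM q φ (k + 3) ∪ ValM q n k) pf →
          (∃ i j, pf i = Fm.neg (pf j)) →
          ((∀ i, alt (pf i) true ≤ k ∧ alt (pf i) false ≤ k ∧ sz (pf i) ≤ k * n ∧
              szn (pf i) * Real.logb 2 n ≤ k * n) ∨
            ∀ i, Fewq k (n / T k) (k * n) (pf i) ∧ ((spn (lg k (pf i))).card : ℝ) ≤ 2 ^ ((n : ℝ) / (4 * T1 + T2 : ℕ)) ∧
              ((db (spn (lg k (pf i)))).card : ℝ) ≤ 2 ^ (n / ((4 * T1 + T2 : ℕ) * Real.logb 2 n))) →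
          (2 : ℝ) ^ ((n : ℝ) / T k) ≤ N) ∧
        ∀ (k N : ℕ) (C : Fin N → Pool.H86.XP.Lc n), Pool.H86.XP.DerL φ C → (∃ i, ∀ x, ¬ Pool.H86.XP.tL (C i) x) →
          (∀ i, ((C i).filter fun p => k < p.1.card).card ≤ n / (4 * T1 + T2)) →
          (2 : ℝ) ^ ((n : ℝ) / T k) ≤ N)) ⊆
      (univ.filter fun φ : Fin (Δ * n) → Pool.Agent.H55.QT.Cl n => ¬ (¬ Sat φ ∧
        ∀ (k : ℕ) (Sch : Set (Fm ℕ)), (∀ ψ ∈ Sch, ψ.len ≤ k ∧ ∀ x : ℕ → Bool, ψ.eval x = true) →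
        ∀ (N : ℕ) (pf : Fin N → Fm (Ga q n)), DerX k Sch (AxM q φ (k + 3) ∪ ValM q n k) pf →
          (∃ i j, pf i = Fm.neg (pf j)) →
          ((∀ i, alt (pf i) true ≤ k ∧ alt (pf i) false ≤ k ∧ sz (pf i) ≤ k * n ∧
              szn (pf i) * (Nat.log 2 n + 1) ≤ k * n) ∨
            ∀ i, Fewq k (n / Ta k) (k * n) (pf i) ∧ (spn (lg k (pf i))).card ≤ 2 ^ (n / T1) ∧
              (db (spn (lg k (pf i)))).card ≤ 2 ^ (n / (T1 * (Nat.log 2 n + 1)))) →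
          (2 : ℝ) ^ ((n : ℝ) / Ta k) ≤ N)) ∪
      (univ.filter fun φ : Fin (Δ * n) → Pool.Agent.H55.QT.Cl n => ¬ (¬ Sat φ ∧
        (∀ (k : ℕ) (Sch : Set (Fm ℕ)), (∀ ψ ∈ Sch, ψ.len ≤ k ∧ ∀ x : ℕ → Bool, ψ.eval x = true) →
          ∀ (N : ℕ) (pf : Fin N → Pool.H86.XP.Fx n),
          Pool.H86.XP.DerX k Sch (Pool.H86.XP.AxX φ (k + 3) ∪ Pool.H86.XP.ValX n k) pf →
          (∃ i j, pf i = Fm.neg (pf j)) →
          ((∀ i, alt (pf i) true ≤ k ∧ alt (pf i) false ≤ k ∧ Pool.H86.XP.lx (pf i) ≤ k * n) ∨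
            ∀ i, Pool.H86.XP.Fwx k (n / Tb k) (k * n) (pf i) ∧ (Pool.H86.XP.sums k (pf i)).card ≤ 2 ^ (n / T2)) →
          (2 : ℝ) ^ ((n : ℝ) / Tb k) ≤ N) ∧
        ∀ (k N : ℕ) (C : Fin N → Pool.H86.XP.Lc n), Pool.H86.XP.DerL φ C → (∃ i, ∀ x, ¬ Pool.H86.XP.tL (C i) x) →
          (∀ i, ((C i).filter fun p => k < p.1.card).card ≤ n / T2) →
          (2 : ℝ) ^ ((n : ℝ) / Tb k) ≤ N)) := by
    intro φ hφ
    rw [mem_filter] at hφ
    rw [mem_union, mem_filter, mem_filter]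
    by_contra hcon
    rw [not_or] at hcon
    have hg := not_not.1 fun h => hcon.1 ⟨mem_univ φ, h⟩
    have hx := not_not.1 fun h => hcon.2 ⟨mem_univ φ, h⟩
    refine hφ.2 ⟨hg.1, ?_, ?_⟩
    · intro k Sch hSch N pf hpf hij hlines
      rcases hlines with hlines | hlines
      · refine le_trans (pow_anti' (hTa (2 * k)) (by rw [hT' k]; omega)) ?_
        refine hg.2 (2 * k) Sch (fun ψ hψ => ⟨(hSch ψ hψ).1.trans (by omega), (hSch ψ hψ).2⟩) N pf
          (derx_mono (by omega) (axm_mono (by omega) (by omega) φ) hpf) hij (Or.inl fun i => ?_)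
        obtain ⟨h1, h2, h3, h4⟩ := hlines i
        refine ⟨by omega, by omega, h3.trans (Nat.mul_le_mul_right _ (by omega)), ?_⟩
        have h5 : ((szn (pf i) * (Nat.log 2 n + 1) : ℕ) : ℝ) ≤ ((2 * k * n : ℕ) : ℝ) := by
          have e1 : (0 : ℝ) ≤ szn (pf i) := Nat.cast_nonneg _
          have e2 : (szn (pf i) : ℝ) * ((Nat.log 2 n + 1 : ℕ) : ℝ) ≤ szn (pf i) * (2 * Real.logb 2 n) :=
            mul_le_mul_of_nonneg_left hlog1 e1
          push_cast at e2 ⊢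
          linarith
        exact_mod_cast h5
      · refine le_trans (pow_anti' (hTa k) (by rw [hT' k]; omega)) ?_
        refine hg.2 k Sch hSch N pf hpf hij (Or.inr fun i => ?_)
        obtain ⟨h1, h2, h3⟩ := hlines i
        refine ⟨⟨h1.1.trans (Nat.div_le_div_left (by rw [hT' k]; omega) (hTa k)), h1.2⟩, ?_, ?_⟩
        · have e1 : ((spn (lg k (pf i))).card : ℝ) ≤ ((2 ^ (n / T1) : ℕ) : ℝ) := by
            refine h2.trans ?_
            push_cast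
            rw [← Real.rpow_natCast]
            refine Real.rpow_le_rpow_of_exponent_le (by norm_num) ?_
            refine le_trans ?_ (half_floor hT1 hT1n)
            refine div_le_div_of_nonneg_left hnr (by positivity) ?_
            linarith
          exact_mod_cast e1
        · have e1 : ((db (spn (lg k (pf i)))).card : ℝ) ≤ ((2 ^ (n / (T1 * (Nat.log 2 n + 1))) : ℕ) : ℝ) := by
            refine h3.trans ?_
            push_cast
            rw [← Real.rpow_natCast]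
            refine Real.rpow_le_rpow_of_exponent_le (by norm_num) ?_
            refine le_trans ?_ (half_floor (Nat.mul_pos hT1 (Nat.succ_pos _)) hlogn)
            refine div_le_div_of_nonneg_left hnr (by positivity) ?_
            have e2 : (T1 : ℝ) * ((Nat.log 2 n + 1 : ℕ) : ℝ) ≤ T1 * (2 * Real.logb 2 n) :=
              mul_le_mul_of_nonneg_left hlog1 hT1r.le
            have e3 : (0 : ℝ) ≤ T2 * Real.logb 2 n := mul_nonneg hT2r (by linarith)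
            push_cast at e2 ⊢
            linarith
          exact_mod_cast e1
    · intro k N C hC hE hlong
      refine le_trans (pow_anti' (hTb k) (by rw [hT' k]; omega)) ?_
      exact hx.2.2 k N C hC hE fun i => (hlong i).trans (Nat.div_le_div_left (by omega) hT2)
  have hA := hn0 n hnn0
  have hB := hn1 n hnn1
  have hcard := (card_le_card hsub).trans (card_union_le _ _)
  obtain ⟨W, hW⟩ : ∃ W : ℝ, W = Fintype.card (Fin (Δ * n) → Pool.Agent.H55.QT.Cl n) := ⟨_, rfl⟩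
  rw [← hW] at hA hB ⊢
  refine le_trans ((Nat.cast_le (α := ℝ)).2 hcard) ?_
  rw [Nat.cast_add]
  exact (add_le_add hA hB).trans (le_of_eq (by ring))

end Pool.H86.MG
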