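import Pool.Agent.H86.MG.Cpt

set_option autoImplicit false

/-!
# Refutations of random 3-CNFs by formulas of bounded depth over `MOD_m` gates
-/

namespace Pool.H86.MG.ResDraft

open Finset Classical Pool.Agent.H3.Frg Pool.Agent.H3.Frg2 Pool.Agent.H3.Frg4 Pool.H6.LD Pool.H86.MG
open Pool.Agent.H55.QT (Sat)

/-- For `Δ ≥ 6` and every modulus `q ≥ 1` there are `T1` and a function `T` such that with probability tending to 1 a
random 3-CNF with `n` variables and `Δ n` clauses is unsatisfiable and has for all `k` the following properties. (1)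
Every refutation (`DerX`: not necessarily tree-like; sound schemes with at most `k` symbols, modus ponens, resolution on
gates) by formulas over `MOD_q` gates of the variables (any coefficients, any set of accepted values), with alternation
depth at most `k` and length at most `k n`, where the gates which are not parities (`f + f ≠ 0`) have total length at
most `k n / log_2 n`, has at least `2 ^ (n / T k)` lines. (2) The same is true for lines with at most `n / T k`
different pieces (maximal subformulas of alternation depth at most `k`) of total weight at most `k n`, if the linear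
forms of the gates with more than `k` variables of each line generate a group `G` of order at most `2 ^ (n / T1)` such
that `2 G` has order at most `2 ^ (n / (T1 log_2 n))`. (3) Every refutation in resolution over parities (`DerL`:
disjunctions of linear equations mod 2; each line is a clause, or is valid, or follows from two earlier lines), where
each line has at most `n / T1` equations with more than `k` variables, has at least `2 ^ (n / T k)` lines. The last
part: conjunctions and disjunctions of gates and of formulas of length at most `k`, of size up to `2 ^ √(k n)`, are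
admitted in (2). -/
theorem result :
    (∀ (Δ q : ℕ) [NeZero q], 6 ≤ Δ → ∃ T1 : ℕ, 0 < T1 ∧ ∃ T : ℕ → ℕ, (∀ k, 0 < T k) ∧ ∀ e : ℝ, 0 < e →
      ∃ n0 : ℕ, ∀ n : ℕ, n0 ≤ n →
      ((univ.filter fun φ : Fin (Δ * n) → Pool.Agent.H55.QT.Cl n => ¬ (¬ Sat φ ∧
        (∀ (k : ℕ) (Sch : Set (Fm ℕ)), (∀ ψ ∈ Sch, ψ.len ≤ k ∧ ∀ x : ℕ → Bool, ψ.eval x = true) →
          ∀ (N : ℕ) (pf : Fin N → Fm (Ga q n)), DerX k Sch (AxM q φ (k + 3) ∪ ValM q n k) pf →
          (∃ i j, pf i = Fm.neg (pf j)) →
          ((∀ i, alt (pf i) true ≤ k ∧ alt (pf i) false ≤ k ∧ sz (pf i) ≤ k * n ∧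
              szn (pf i) * Real.logb 2 n ≤ k * n) ∨
            ∀ i, Fewq k (n / T k) (k * n) (pf i) ∧ ((spn (lg k (pf i))).card : ℝ) ≤ 2 ^ ((n : ℝ) / T1) ∧
              ((db (spn (lg k (pf i)))).card : ℝ) ≤ 2 ^ (n / (T1 * Real.logb 2 n))) →
          (2 : ℝ) ^ ((n : ℝ) / T k) ≤ N) ∧
        ∀ (k N : ℕ) (C : Fin N → Pool.H86.XP.Lc n), Pool.H86.XP.DerL φ C → (∃ i, ∀ x, ¬ Pool.H86.XP.tL (C i) x) →
          (∀ i, ((C i).filter fun p => k < p.1.card).card ≤ n / T1) →
          (2 : ℝ) ^ ((n : ℝ) / T k) ≤ N)).card : ℝ) ≤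
        e * Fintype.card (Fin (Δ * n) → Pool.Agent.H55.QT.Cl n)) ∧
    ∀ (q k n : ℕ) (F : Fm (Ga q n)) (b : Bool), 1 ≤ k → (∀ p ∈ cj F b, sz p.1 ≤ k ∨ ∃ S, p.1 = Fm.var S) →
      Nat.log 2 (sz F) ^ 2 ≤ k * n → Fewq k 1 (k * n) F :=
  ⟨fun _ q _ hΔ => lgr q hΔ, fun _ k n F b hk hF hl => fewq_par k n hk F b hF hl⟩

end Pool.H86.MG.ResDraft
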